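import Mathlib
import Pool.Agent.H632R3.BranchLim

open Filter Topology Set MeasureTheory ProbabilityTheory
open scoped ENNReal
set_option linter.unusedSectionVars false
open Pool.Agent.H632R3.Branch

namespace Pool.Agent.X139.Fix

noncomputable section

variable {X : Type} [Countable X]

/-- the filtration of the first generations -/
def filt (X : Type) : Filtration ℕ (MeasurableSpace.pi : MeasurableSpace (Sample X)) where
  seq := fun n => past X n
  mono' := fun _ _ h => past_mono h
  le' := fun n => past_le n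

/-- the multiplicative martingale -/
def mm (s : X → ℝ) (x : X) (n : ℕ) (ω : Sample X) : ℝ := mon s (pop x ω n)

theorem mm_meas (s : X → ℝ) (x : X) (n : ℕ) : Measurable[past X n] (mm s x n) :=
  (measurable_of_countable fun f : X →₀ ℕ => mon s f).comp (pop_meas x n)

theorem mm_meas' (s : X → ℝ) (x : X) (n : ℕ) : Measurable (mm s x n) :=
  (mm_meas s x n).mono (past_le n) le_rfl

theorem mm_nonneg {s : X → ℝ} (hs : Box s) (x : X) (n : ℕ) (ω : Sample X) : 0 ≤ mm s x n ω :=
  mon_nonneg hs _

theorem mm_le_one {s : X → ℝ} (hs : Box s) (x : X) (n : ℕ) (ω : Sample X) : mm s x n ω ≤ 1 :=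
  mon_le_one hs _

theorem mm_int (μ : X → PMF (X →₀ ℕ)) {s : X → ℝ} (hs : Box s) (x : X) (n : ℕ) :
    Integrable (mm s x n) (law μ) := by
  refine Integrable.of_bound (mm_meas' s x n).aestronglyMeasurable 1 (Eventually.of_forall fun ω => ?_)
  rw [Real.norm_of_nonneg (mm_nonneg hs x n ω)]
  exact mm_le_one hs x n ω

theorem int_mm (μ : X → PMF (X →₀ ℕ)) {s : X → ℝ} (hs : Box s) (x : X) (n : ℕ) :
    ∫ ω, mm s x n ω ∂(law μ) = ((gen μ)^[n] s) x := by
  rw [integral_eq_lintegral_of_nonneg_ae (Eventually.of_forall fun ω => mm_nonneg hs x n ω)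
    (mm_meas' s x n).aestronglyMeasurable]
  have h1 : ∫⁻ ω, ENNReal.ofReal (mm s x n ω) ∂(law μ) =
      ∫⁻ ω, 1 * ENNReal.ofReal (mon s (pop x ω (0 + n))) ∂(law μ) := by
    refine lintegral_congr fun ω => ?_
    rw [one_mul, zero_add]; rfl
  rw [h1, steps μ x 0 n hs (fun _ => 1) measurable_const]
  have e2 : ∀ ω : Sample X, pop x ω 0 = Finsupp.single x 1 := fun _ => rfl
  simp_rw [e2, mon_single, one_mul]
  rw [lintegral_const, measure_univ, mul_one, ENNReal.toReal_ofReal]
  exact (iter_gen_box μ n hs x).1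

theorem mm_pow (s : X → ℝ) (k : ℕ) (x : X) (n : ℕ) (ω : Sample X) :
    mm s x n ω ^ k = mm (fun y => s y ^ k) x n ω := by
  unfold mm mon Finsupp.prod
  rw [← Finset.prod_pow]
  refine Finset.prod_congr rfl fun y _ => ?_
  show (s y ^ (pop x ω n y)) ^ k = (s y ^ k) ^ (pop x ω n y)
  rw [← pow_mul, ← pow_mul, mul_comm]

theorem box_pow {s : X → ℝ} (hs : Box s) (k : ℕ) : Box (fun y => s y ^ k) := fun y =>
  ⟨pow_nonneg (hs y).1 _, pow_le_one₀ (hs y).1 (hs y).2⟩

theorem mart (μ : X → PMF (X →₀ ℕ)) {s : X → ℝ} (hs : Box s) (hfix : gen μ s = s) (x : X) :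
    Martingale (mm s x) (filt X) (law μ) := by
  refine martingale_of_setIntegral_eq_succ ?_ (fun n => mm_int μ hs x n) ?_
  · intro n
    exact (mm_meas s x n).stronglyMeasurable
  · intro n A hA
    have hA' : MeasurableSet A := past_le n _ hA
    have key : ∀ m, n ≤ m → ∫ ω in A, mm s x m ω ∂(law μ) =
        (∫⁻ ω, A.indicator 1 ω * ENNReal.ofReal (mon s (pop x ω m)) ∂(law μ)).toReal := by
      intro m _
      rw [integral_eq_lintegral_of_nonneg_ae (Eventually.of_forall fun ω => mm_nonneg hs x m ω)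
        (mm_meas' s x m).aestronglyMeasurable]
      congr 1
      rw [← lintegral_indicator hA']
      refine lintegral_congr fun ω => ?_
      by_cases h : ω ∈ A
      · simp [h, mm]
      · simp [h]
    rw [key n le_rfl, key (n + 1) (Nat.le_succ n)]
    rw [one_step μ x hs n (A.indicator 1) (measurable_const.indicator hA), hfix]

theorem exists_limit (μ : X → PMF (X →₀ ℕ)) {s : X → ℝ} (hs : Box s) (hfix : gen μ s = s) (x : X) :
    ∀ᵐ ω ∂(law μ), ∃ c, Tendsto (fun n => mm s x n ω) atTop (𝓝 c) := by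
  refine (mart μ hs hfix x).submartingale.exists_ae_tendsto_of_bdd (R := 1) ?_
  intro n
  refine le_trans (eLpNorm_le_of_ae_bound (C := 1) (Eventually.of_forall fun ω => ?_)) ?_
  · rw [Real.norm_of_nonneg (mm_nonneg hs x n ω)]
    exact mm_le_one hs x n ω
  · simp

theorem mon_le_coord {s : X → ℝ} (hs : Box s) (f : X →₀ ℕ) (y : X) (hy : f y ≠ 0) :
    mon s f ≤ s y := by
  classical
  unfold mon Finsupp.prod
  have hmem : y ∈ f.support := Finsupp.mem_support_iff.2 hy
  rw [← Finset.mul_prod_erase _ _ hmem]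
  have h1 : ∏ z ∈ f.support.erase y, s z ^ f z ≤ 1 :=
    Finset.prod_le_one (fun z _ => pow_nonneg (hs z).1 _) fun z _ => pow_le_one₀ (hs z).1 (hs z).2
  have h2 : s y ^ f y ≤ s y := by
    calc s y ^ f y ≤ s y ^ 1 := pow_le_pow_of_le_one (hs y).1 (hs y).2 (Nat.one_le_iff_ne_zero.2 hy)
      _ = s y := pow_one _
  have h3 : 0 ≤ ∏ z ∈ f.support.erase y, s z ^ f z :=
    Finset.prod_nonneg fun z _ => pow_nonneg (hs z).1 _
  calc s y ^ f y * ∏ z ∈ f.support.erase y, s z ^ f z ≤ s y * 1 :=
        mul_le_mul h2 h1 h3 (hs y).1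
    _ = s y := mul_one _

theorem le_qPartial (μ : X → PMF (X →₀ ℕ)) {s : X → ℝ} (hs : Box s) (hfix : gen μ s = s)
    (hlt : ∀ x, s x < 1) (hfin : {t : X → ℝ | Box t ∧ gen μ t = t}.Finite) : s ≤ qPartial μ := by
  have hex : ∀ x, ∃ M : Sample X → ℝ, Measurable M ∧
      ∀ᵐ ω ∂(law μ), Tendsto (fun n => mm s x n ω) atTop (𝓝 (M ω)) := fun x =>
    measurable_limit_of_tendsto_metrizable_ae (fun n => (mm_meas' s x n).aemeasurable)
      (exists_limit μ hs hfix x)
  choose M hMm hM using hex
  have hM01 : ∀ x, ∀ᵐ ω ∂(law μ), 0 ≤ M x ω ∧ M x ω ≤ 1 := by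
    intro x
    filter_upwards [hM x] with ω hω
    exact ⟨ge_of_tendsto' hω fun n => mm_nonneg hs x n ω, le_of_tendsto' hω fun n => mm_le_one hs x n ω⟩
  have hMint : ∀ x k, Integrable (fun ω => M x ω ^ k) (law μ) := by
    intro x k
    refine Integrable.of_bound ((hMm x).pow_const k).aestronglyMeasurable 1 ?_
    filter_upwards [hM01 x] with ω hω
    rw [Real.norm_of_nonneg (pow_nonneg hω.1 _)]
    exact pow_le_one₀ hω.1 hω.2
  set T : ℕ → X → ℝ := fun k x => ∫ ω, M x ω ^ k ∂(law μ) with hTdef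
  have hT : ∀ k, Tendsto (fun n => (gen μ)^[n] (fun y => s y ^ k)) atTop (𝓝 (T k)) := by
    intro k
    rw [tendsto_pi_nhds]
    intro x
    have h1 : ∀ n, ((gen μ)^[n] (fun y => s y ^ k)) x = ∫ ω, mm s x n ω ^ k ∂(law μ) := by
      intro n
      rw [← int_mm μ (box_pow hs k) x n]
      refine integral_congr_ae (Eventually.of_forall fun ω => ?_)
      exact (mm_pow s k x n ω).symm
    simp_rw [h1]
    refine tendsto_integral_of_dominated_convergence (fun _ => 1) ?_ (integrable_const _) ?_ ?_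
    · intro n
      exact ((mm_meas' s x n).pow_const k).aestronglyMeasurable
    · intro n
      refine Eventually.of_forall fun ω => ?_
      rw [Real.norm_of_nonneg (pow_nonneg (mm_nonneg hs x n ω) _)]
      exact pow_le_one₀ (mm_nonneg hs x n ω) (mm_le_one hs x n ω)
    · filter_upwards [hM x] with ω hω
      exact hω.pow k
  have hTbox : ∀ k, Box (T k) := by
    intro k x
    have h := (tendsto_pi_nhds.1 (hT k)) x
    exact ⟨ge_of_tendsto' h fun n => (iter_gen_box μ n (box_pow hs k) x).1,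
      le_of_tendsto' h fun n => (iter_gen_box μ n (box_pow hs k) x).2⟩
  have hTfix : ∀ k, gen μ (T k) = T k := by
    intro k
    have h1 := (gen_good μ).cont atTop (fun n => (gen μ)^[n] (fun y => s y ^ k)) (T k)
      (Eventually.of_forall fun n => iter_gen_box μ n (box_pow hs k)) (hTbox k) (hT k)
    have h2 : Tendsto (fun n => (gen μ)^[n + 1] (fun y => s y ^ k)) atTop (𝓝 (T k)) :=
      (tendsto_add_atTop_iff_nat 1).mpr (hT k)
    simp_rw [Function.iterate_succ_apply'] at h2
    exact tendsto_nhds_unique h1 h2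
  have hnotinj : ¬ Function.Injective (fun k : ℕ => T (k + 1)) := by
    intro hinj
    exact (Set.infinite_of_injective_forall_mem (s := {t : X → ℝ | Box t ∧ gen μ t = t}) hinj
      (fun k => ⟨hTbox _, hTfix _⟩)) hfin
  have hpig : ∃ a b : ℕ, a < b ∧ T (a + 1) = T (b + 1) := by
    unfold Function.Injective at hnotinj
    push Not at hnotinj
    obtain ⟨a, b, hab, hne⟩ := hnotinj
    rcases lt_or_gt_of_ne hne with h | h
    · exact ⟨a, b, h, hab⟩
    · exact ⟨b, a, h, hab.symm⟩
  obtain ⟨a, b, hab, hTab⟩ := hpig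
  intro x
  have h01 : ∀ᵐ ω ∂(law μ), M x ω = 0 ∨ M x ω = 1 := by
    have h1 : ∫ ω, (M x ω ^ (a + 1) - M x ω ^ (b + 1)) ∂(law μ) = 0 := by
      rw [integral_sub (hMint x _) (hMint x _)]
      have := congrFun hTab x
      simp only [hTdef] at this
      rw [this, sub_self]
    have h2 : 0 ≤ᵐ[law μ] fun ω => (M x ω ^ (a + 1) - M x ω ^ (b + 1)) := by
      filter_upwards [hM01 x] with ω hω
      have : M x ω ^ (b + 1) ≤ M x ω ^ (a + 1) := pow_le_pow_of_le_one hω.1 hω.2 (by omega)
      show 0 ≤ M x ω ^ (a + 1) - M x ω ^ (b + 1)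
      linarith
    have h3 := (integral_eq_zero_iff_of_nonneg_ae h2 ((hMint x _).sub (hMint x _))).1 h1
    filter_upwards [h3, hM01 x] with ω hω hω2
    have h4 : M x ω ^ (a + 1) - M x ω ^ (b + 1) = 0 := hω
    by_cases h5 : M x ω = 0
    · exact Or.inl h5
    · right
      by_contra h6
      have h7 : 0 < M x ω := lt_of_le_of_ne hω2.1 (Ne.symm h5)
      have h8 : M x ω < 1 := lt_of_le_of_ne hω2.2 h6
      have h9 : M x ω ^ (b + 1) < M x ω ^ (a + 1) := pow_lt_pow_right_of_lt_one₀ h7 h8 (by omega)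
      linarith
  have hs1 : s x = ∫ ω, M x ω ∂(law μ) := by
    have h1 := (tendsto_pi_nhds.1 (hT 1)) x
    have h2 : ∀ n, (gen μ)^[n] s = s := by
      intro n
      induction n with
      | zero => rfl
      | succ n ih => rw [Function.iterate_succ_apply', ih, hfix]
    simp only [pow_one] at h1
    have h3 : Tendsto (fun _ : ℕ => s x) atTop (𝓝 (T 1 x)) := by
      refine h1.congr fun n => ?_
      exact congrFun (h2 n) x
    have h4 := tendsto_nhds_unique h3 tendsto_const_nhds
    rw [← h4]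
    simp only [hTdef, pow_one]
  have hA := Aev_meas (X := X) x
  have hle : ∀ᵐ ω ∂(law μ), M x ω ≤ (Aev x).indicator (fun _ => (1 : ℝ)) ω := by
    filter_upwards [h01, hM x] with ω h1 h2
    rcases h1 with h1 | h1
    · rw [h1]
      exact Set.indicator_nonneg (fun _ _ => zero_le_one) ω
    · have hmem : ω ∈ Aev x := by
        intro y
        by_contra hinf
        have hfreq : ∃ᶠ n in atTop, pop x ω n y ≠ 0 :=
          Nat.frequently_atTop_iff_infinite.2 hinf
        have h3 : ∃ᶠ n in atTop, mm s x n ω ≤ s y :=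
          hfreq.mono fun n hn => mon_le_coord hs _ y hn
        have h4 : M x ω ≤ s y := le_of_tendsto_of_frequently h2 h3
        rw [h1] at h4
        exact absurd h4 (not_le.2 (hlt y))
      rw [Set.indicator_of_mem hmem, h1]
  have hfinal : ∫ ω, M x ω ∂(law μ) ≤ ∫ ω, (Aev x).indicator (fun _ => (1 : ℝ)) ω ∂(law μ) := by
    refine integral_mono_ae ?_ ((integrable_const _).indicator hA) hle
    simpa using hMint x 1
  rw [hs1]
  refine hfinal.trans_eq ?_
  rw [integral_indicator hA]
  simp [qPartial, Aev, Measure.real]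

/-- a fixed point below one everywhere is the global extinction vector if there are only finitely
many fixed points -/
theorem eq_qGlobal (μ : X → PMF (X →₀ ℕ)) {s : X → ℝ} (hs : Box s) (hfix : gen μ s = s)
    (hlt : ∀ x, s x < 1) (hfin : {t : X → ℝ | Box t ∧ gen μ t = t}.Finite) : s = qGlobal μ := by
  have h1 : qGlobal μ ≤ s := by
    intro x
    have h := (tendsto_pi_nhds.1 (qGlobal_tendsto μ)) x
    refine le_of_tendsto' h fun n => ?_
    have h2 : ∀ n, (gen μ)^[n] 0 ≤ s := by
      intro n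
      induction n with
      | zero => exact fun y => (hs y).1
      | succ n ih =>
        rw [Function.iterate_succ_apply', ← hfix]
        exact (gen_good μ).mono _ _ (iter_gen_box μ n box_zero) hs ih
    exact h2 n x
  have h2 : qPartial μ = qGlobal μ := by
    by_contra hne
    obtain ⟨x0, hx0⟩ : ∃ x0, qGlobal μ x0 < qPartial μ x0 := by
      by_contra hcon
      push Not at hcon
      exact hne (le_antisymm hcon (qGlobal_le μ))
    have h3 : (Set.Ioo (qGlobal μ x0) (qPartial μ x0)).Infinite := Set.Ioo_infinite hx0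
    choose t ht using fun c : Set.Ioo (qGlobal μ x0) (qPartial μ x0) =>
      exists_fixed μ x0 c.1 c.2.1 c.2.2
    have h4 : Function.Injective t := by
      intro c c' h
      apply Subtype.ext
      rw [← (ht c).2.2.2.2, ← (ht c').2.2.2.2, h]
    have : Infinite (Set.Ioo (qGlobal μ x0) (qPartial μ x0)) := h3.to_subtype
    exact (Set.infinite_of_injective_forall_mem (s := {t : X → ℝ | Box t ∧ gen μ t = t}) h4
      (fun c => ⟨(ht c).1, (ht c).2.1⟩)) hfin
  refine le_antisymm ?_ h1
  rw [← h2]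
  exact le_qPartial μ hs hfix hlt hfin

end

end Pool.Agent.X139.Fix
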