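import Mathlib
import Pool.Agent.X139.FixMart

open Filter Topology Set MeasureTheory ProbabilityTheory
open scoped ENNReal
set_option linter.unusedSectionVars false
open Pool.Agent.H632R3.Branch

namespace Pool.Agent.X139.Fix

noncomputable section

variable {X : Type} [Countable X]

/-- The probability, started from one individual of type `x`, that the total number of individuals
of types in `A` tends to `0`, i.e. that from some generation on no type of `A` is present. -/
def qSet (μ : X → PMF (X →₀ ℕ)) (A : Set X) (x : X) : ℝ :=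
  (law μ).real {ω | ∃ N, ∀ n, N ≤ n → ∀ y ∈ A, pop x ω n y = 0}

open Classical in
/-- Indicator of the complement of `A`. -/
def chiS (A : Set X) (x : X) : ℝ := if x ∈ A then 0 else 1

theorem chiS_box (A : Set X) : Box (chiS A) := by
  intro x; unfold chiS; split_ifs <;> norm_num

open Classical in
theorem mon_chiS (A : Set X) (z : X →₀ ℕ) :
    mon (chiS A) z = if ∀ y ∈ A, z y = 0 then 1 else 0 := by
  unfold mon Finsupp.prod
  split_ifs with h
  · refine Finset.prod_eq_one fun y hy => ?_
    have : y ∉ A := fun hyF => (Finsupp.mem_support_iff.mp hy) (h y hyF)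
    simp [chiS, this]
  · push Not at h
    obtain ⟨y, hyF, hy⟩ := h
    refine Finset.prod_eq_zero (Finsupp.mem_support_iff.mpr hy) ?_
    simp [chiS, hyF, hy]

/-- avoiding `A` in generations `0, ..., j`. -/
def aS (μ : X → PMF (X →₀ ℕ)) (A : Set X) : ℕ → X → ℝ
  | 0 => chiS A
  | j + 1 => fun x => chiS A x * gen μ (aS μ A j) x

theorem aS_box (μ : X → PMF (X →₀ ℕ)) (A : Set X) (j : ℕ) : Box (aS μ A j) := by
  induction j with
  | zero => exact chiS_box A
  | succ j ih => exact (chiS_box A).mul ((gen_good μ).box _ ih)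

/-- no type of `A` is present in generation `n`. -/
def ZS (x : X) (n : ℕ) (A : Set X) : Set (Sample X) := {ω | ∀ y ∈ A, pop x ω n y = 0}

theorem ZS_meas (x : X) (n : ℕ) (A : Set X) : MeasurableSet (ZS x n A) :=
  pop_meas' x n (MeasurableSet.of_discrete (s := {z : X →₀ ℕ | ∀ y ∈ A, z y = 0}))

open Classical in
theorem mon_chiS_pop (x : X) (n : ℕ) (A : Set X) (ω : Sample X) :
    ENNReal.ofReal (mon (chiS A) (pop x ω n)) = (ZS x n A).indicator 1 ω := by
  rw [mon_chiS]
  by_cases h : ω ∈ ZS x n A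
  · have h' : ∀ y ∈ A, pop x ω n y = 0 := h
    rw [indicator_of_mem h, if_pos h']; simp
  · have h' : ¬ ∀ y ∈ A, pop x ω n y = 0 := h
    rw [indicator_of_notMem h, if_neg h']; simp

/-- avoiding `A` in generations `K, ..., K+j`. -/
def RS (x : X) (K j : ℕ) (A : Set X) : Set (Sample X) :=
  {ω | ∀ n, K ≤ n → n ≤ K + j → ω ∈ ZS x n A}

theorem RS_meas (x : X) (K j : ℕ) (A : Set X) : MeasurableSet (RS x K j A) := by
  have : RS x K j A = ⋂ n, ⋂ (_ : K ≤ n), ⋂ (_ : n ≤ K + j), ZS x n A := by
    ext ω; simp [RS]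
  rw [this]
  exact MeasurableSet.iInter fun n => MeasurableSet.iInter fun _ => MeasurableSet.iInter fun _ =>
    ZS_meas x n A

theorem RS_succ (x : X) (K j : ℕ) (A : Set X) (ω : Sample X) :
    ω ∈ RS x K (j + 1) A ↔ ω ∈ ZS x K A ∧ ω ∈ RS x (K + 1) j A := by
  constructor
  · intro h
    exact ⟨h K le_rfl (by omega), fun n h1 h2 => h n (by omega) (by omega)⟩
  · rintro ⟨h1, h2⟩ n h3 h4
    rcases h3.lt_or_eq with h5 | h5
    · exact h2 n h5 (by omega)
    · exact h5 ▸ h1

theorem stayS (μ : X → PMF (X →₀ ℕ)) (x : X) (A : Set X) (j K : ℕ)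
    (Ψ : Sample X → ℝ≥0∞) (hΨ : Measurable[past X K] Ψ) :
    ∫⁻ ω, Ψ ω * (RS x K j A).indicator 1 ω ∂(law μ) =
      ∫⁻ ω, Ψ ω * ENNReal.ofReal (mon (aS μ A j) (pop x ω K)) ∂(law μ) := by
  classical
  induction j generalizing K Ψ with
  | zero =>
    refine lintegral_congr fun ω => ?_
    have h1 : (RS x K 0 A).indicator (1 : Sample X → ℝ≥0∞) ω = (ZS x K A).indicator 1 ω := by
      have : RS x K 0 A = ZS x K A := by
        ext ω
        constructor
        · intro h; exact h K le_rfl le_rfl
        · intro h n h3 h4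
          have : n = K := by omega
          exact this ▸ h
      rw [this]
    rw [h1, ← mon_chiS_pop]
    rfl
  | succ j ih =>
    have h1 : ∀ ω : Sample X, Ψ ω * (RS x K (j + 1) A).indicator 1 ω =
        (Ψ ω * ENNReal.ofReal (mon (chiS A) (pop x ω K))) * (RS x (K + 1) j A).indicator 1 ω := by
      intro ω
      rw [mon_chiS_pop]
      by_cases ha : ω ∈ ZS x K A <;> by_cases hb : ω ∈ RS x (K + 1) j A
      · have : ω ∈ RS x K (j + 1) A := (RS_succ x K j A ω).mpr ⟨ha, hb⟩
        simp [ha, hb, this]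
      · have : ω ∉ RS x K (j + 1) A := fun h => hb ((RS_succ x K j A ω).mp h).2
        simp [hb, this]
      · have : ω ∉ RS x K (j + 1) A := fun h => ha ((RS_succ x K j A ω).mp h).1
        simp [ha, this]
      · have : ω ∉ RS x K (j + 1) A := fun h => ha ((RS_succ x K j A ω).mp h).1
        simp [ha, this]
    simp_rw [h1]
    have hm : Measurable[past X K] fun ω => Ψ ω * ENNReal.ofReal (mon (chiS A) (pop x ω K)) :=
      hΨ.mul (meas_mon_pop (chiS A) x K)
    rw [ih (K + 1) _ (hm.mono (past_mono (Nat.le_succ K)) le_rfl),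
      one_step μ x (aS_box μ A j) K _ hm]
    refine lintegral_congr fun ω => ?_
    rw [mul_assoc, ← ENNReal.ofReal_mul (mon_nonneg (chiS_box A) _), ← mon_mul]
    rfl

/-- probability of avoiding `A` in generations `K, ..., K+j` -/
theorem prob_RS (μ : X → PMF (X →₀ ℕ)) (x : X) (A : Set X) (K j : ℕ) :
    (law μ).real (RS x K j A) = ((gen μ)^[K] (aS μ A j)) x := by
  have h1 : (law μ) (RS x K j A) = ∫⁻ ω, 1 * (RS x K j A).indicator 1 ω ∂(law μ) := by
    simp only [one_mul]
    rw [lintegral_indicator_one (RS_meas x K j A)]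
  have h2 : (law μ) (RS x K j A) = ENNReal.ofReal (((gen μ)^[K] (aS μ A j)) x) := by
    rw [h1, stayS μ x A j K (fun _ => 1) measurable_const]
    have h3 := steps μ x 0 K (aS_box μ A j) (fun _ => 1) measurable_const
    rw [zero_add] at h3
    rw [h3]
    have e2 : ∀ ω : Sample X, pop x ω 0 = Finsupp.single x 1 := fun _ => rfl
    simp_rw [e2, mon_single, one_mul]
    rw [lintegral_const, measure_univ, mul_one]
  rw [Measure.real, h2, ENNReal.toReal_ofReal]
  exact (iter_gen_box μ K (aS_box μ A j) x).1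

/-- avoiding `A` from generation `K` on -/
def CS (x : X) (K : ℕ) (A : Set X) : Set (Sample X) := ⋂ i, RS x K i A

theorem mem_CS (x : X) (K : ℕ) (A : Set X) (ω : Sample X) :
    ω ∈ CS x K A ↔ ∀ n, K ≤ n → ω ∈ ZS x n A := by
  simp only [CS, mem_iInter]
  constructor
  · intro h n hn
    exact h n n hn (by omega)
  · intro h i n h1 _
    exact h n h1

theorem RS_anti (x : X) (K : ℕ) (A : Set X) : Antitone fun i => RS x K i A := by
  intro i i' h ω hω n h1 h2
  exact hω n h1 (by omega)

theorem CS_mono (x : X) (A : Set X) : Monotone fun K => CS x K A := by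
  intro K K' h ω hω
  rw [mem_CS] at hω ⊢
  exact fun n hn => hω n (h.trans hn)

/-- probability of never meeting `A` -/
def al (μ : X → PMF (X →₀ ℕ)) (A : Set X) (x : X) : ℝ := (law μ).real (CS x 0 A)

theorem al_box (μ : X → PMF (X →₀ ℕ)) (A : Set X) : Box (al μ A) := fun _ =>
  ⟨measureReal_nonneg, measureReal_le_one⟩

theorem qSet_box (μ : X → PMF (X →₀ ℕ)) (A : Set X) : Box (qSet μ A) := fun _ =>
  ⟨measureReal_nonneg, measureReal_le_one⟩

theorem aS_tendsto (μ : X → PMF (X →₀ ℕ)) (A : Set X) :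
    Tendsto (aS μ A) atTop (𝓝 (al μ A)) := by
  rw [tendsto_pi_nhds]
  intro x
  have h := real_iInter μ (fun i => RS x 0 i A) (fun i => RS_meas x 0 i A) (RS_anti x 0 A)
  simp only [prob_RS] at h
  exact h

theorem prob_CS (μ : X → PMF (X →₀ ℕ)) (x : X) (A : Set X) (K : ℕ) :
    (law μ).real (CS x K A) = ((gen μ)^[K] (al μ A)) x := by
  have h := real_iInter μ (fun i => RS x K i A) (fun i => RS_meas x K i A) (RS_anti x K A)
  simp only [prob_RS] at h
  have h2 := iter_gen_cont μ K atTop (aS μ A) (al μ A) (aS_box μ A) (al_box μ A) (aS_tendsto μ A)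
  exact tendsto_nhds_unique h ((tendsto_pi_nhds.mp h2) x)

theorem al_iter_tendsto (μ : X → PMF (X →₀ ℕ)) (A : Set X) :
    Tendsto (fun K => (gen μ)^[K] (al μ A)) atTop (𝓝 (qSet μ A)) := by
  rw [tendsto_pi_nhds]
  intro x
  have h := real_iUnion μ (fun K => CS x K A) (CS_mono x A)
  simp only [prob_CS] at h
  have h2 : ⋃ K, CS x K A = {ω | ∃ N, ∀ n, N ≤ n → ∀ y ∈ A, pop x ω n y = 0} := by
    ext ω
    simp only [mem_iUnion, mem_CS]
    rfl
  rw [h2] at h
  exact h

/-- extinction vectors are fixed points -/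
theorem qSet_fixed (μ : X → PMF (X →₀ ℕ)) (A : Set X) : gen μ (qSet μ A) = qSet μ A := by
  have h1 := (gen_good μ).cont atTop (fun K => (gen μ)^[K] (al μ A)) (qSet μ A)
    (Eventually.of_forall fun n => iter_gen_box μ n (al_box μ A)) (qSet_box μ A) (al_iter_tendsto μ A)
  have h2 : Tendsto (fun K => (gen μ)^[K + 1] (al μ A)) atTop (𝓝 (qSet μ A)) :=
    (tendsto_add_atTop_iff_nat 1).mpr (al_iter_tendsto μ A)
  simp_rw [Function.iterate_succ_apply'] at h2
  exact tendsto_nhds_unique h1 h2

/-! ### the process restricted to the types with `s x < 1` -/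

/-- offspring law with the types outside `p` removed -/
def kill (μ : X → PMF (X →₀ ℕ)) (p : X → Prop) (x : {x // p x}) : PMF ({x // p x} →₀ ℕ) :=
  (μ x.1).map (fun f => f.subtypeDomain p)

open Classical in
/-- extension by one -/
def ext1 (p : X → Prop) (t : {x // p x} → ℝ) (y : X) : ℝ := if h : p y then t ⟨y, h⟩ else 1

theorem ext1_box (p : X → Prop) {t : {x // p x} → ℝ} (ht : Box t) : Box (ext1 p t) := by
  intro y
  unfold ext1
  split_ifs with h
  · exact ht _
  · norm_num

theorem mon_ext1 (p : X → Prop) (t : {x // p x} → ℝ) (f : X →₀ ℕ) :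
    mon (ext1 p t) f = mon t (f.subtypeDomain p) := by
  classical
  unfold mon Finsupp.prod
  have h1 : ∏ y ∈ f.support, ext1 p t y ^ f y = ∏ y ∈ f.support.filter p, ext1 p t y ^ f y := by
    refine (Finset.prod_filter_of_ne ?_).symm
    intro y _ hy
    by_contra hp
    apply hy
    simp [ext1, hp]
  rw [h1]
  have h2 : (f.subtypeDomain p).support = f.support.subtype p := by
    ext y; simp
  rw [h2, ← Finset.prod_subtype_eq_prod_filter]
  refine Finset.prod_congr rfl fun y _ => ?_
  simp [ext1, y.2]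

theorem gen_lint {Y : Type} [Countable Y] (μ : Y → PMF (Y →₀ ℕ)) {v : Y → ℝ} (hv : Box v) (x : Y) :
    ENNReal.ofReal (gen μ v x) = ∫⁻ f, ENNReal.ofReal (mon v f) ∂((μ x).toMeasure) := by
  rw [lintegral_countable']
  have h2 : ∀ f : Y →₀ ℕ, (μ x).toMeasure {f} = μ x f := fun f =>
    PMF.toMeasure_apply_singleton _ _ (measurableSet_singleton f)
  simp_rw [h2]
  unfold gen
  rw [ENNReal.ofReal_tsum_of_nonneg (fun f => mul_nonneg ENNReal.toReal_nonneg (mon_nonneg hv f))
    (gen_summable μ hv x)]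
  refine tsum_congr fun f => ?_
  rw [ENNReal.ofReal_mul ENNReal.toReal_nonneg, ENNReal.ofReal_toReal (PMF.apply_ne_top _ f)]
  ring

theorem gen_kill (μ : X → PMF (X →₀ ℕ)) (p : X → Prop) {t : {x // p x} → ℝ} (ht : Box t)
    (x : {x // p x}) : gen (kill μ p) t x = gen μ (ext1 p t) x.1 := by
  have h1 := gen_lint (kill μ p) ht x
  have h2 := gen_lint μ (ext1_box p ht) x.1
  have h3 : (kill μ p x).toMeasure = ((μ x.1).toMeasure).map (fun f => f.subtypeDomain p) := by
    unfold kill
    rw [PMF.toMeasure_map _ _ (measurable_of_countable _)]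
  rw [h3, lintegral_map (measurable_of_countable _) (measurable_of_countable _)] at h1
  simp_rw [← mon_ext1] at h1
  rw [← h2] at h1
  have h4 := ((gen_good (kill μ p)).box t ht x).1
  have h5 := ((gen_good μ).box _ (ext1_box p ht) x.1).1
  rwa [ENNReal.ofReal_eq_ofReal_iff h4 h5] at h1

/-- types with `s x = 1` only have children with `s y = 1` -/
theorem closed_one (μ : X → PMF (X →₀ ℕ)) {s : X → ℝ} (hs : Box s) (hfix : gen μ s = s) (x : X)
    (hx : s x = 1) (f : X →₀ ℕ) (hf : μ x f ≠ 0) (y : X) (hy : f y ≠ 0) : s y = 1 := by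
  have h1 : HasSum (fun f => (μ x f).toReal - (μ x f).toReal * mon s f) (1 - 1) := by
    refine (hasSum_pmf (μ x)).sub ?_
    have h2 := (gen_summable μ hs x).hasSum
    have h3 : ∑' f, (μ x f).toReal * mon s f = 1 := by
      have := congrFun hfix x
      unfold gen at this
      rw [this, hx]
    rwa [h3] at h2
  rw [sub_self] at h1
  have h4 : ∀ f, 0 ≤ (μ x f).toReal - (μ x f).toReal * mon s f := fun f => by
    have h5 := mon_le_one hs f
    have h6 : 0 ≤ (μ x f).toReal := ENNReal.toReal_nonneg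
    nlinarith
  have h7 := (hasSum_zero_iff_of_nonneg h4).1 h1
  have h8 := congrFun h7 f
  have h9 : 0 < (μ x f).toReal := ENNReal.toReal_pos hf (PMF.apply_ne_top _ f)
  have h10 : mon s f = 1 := by
    simp only [Pi.zero_apply] at h8
    have : (μ x f).toReal * (1 - mon s f) = 0 := by linarith
    rcases mul_eq_zero.1 this with h | h
    · exact absurd h h9.ne'
    · linarith
  have h11 := mon_le_coord hs f y hy
  rw [h10] at h11
  exact le_antisymm (hs y).2 h11

theorem gen_ext1_one (μ : X → PMF (X →₀ ℕ)) {s : X → ℝ} (hs : Box s) (hfix : gen μ s = s)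
    (t : {x // s x < 1} → ℝ) (x : X) (hx : ¬ s x < 1) :
    gen μ (ext1 (fun x => s x < 1) t) x = 1 := by
  have hx1 : s x = 1 := le_antisymm (hs x).2 (not_lt.1 hx)
  unfold gen
  have h1 : ∀ f, (μ x f).toReal * mon (ext1 (fun x => s x < 1) t) f = (μ x f).toReal := by
    intro f
    by_cases hf : μ x f = 0
    · simp [hf]
    · have h2 : mon (ext1 (fun x => s x < 1) t) f = 1 := by
        unfold mon Finsupp.prod
        refine Finset.prod_eq_one fun y hy => ?_
        have h3 := closed_one μ hs hfix x hx1 f hf y (Finsupp.mem_support_iff.1 hy)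
        have h4 : ¬ s y < 1 := by rw [h3]; exact lt_irrefl _
        simp [ext1, h4]
      rw [h2, mul_one]
  simp_rw [h1]
  exact (hasSum_pmf (μ x)).tsum_eq

theorem ext1_self {s : X → ℝ} (hs : Box s) :
    ext1 (fun x => s x < 1) (fun x : {x // s x < 1} => s x.1) = s := by
  funext y
  unfold ext1
  split_ifs with h
  · rfl
  · exact le_antisymm (not_lt.1 h) (hs y).2

theorem ext1_inj (p : X → Prop) : Function.Injective (ext1 p : ({x // p x} → ℝ) → X → ℝ) := by
  intro t u h
  funext x
  have := congrFun h x.1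
  simpa [ext1, x.2] using this

theorem chiS_eq (s : X → ℝ) : chiS {x | s x < 1} = ext1 (fun x => s x < 1) (0 : {x // s x < 1} → ℝ) := by
  funext y
  unfold chiS ext1
  by_cases h : s y < 1
  · simp [h]
  · simp [h]

theorem main (μ : X → PMF (X →₀ ℕ)) (hfin : {t : X → ℝ | Box t ∧ gen μ t = t}.Finite)
    {s : X → ℝ} (hs : Box s) (hfix : gen μ s = s) : qSet μ {x | s x < 1} = s := by
  set p : X → Prop := fun x => s x < 1 with hp
  set t : {x // p x} → ℝ := fun x => s x.1 with htdef
  have htb : Box t := fun x => hs x.1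
  have hext : ext1 p t = s := ext1_self hs
  have hlift : ∀ u : {x // p x} → ℝ, Box u → gen (kill μ p) u = u → gen μ (ext1 p u) = ext1 p u := by
    intro u hu hfu
    funext x
    by_cases hx : s x < 1
    · have h1 := gen_kill μ p hu ⟨x, hx⟩
      rw [hfu] at h1
      have h2 : ext1 p u x = u ⟨x, hx⟩ := by simp [ext1, hp, hx]
      rw [h2]
      exact h1.symm
    · have h1 := gen_ext1_one μ hs hfix u x hx
      have h2 : ext1 p u x = 1 := by simp [ext1, hp, hx]
      rw [h2]
      exact h1
  have hkfix : gen (kill μ p) t = t := by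
    funext x
    rw [gen_kill μ p htb x, hext, hfix]
  have hkfin : {u : {x // p x} → ℝ | Box u ∧ gen (kill μ p) u = u}.Finite := by
    refine Set.Finite.subset (hfin.preimage (f := ext1 p) (ext1_inj p).injOn) ?_
    rintro u ⟨hu1, hu2⟩
    exact ⟨ext1_box p hu1, hlift u hu1 hu2⟩
  have hq : t = qGlobal (kill μ p) := eq_qGlobal (kill μ p) htb hkfix (fun x => x.2) hkfin
  -- the avoidance probabilities are stationary
  have hchi : chiS {x | s x < 1} = ext1 p (0 : {x // p x} → ℝ) := chiS_eq s
  have haS : ∀ j, aS μ {x | s x < 1} j = chiS {x | s x < 1} := by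
    intro j
    induction j with
    | zero => rfl
    | succ j ih =>
      funext x
      show chiS {x | s x < 1} x * gen μ (aS μ {x | s x < 1} j) x = chiS {x | s x < 1} x
      rw [ih]
      by_cases hx : s x < 1
      · simp [chiS, hx]
      · rw [hchi, gen_ext1_one μ hs hfix _ x hx, mul_one]
  have hal : al μ {x | s x < 1} = chiS {x | s x < 1} := by
    have h1 := aS_tendsto μ {x | s x < 1}
    have h2 : aS μ {x | s x < 1} = fun _ => chiS {x | s x < 1} := funext haS
    rw [h2] at h1
    exact (tendsto_nhds_unique h1 tendsto_const_nhds)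
  have hiter : ∀ K, (gen μ)^[K] (ext1 p (0 : {x // p x} → ℝ)) = ext1 p ((gen (kill μ p))^[K] 0) := by
    intro K
    induction K with
    | zero => rfl
    | succ K ih =>
      rw [Function.iterate_succ_apply', Function.iterate_succ_apply', ih]
      have hb : Box ((gen (kill μ p))^[K] (0 : {x // p x} → ℝ)) := iter_gen_box _ K box_zero
      funext x
      by_cases hx : s x < 1
      · have h1 := gen_kill μ p hb ⟨x, hx⟩
        have h2 : ext1 p (gen (kill μ p) ((gen (kill μ p))^[K] 0)) x
            = gen (kill μ p) ((gen (kill μ p))^[K] 0) ⟨x, hx⟩ := by simp [ext1, hp, hx]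
        rw [h2, h1]
      · have h1 := gen_ext1_one μ hs hfix ((gen (kill μ p))^[K] 0) x hx
        have h2 : ext1 p (gen (kill μ p) ((gen (kill μ p))^[K] 0)) x = 1 := by simp [ext1, hp, hx]
        rw [h2]
        exact h1
  have h1 := al_iter_tendsto μ {x | s x < 1}
  rw [hal, hchi] at h1
  simp_rw [hiter] at h1
  have h2 : Tendsto (fun K => ext1 p ((gen (kill μ p))^[K] 0)) atTop (𝓝 (ext1 p (qGlobal (kill μ p)))) := by
    rw [tendsto_pi_nhds]
    intro x
    have h3 := tendsto_pi_nhds.1 (qGlobal_tendsto (kill μ p))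
    by_cases hx : p x
    · simpa [ext1, hx] using h3 ⟨x, hx⟩
    · simp [ext1, hx]
  rw [tendsto_nhds_unique h1 h2, ← hq, hext]

end

end Pool.Agent.X139.Fix
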