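import Mathlib
set_option autoImplicit false
open Filter Topology Finset

namespace Pool.Agent.X139.DR

lemma hasSum_of_eq {f g : ℕ → ℝ} {a b : ℝ} (h : HasSum f a) (hfg : ∀ k, g k = f k) (hab : b = a) :
    HasSum g b := by
  subst hab
  rwa [show g = f from funext hfg]

lemma hasSum_cauchy {f g : ℕ → ℝ} {F G : ℝ} (hf0 : ∀ k, 0 ≤ f k) (hg0 : ∀ k, 0 ≤ g k)
    (hf : HasSum f F) (hg : HasSum g G) :
    HasSum (fun k => ∑ ij ∈ antidiagonal k, f ij.1 * g ij.2) (F * G) := by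
  have hfn : Summable (fun k => ‖f k‖) := by
    simpa [Real.norm_eq_abs, abs_of_nonneg (hf0 _)] using hf.summable
  have hgn : Summable (fun k => ‖g k‖) := by
    simpa [Real.norm_eq_abs, abs_of_nonneg (hg0 _)] using hg.summable
  have h1 := tsum_mul_tsum_eq_tsum_sum_antidiagonal_of_summable_norm hfn hgn
  have h2 := (summable_norm_sum_mul_antidiagonal_of_summable_norm hfn hgn).of_norm
  rw [hf.tsum_eq, hg.tsum_eq] at h1
  rw [h1]
  exact h2.hasSum

/-- the sum over functions `Fin 2 → Fin (k+2)` is an antidiagonal sum -/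
lemma fin_two_sum (q : ℕ → ℝ) (k : ℕ) :
    (∑ x : Fin 2 → Fin (k + 2),
        if (∑ i, (x i : ℕ)) = k + 1 then ∏ i, q (x i) else 0)
      = ∑ ij ∈ antidiagonal (k + 1), q ij.1 * q ij.2 := by
  have h1 : (∑ x : Fin 2 → Fin (k + 2),
        if (∑ i, (x i : ℕ)) = k + 1 then ∏ i, q (x i) else 0)
      = ∑ y : Fin (k + 2) × Fin (k + 2), if ((y.1 : ℕ) + y.2) = k + 1 then q y.1 * q y.2 else 0 := by
    refine Fintype.sum_equiv (finTwoArrowEquiv _) _ _ ?_
    intro x
    simp [finTwoArrowEquiv, Fin.sum_univ_two, Fin.prod_univ_two]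
  rw [h1, ← Finset.sum_filter]
  refine Finset.sum_bij (fun y _ => ((y.1 : ℕ), (y.2 : ℕ))) ?_ ?_ ?_ ?_
  · intro y hy
    simp at hy ⊢
    exact hy
  · intro y _ z _ h
    simp at h
    exact Prod.ext (Fin.ext h.1) (Fin.ext h.2)
  · intro b hb
    simp at hb
    refine ⟨(⟨b.1, by omega⟩, ⟨b.2, by omega⟩), ?_, ?_⟩
    · simp [hb]
    · simp
  · intro y _
    rfl

/-- data of one generation: `p`, total mass 1, `G = ∑ p k 2^k`, `D = ∑ k p k 2^k`. -/
structure Gen (p : ℕ → ℝ) (G D : ℝ) : Prop where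
  nn : ∀ k, 0 ≤ p k
  one : HasSum p 1
  hG : HasSum (fun k => p k * 2 ^ k) G
  hD : HasSum (fun k : ℕ => (k : ℝ) * (p k * 2 ^ k)) D

def step (p : ℕ → ℝ) (k : ℕ) : ℝ :=
  (∑ ij ∈ antidiagonal (k + 1), p ij.1 * p ij.2) + (if k = 0 then p 0 ^ 2 else 0)

lemma hasSum_shift {c : ℕ → ℝ} {C : ℝ} (h : HasSum c C) : HasSum (fun k => c (k + 1)) (C - c 0) := by
  have := (hasSum_nat_add_iff (f := c) 1 (g := C - c 0)).2 (by simpa using h)
  simpa using this

lemma Gen.step {p : ℕ → ℝ} {G D : ℝ} (h : Gen p G D) :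
    Gen (step p) ((G ^ 2 + p 0 ^ 2) / 2) (G * D - G ^ 2 / 2 + p 0 ^ 2 / 2) := by
  have hnn : ∀ k, 0 ≤ DR.step p k := by
    intro k
    unfold DR.step
    have : 0 ≤ ∑ ij ∈ antidiagonal (k + 1), p ij.1 * p ij.2 :=
      Finset.sum_nonneg (fun ij _ => mul_nonneg (h.nn _) (h.nn _))
    split_ifs
    · positivity
    · simpa using this
  have hf0 : ∀ k, 0 ≤ p k * 2 ^ k := fun k => mul_nonneg (h.nn k) (by positivity)
  have hkf0 : ∀ k : ℕ, 0 ≤ (k : ℝ) * (p k * 2 ^ k) := fun k => mul_nonneg (by positivity) (hf0 k)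
  have hite : HasSum (fun k : ℕ => if k = 0 then p 0 ^ 2 else 0) (p 0 ^ 2) := hasSum_ite_eq 0 _
  have e1 : ∀ k, DR.step p k * 2 ^ k
      = (1/2) * (∑ ij ∈ antidiagonal (k + 1), (p ij.1 * 2 ^ ij.1) * (p ij.2 * 2 ^ ij.2))
        + (if k = 0 then p 0 ^ 2 else 0) := by
    intro k
    have : (∑ ij ∈ antidiagonal (k + 1), (p ij.1 * 2 ^ ij.1) * (p ij.2 * 2 ^ ij.2))
        = 2 ^ (k + 1) * ∑ ij ∈ antidiagonal (k + 1), p ij.1 * p ij.2 := by
      rw [Finset.mul_sum]
      refine Finset.sum_congr rfl ?_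
      intro ij hij
      rw [← (mem_antidiagonal.1 hij), pow_add]
      ring
    rw [this]
    unfold DR.step
    split_ifs with hk
    · subst hk; norm_num; ring
    · rw [pow_succ]; ring
  have hc := hasSum_cauchy hf0 hf0 h.hG h.hG
  have hc1 := hasSum_shift hc
  refine ⟨hnn, ?_, ?_, ?_⟩
  · have h1 := hasSum_shift (hasSum_cauchy h.nn h.nn h.one h.one)
    have h2 := h1.add hite
    refine hasSum_of_eq h2 (fun k => rfl) ?_
    simp 
    ring
  · have h2 := (hc1.mul_left (1/2)).add hite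
    refine hasSum_of_eq h2 (fun k => e1 k) ?_
    simp 
    ring
  · have hcd := hasSum_cauchy hkf0 hf0 h.hD h.hG
    have hdc := hasSum_cauchy hf0 hkf0 h.hG h.hD
    have hkc := hasSum_shift (hcd.add hdc)
    have h2 := (hkc.mul_left (1/2)).sub (hc1.mul_left (1/2))
    refine hasSum_of_eq h2 (fun k => ?_) ?_
    · rw [e1 k]
      have : (∑ ij ∈ antidiagonal (k + 1), (ij.1 : ℝ) * (p ij.1 * 2 ^ ij.1) * (p ij.2 * 2 ^ ij.2))
        + (∑ ij ∈ antidiagonal (k + 1), (p ij.1 * 2 ^ ij.1) * ((ij.2 : ℝ) * (p ij.2 * 2 ^ ij.2)))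
        = ((k : ℝ) + 1) * ∑ ij ∈ antidiagonal (k + 1), (p ij.1 * 2 ^ ij.1) * (p ij.2 * 2 ^ ij.2) := by
        rw [← Finset.sum_add_distrib, Finset.mul_sum]
        refine Finset.sum_congr rfl ?_
        intro ij hij
        have hh : (ij.1 : ℝ) + ij.2 = k + 1 := by exact_mod_cast (mem_antidiagonal.1 hij)
        rw [← hh]
        ring
      rw [this]
      split_ifs with hk
      · subst hk; norm_num
      · ring
    · simp 
      ring


/-- critical generation -/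
structure Crit (p : ℕ → ℝ) (G : ℝ) : Prop extends Gen p G G

lemma Crit.step {p : ℕ → ℝ} {G : ℝ} (h : Crit p G) :
    Crit (DR.step p) ((G ^ 2 + p 0 ^ 2) / 2) := by
  have h1 := h.toGen.step
  refine ⟨?_⟩
  have : G * G - G ^ 2 / 2 + p 0 ^ 2 / 2 = (G ^ 2 + p 0 ^ 2) / 2 := by ring
  rw [this] at h1
  exact h1

lemma Gen.one_le {p : ℕ → ℝ} {G D : ℝ} (h : Gen p G D) : 1 ≤ G := by
  refine hasSum_le ?_ h.one h.hG
  intro k
  have h2 : (1 : ℝ) ≤ 2 ^ k := one_le_pow₀ (by norm_num)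
  nlinarith [h.nn k]

lemma Gen.p0_le {p : ℕ → ℝ} {G D : ℝ} (h : Gen p G D) : p 0 ≤ 1 :=
  le_hasSum h.one 0 (fun j _ => h.nn j)

lemma Crit.le_two {p : ℕ → ℝ} {G : ℝ} (h : Crit p G) : G ≤ 2 := by
  have h1 := ((h.one.mul_left 2).sub h.hG).add (h.hD.sub h.hG)
  have h2 : 0 ≤ (2 * 1 - G) + (G - G) := by
    refine h1.nonneg ?_
    intro k
    have hk := h.nn k
    rcases k with _ | _ | k
    · norm_num
      linarith
    · norm_num
      linarith
    · have : (0 : ℝ) ≤ (k : ℝ) := by positivity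
      have h3 : (0 : ℝ) ≤ 2 ^ (k + 1 + 1) := by positivity
      push_cast
      have h4 : 2 * p (k + 1 + 1) - p (k + 1 + 1) * 2 ^ (k + 1 + 1) +
        (((k : ℝ) + 1 + 1) * (p (k + 1 + 1) * 2 ^ (k + 1 + 1)) - p (k + 1 + 1) * 2 ^ (k + 1 + 1))
        = p (k + 1 + 1) * (2 + k * 2 ^ (k + 1 + 1)) := by ring
      rw [h4]
      positivity
  linarith

/-- lower part of the generating sum -/
def S (p : ℕ → ℝ) (K : ℕ) : ℝ := ∑ k ∈ range K, p k * 2 ^ k

lemma Gen.S_le {p : ℕ → ℝ} {G D : ℝ} (h : Gen p G D) (K : ℕ) : S p K ≤ G :=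
  sum_le_hasSum _ (fun k _ => mul_nonneg (h.nn k) (by positivity)) h.hG

lemma Gen.S_nonneg {p : ℕ → ℝ} {G D : ℝ} (h : Gen p G D) (K : ℕ) : 0 ≤ S p K :=
  Finset.sum_nonneg (fun k _ => mul_nonneg (h.nn k) (by positivity))

lemma Gen.tail_le {p : ℕ → ℝ} {G D : ℝ} (h : Gen p G D) (K : ℕ) :
    (K : ℝ) * (G - S p K) ≤ D := by
  have h0 : HasSum (fun k => if k ∈ range K then p k * 2 ^ k else 0) (S p K) := by
    have h5 : HasSum (fun k => if k ∈ range K then p k * 2 ^ k else 0)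
        (∑ k ∈ range K, (if k ∈ range K then p k * 2 ^ k else 0)) :=
      hasSum_sum_of_ne_finset_zero (fun b hb => by simp only [hb, if_false])
    refine hasSum_of_eq h5 (fun k => rfl) ?_
    unfold S
    refine Finset.sum_congr rfl (fun k hk => ?_)
    simp only [hk, if_true]
  have h1 := (h.hD.sub (h.hG.mul_left (K : ℝ))).add (h0.mul_left (K : ℝ))
  have h2 : 0 ≤ D - K * G + K * S p K := by
    refine h1.nonneg ?_
    intro k
    have hk : 0 ≤ p k * 2 ^ k := mul_nonneg (h.nn k) (by positivity)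
    by_cases hkK : k ∈ range K
    · simp only [hkK, if_true]
      have : (0 : ℝ) ≤ k := by positivity
      nlinarith
    · simp only [hkK, if_false]
      have : (K : ℝ) ≤ k := by
        simp at hkK
        exact_mod_cast hkK
      nlinarith
  linarith

lemma S_step {p : ℕ → ℝ} (hp : ∀ k, 0 ≤ p k) (K : ℕ) (hK : 1 ≤ K) :
    S (step p) K ≤ (p 0 ^ 2 + S p (K + 1) ^ 2) / 2 := by
  have e1 : ∀ k, DR.step p k * 2 ^ k
      = (1/2) * (∑ ij ∈ antidiagonal (k + 1), (p ij.1 * 2 ^ ij.1) * (p ij.2 * 2 ^ ij.2))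
        + (if k = 0 then p 0 ^ 2 else 0) := by
    intro k
    have : (∑ ij ∈ antidiagonal (k + 1), (p ij.1 * 2 ^ ij.1) * (p ij.2 * 2 ^ ij.2))
        = 2 ^ (k + 1) * ∑ ij ∈ antidiagonal (k + 1), p ij.1 * p ij.2 := by
      rw [Finset.mul_sum]
      refine Finset.sum_congr rfl ?_
      intro ij hij
      rw [← (mem_antidiagonal.1 hij), pow_add]
      ring
    rw [this]
    unfold DR.step
    split_ifs with hk
    · subst hk; norm_num; ring
    · rw [pow_succ]; ring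
  set c : ℕ → ℝ := fun k => ∑ ij ∈ antidiagonal k, (p ij.1 * 2 ^ ij.1) * (p ij.2 * 2 ^ ij.2) with hc
  have e2 : S (DR.step p) K = (1/2) * ∑ k ∈ range K, c (k + 1) + p 0 ^ 2 := by
    unfold S
    rw [Finset.sum_congr rfl (fun k _ => e1 k), Finset.sum_add_distrib, ← Finset.mul_sum]
    congr 1
    rw [Finset.sum_ite_eq' (range K) 0]
    simp
    omega
  have e3 : ∑ k ∈ range K, c (k + 1) = ∑ k ∈ range (K + 1), c k - p 0 ^ 2 := by
    rw [Finset.sum_range_succ' c K]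
    simp [hc]
    ring
  have e4 : ∑ k ∈ range (K + 1), c k ≤ S p (K + 1) ^ 2 := by
    have : S p (K + 1) ^ 2 = ∑ ij ∈ (range (K + 1)) ×ˢ (range (K + 1)),
        (p ij.1 * 2 ^ ij.1) * (p ij.2 * 2 ^ ij.2) := by
      rw [sq, S, Finset.sum_mul_sum, Finset.sum_product]
    rw [this]
    have h6 : ∑ k ∈ range (K + 1), c k = ∑ x ∈ (range (K + 1)).sigma (fun k => antidiagonal k),
      (p x.2.1 * 2 ^ x.2.1) * (p x.2.2 * 2 ^ x.2.2) := by
      rw [Finset.sum_sigma]
    rw [h6]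
    have hinj : Set.InjOn (fun x : (_ : ℕ) × (ℕ × ℕ) => x.2)
        ((range (K + 1)).sigma (fun k => antidiagonal k) : Finset ((_ : ℕ) × (ℕ × ℕ))) := by
      rintro ⟨k, ij⟩ h1 ⟨l, ij'⟩ h2 h
      simp at h1 h2 h
      subst h
      obtain ⟨_, h1⟩ := h1
      obtain ⟨_, h2⟩ := h2
      subst h1
      subst h2
      rfl
    rw [← Finset.sum_image (f := fun ij : ℕ × ℕ => (p ij.1 * 2 ^ ij.1) * (p ij.2 * 2 ^ ij.2)) hinj]
    refine Finset.sum_le_sum_of_subset_of_nonneg ?_ ?_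
    · intro ij hij
      simp at hij ⊢
      omega
    · intro ij _ _
      have := hp ij.1
      have := hp ij.2
      positivity
  rw [e2, e3]
  linarith

/-- tail recursion -/
lemma Gen.tail_step {p : ℕ → ℝ} {G D : ℝ} (h : Gen p G D) (K : ℕ) (hK : 1 ≤ K) :
    (G - S p (K + 1)) * (G - (G - S p (K + 1)) / 2)
      ≤ (G ^ 2 + p 0 ^ 2) / 2 - S (DR.step p) K := by
  have := S_step h.nn K hK
  nlinarith

lemma lemA (u b : ℕ → ℝ) (hu : ∀ n, 0 ≤ u n) (hb0 : ∀ n, 0 ≤ b n) (hb1 : ∀ n, b n ≤ 1)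
    (N1 : ℕ) (hb : ∀ n : ℕ, N1 ≤ n → (5 / 2) / (n : ℝ) ^ 2 ≤ b n)
    (hrec : ∀ n, u (n + 1) = u n + u n ^ 2 / 2 - b n + b n ^ 2 / 2) :
    ∃ N2 : ℕ, 1 ≤ N2 ∧ ∀ n : ℕ, N2 ≤ n → (4 / 3) / (n : ℝ) ≤ u n := by
  refine ⟨max N1 10, le_trans (by norm_num) (le_max_right _ _), ?_⟩
  intro n0 hn0
  by_contra hcon
  push Not at hcon
  have hn0' : 10 ≤ n0 := le_trans (le_max_right _ _) hn0
  have hN1 : N1 ≤ n0 := le_trans (le_max_left _ _) hn0
  have hn0r : (10 : ℝ) ≤ n0 := by exact_mod_cast hn0'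
  have hinv : ∀ n : ℕ, n0 ≤ n → u n ≤ (3 / 2) / (n : ℝ) - (1 / 6) / n0 := by
    intro n hn
    induction n, hn using Nat.le_induction with
    | base =>
      have : (3 / 2 : ℝ) / (n0 : ℝ) - (1 / 6) / n0 = (4 / 3) / n0 := by
        field_simp; norm_num
      rw [this]
      exact hcon.le
    | succ n hn ih =>
      have hnr : (n0 : ℝ) ≤ n := by exact_mod_cast hn
      have hn10 : (10 : ℝ) ≤ n := by linarith
      have hnpos : (0 : ℝ) < n := by linarith
      have hinvn : 1 / (n : ℝ) ≤ 1 / n0 := one_div_le_one_div_of_le (by linarith) hnr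
      have hle : u n ≤ (4 / 3) / n := by
        have h1 : (3 / 2) / (n : ℝ) - (1 / 6) / n0 ≤ (4 / 3) / n := by
          have e1 : (3 / 2) / (n : ℝ) = (3 / 2) * (1 / n) := by ring
          have e2 : (4 / 3) / (n : ℝ) = (4 / 3) * (1 / n) := by ring
          have e3 : (1 / 6) / (n0 : ℝ) = (1 / 6) * (1 / n0) := by ring
          rw [e1, e2, e3]
          linarith
        linarith
      have hbn := hb n (le_trans hN1 hn)
      have hx : 0 < 1 / (n : ℝ) ^ 2 := by positivity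
      set x := 1 / (n : ℝ) ^ 2 with hxdef
      have hx2 : x ≤ 1 / 100 := by
        rw [hxdef]
        apply one_div_le_one_div_of_le (by norm_num)
        nlinarith
      have hbn' : (5 / 2) * x ≤ b n := by
        have : (5 / 2) / (n : ℝ) ^ 2 = (5 / 2) * x := by rw [hxdef]; ring
        rw [← this]; exact hbn
      have hmono : - b n + b n ^ 2 / 2 ≤ - ((5 / 2) * x) + ((5 / 2) * x) ^ 2 / 2 := by
        nlinarith [hb1 n, hb0 n]
      have hu2 : u n ^ 2 ≤ (16 / 9) * x := by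
        have : u n ^ 2 ≤ ((4 / 3) / n) ^ 2 := by
          apply pow_le_pow_left₀ (hu n) hle
        have e : ((4 / 3) / (n : ℝ)) ^ 2 = (16 / 9) * x := by rw [hxdef]; ring
        linarith
      have hdec : u (n + 1) ≤ u n - (3 / 2) * x := by
        rw [hrec n]
        nlinarith
      have hfin : (3 / 2) / (n : ℝ) - (3 / 2) * x ≤ (3 / 2) / ((n : ℝ) + 1) := by
        rw [hxdef]
        rw [div_sub' (by positivity), div_le_div_iff₀ (by positivity) (by positivity)]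
        have : (n : ℝ) * (1 / (n : ℝ) ^ 2) = 1 / n := by field_simp
        have h3 : (3 / 2 - (n : ℝ) * (3 / 2 * (1 / (n : ℝ) ^ 2))) * ((n : ℝ) + 1)
          = 3 / 2 * (n - 1 / n) := by
          field_simp
          ring
        rw [h3]
        have : 0 < 1 / (n : ℝ) := by positivity
        nlinarith
      push_cast
      linarith
  have h1 := hinv (10 * n0) (by omega)
  have h2 := hu (10 * n0)
  have hpos : (0 : ℝ) < 1 / n0 := by positivity
  have h3 : (3 / 2) / (((10 * n0 : ℕ) : ℝ)) - (1 / 6) / n0 = - (1 / 60) * (1 / n0) := by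
    push_cast
    field_simp
    norm_num
  rw [h3] at h1
  nlinarith

lemma lemB (A : ℕ → ℕ → ℝ) (G : ℕ → ℝ) (N0 : ℕ) (hN0 : 1 ≤ N0)
    (hA0 : ∀ n K, 0 ≤ A n K)
    (hstep : ∀ n K, 1 ≤ K → A n (K + 1) * (G n - A n (K + 1) / 2) ≤ A (n + 1) K)
    (hK : ∀ n K : ℕ, (K : ℝ) * A n K ≤ 2) (hG1 : ∀ n, 1 ≤ G n)
    (hG : ∀ n, N0 ≤ n → 1 + (4 / 3) / (n : ℝ) ≤ G n)
    (hinit : ∀ K : ℕ, 2 ≤ K → 1 / (8 * (K : ℝ) ^ 2) ≤ A 0 K) : False := by
  -- half tail bound
  have hhalf : ∀ n K M : ℕ, 1 ≤ M → M ≤ K → A n K / 2 ≤ 1 / M := by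
    intro n K M hM hMK
    have h1 := hK n K
    have h2 : (M : ℝ) ≤ K := by exact_mod_cast hMK
    have h3 : (1 : ℝ) ≤ M := by exact_mod_cast hM
    have h4 : (M : ℝ) * A n K ≤ 2 := le_trans (mul_le_mul_of_nonneg_right h2 (hA0 n K)) h1
    rw [le_div_iff₀ (by linarith)]
    linarith
  have key : ∀ n : ℕ, N0 ≤ n →
      (1 / 2 : ℝ) ^ N0 * ((n : ℝ) / N0) ^ (9 / 8 : ℝ) * A 0 (13 * n) ≤ A n (12 * n) := by
    intro n hn
    have hn1 : 1 ≤ n := le_trans hN0 hn
    have hA00 := hA0 0 (13 * n)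
    have ph1 : ∀ j, j ≤ N0 → (1 / 2 : ℝ) ^ j * A 0 (13 * n) ≤ A j (13 * n - j) := by
      intro j
      induction j with
      | zero => intro _; simp
      | succ j ih =>
        intro hj
        have ih' := ih (by omega)
        have hs := hstep j (13 * n - (j + 1)) (by omega)
        have e : 13 * n - (j + 1) + 1 = 13 * n - j := by omega
        rw [e] at hs
        have hh := hhalf j (13 * n - j) 2 (by norm_num) (by omega)
        have hg := hG1 j
        have hAj := hA0 j (13 * n - j)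
        rw [pow_succ]
        push_cast at hh
        nlinarith
    have ph2 : ∀ j, N0 ≤ j → j ≤ n →
        (1 / 2 : ℝ) ^ N0 * ((j : ℝ) / N0) ^ (9 / 8 : ℝ) * A 0 (13 * n) ≤ A j (13 * n - j) := by
      intro j hj
      induction j, hj using Nat.le_induction with
      | base =>
        intro _
        have hne : (N0 : ℝ) ≠ 0 := by
          have : (1 : ℝ) ≤ N0 := by exact_mod_cast hN0
          linarith
        rw [div_self hne, Real.one_rpow, mul_one]
        exact ph1 N0 le_rfl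
      | succ j hj ih =>
        intro hjn
        have ih' := ih (by omega)
        have hs := hstep j (13 * n - (j + 1)) (by omega)
        have e : 13 * n - (j + 1) + 1 = 13 * n - j := by omega
        rw [e] at hs
        have hh := hhalf j (13 * n - j) (12 * j) (by omega) (by omega)
        have hg := hG j hj
        have hAj := hA0 j (13 * n - j)
        have hj1 : (1 : ℝ) ≤ j := by exact_mod_cast (le_trans hN0 hj)
        have hN0r : (1 : ℝ) ≤ N0 := by exact_mod_cast hN0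
        have hfac : 1 + (5 / 4) * (1 / (j : ℝ)) ≤ G j - A j (13 * n - j) / 2 := by
          push_cast at hh
          have e1 : 1 / (12 * (j : ℝ)) = (1 / 12) * (1 / j) := by field_simp
          have e2 : 4 / 3 / (j : ℝ) = (4 / 3) * (1 / j) := by ring
          rw [e1] at hh
          rw [e2] at hg
          linarith
        have hbern : (1 + 1 / (j : ℝ)) ^ (9 / 8 : ℝ) ≤ 1 + (5 / 4) * (1 / (j : ℝ)) := by
          have hx0 : 0 < 1 / (j : ℝ) := by positivity
          have hx1 : 1 / (j : ℝ) ≤ 1 := by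
            rw [div_le_one (by linarith)]; exact hj1
          set x := 1 / (j : ℝ)
          have h98 : (9 / 8 : ℝ) = 1 + 1 / 8 := by norm_num
          rw [h98, Real.rpow_add (by linarith), Real.rpow_one]
          have hb := _root_.rpow_one_add_le_one_add_mul_self (s := x) (p := 1 / 8) (by linarith)
            (by norm_num) (by norm_num)
          nlinarith
        have hsplit : (((j + 1 : ℕ) : ℝ) / N0) ^ (9 / 8 : ℝ)
            = ((j : ℝ) / N0) ^ (9 / 8 : ℝ) * (1 + 1 / (j : ℝ)) ^ (9 / 8 : ℝ) := by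
          rw [← Real.mul_rpow (by positivity) (by positivity)]
          congr 1
          push_cast
          field_simp
        rw [hsplit]
        have hw : 0 ≤ (1 / 2 : ℝ) ^ N0 * ((j : ℝ) / N0) ^ (9 / 8 : ℝ) * A 0 (13 * n) := by
          have : 0 ≤ ((j : ℝ) / N0) ^ (9 / 8 : ℝ) := by positivity
          positivity
        calc (1 / 2 : ℝ) ^ N0 * (((j : ℝ) / N0) ^ (9 / 8 : ℝ) * (1 + 1 / (j : ℝ)) ^ (9 / 8 : ℝ))
              * A 0 (13 * n)
            = ((1 / 2 : ℝ) ^ N0 * ((j : ℝ) / N0) ^ (9 / 8 : ℝ) * A 0 (13 * n))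
              * (1 + 1 / (j : ℝ)) ^ (9 / 8 : ℝ) := by ring
          _ ≤ ((1 / 2 : ℝ) ^ N0 * ((j : ℝ) / N0) ^ (9 / 8 : ℝ) * A 0 (13 * n))
              * (G j - A j (13 * n - j) / 2) :=
              mul_le_mul_of_nonneg_left (le_trans hbern hfac) hw
          _ ≤ A j (13 * n - j) * (G j - A j (13 * n - j) / 2) := by
              refine mul_le_mul_of_nonneg_right ih' ?_
              have : 0 < 1 / (j : ℝ) := by positivity
              linarith
          _ ≤ _ := hs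
    have := ph2 n hn le_rfl
    have e : 13 * n - n = 12 * n := by omega
    rw [e] at this
    exact this
  -- derive the contradiction
  have hN0r : (1 : ℝ) ≤ N0 := by exact_mod_cast hN0
  set κ : ℝ := (1 / 2 : ℝ) ^ N0 * (1 / (N0 : ℝ)) ^ (9 / 8 : ℝ) * (12 / (8 * 169)) with hκ
  have hκpos : 0 < κ := by
    have : 0 < (1 / (N0 : ℝ)) ^ (9 / 8 : ℝ) := by positivity
    positivity
  have hbound : ∀ n : ℕ, N0 ≤ n → κ * (n : ℝ) ^ (1 / 8 : ℝ) ≤ 2 := by
    intro n hn
    have hn1 : 1 ≤ n := le_trans hN0 hn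
    have hnr : (1 : ℝ) ≤ n := by exact_mod_cast hn1
    have h1 := key n hn
    have h2 := hinit (13 * n) (by omega)
    have h3 := hK n (12 * n)
    have h4 : (1 / 2 : ℝ) ^ N0 * ((n : ℝ) / N0) ^ (9 / 8 : ℝ) * (1 / (8 * ((13 * n : ℕ) : ℝ) ^ 2))
        ≤ A n (12 * n) := by
      refine le_trans (mul_le_mul_of_nonneg_left h2 ?_) h1
      positivity
    have h5 : κ * (n : ℝ) ^ (1 / 8 : ℝ) = ((12 * n : ℕ) : ℝ) *
        ((1 / 2 : ℝ) ^ N0 * ((n : ℝ) / N0) ^ (9 / 8 : ℝ) * (1 / (8 * ((13 * n : ℕ) : ℝ) ^ 2))) := by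
      rw [hκ]
      have h6 : ((n : ℝ) / N0) ^ (9 / 8 : ℝ) = (n : ℝ) * (n : ℝ) ^ (1 / 8 : ℝ) * (1 / (N0 : ℝ)) ^ (9 / 8 : ℝ) := by
        have : (n : ℝ) / N0 = n * (1 / N0) := by ring
        rw [this, Real.mul_rpow (by positivity) (by positivity)]
        have h98 : (9 / 8 : ℝ) = 1 + 1 / 8 := by norm_num
        congr 1
        rw [h98, Real.rpow_add (by linarith), Real.rpow_one]
      rw [h6]
      push_cast
      field_simp
      ring
    rw [h5]
    refine le_trans (mul_le_mul_of_nonneg_left h4 (by positivity)) h3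
  have htend : Tendsto (fun n : ℕ => κ * (n : ℝ) ^ (1 / 8 : ℝ)) atTop atTop := by
    refine Tendsto.const_mul_atTop hκpos ?_
    exact (tendsto_rpow_atTop (by norm_num)).comp tendsto_natCast_atTop_atTop
  obtain ⟨n, hn1, hn2⟩ := ((htend.eventually_gt_atTop 2).and (eventually_ge_atTop N0)).exists
  linarith [hbound n hn2]


/-- the initial law -/
noncomputable def q (k : ℕ) : ℝ := 1 / (2 ^ (k + 2) * (((k : ℝ) + 1) * ((k : ℝ) + 2) * ((k : ℝ) + 3)))

noncomputable def T : ℝ := ∑' k, q k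

noncomputable def p0 : ℕ → ℝ
  | 0 => 1 / 2
  | 1 => 1 / 2 - T
  | (k + 2) => q k

lemma hasSum_a : HasSum (fun k : ℕ => 1 / (((k : ℝ) + 2) * ((k : ℝ) + 3))) (1 / 2) := by
  rw [hasSum_iff_tendsto_nat_of_nonneg (fun k => by positivity)]
  have h1 : ∀ n : ℕ, ∑ i ∈ range n, 1 / (((i : ℝ) + 2) * ((i : ℝ) + 3)) = 1 / 2 - 1 / ((n : ℝ) + 2) := by
    intro n
    induction n with
    | zero => norm_num
    | succ n ih =>
      rw [sum_range_succ, ih]
      push_cast
      field_simp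
      ring
  simp_rw [h1]
  have h2 : Tendsto (fun n : ℕ => 1 / ((n : ℝ) + 2)) atTop (𝓝 0) := by
    have := tendsto_one_div_add_atTop_nhds_zero_nat (𝕜 := ℝ)
    have h3 := this.comp (tendsto_add_atTop_nat 1)
    refine h3.congr (fun n => ?_)
    simp only [Function.comp]
    push_cast
    congr 1
    ring
  have h4 := h2.const_sub (1 / 2)
  rwa [sub_zero] at h4

lemma hasSum_b : HasSum (fun k : ℕ => 1 / (((k : ℝ) + 1) * ((k : ℝ) + 2) * ((k : ℝ) + 3))) (1 / 4) := by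
  rw [hasSum_iff_tendsto_nat_of_nonneg (fun k => by positivity)]
  have h1 : ∀ n : ℕ, ∑ i ∈ range n, 1 / (((i : ℝ) + 1) * ((i : ℝ) + 2) * ((i : ℝ) + 3))
      = 1 / 4 - (1 / 2) * (1 / ((n : ℝ) + 1)) * (1 / ((n : ℝ) + 2)) := by
    intro n
    induction n with
    | zero => norm_num
    | succ n ih =>
      rw [sum_range_succ, ih]
      push_cast
      field_simp
      ring
  simp_rw [h1]
  have h0 := tendsto_one_div_add_atTop_nhds_zero_nat (𝕜 := ℝ)
  have h2 : Tendsto (fun n : ℕ => 1 / ((n : ℝ) + 2)) atTop (𝓝 0) := by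
    have h3 := h0.comp (tendsto_add_atTop_nat 1)
    refine h3.congr (fun n => ?_)
    simp only [Function.comp]
    push_cast
    congr 1
    ring
  have h4 := ((h0.const_mul (1 / 2)).mul h2).const_sub (1 / 4)
  rwa [mul_zero, sub_zero] at h4

lemma q_nonneg (k : ℕ) : 0 ≤ q k := by unfold q; positivity

lemma q_le (k : ℕ) : q k ≤ (1 / 4) * (1 / (((k : ℝ) + 1) * ((k : ℝ) + 2) * ((k : ℝ) + 3))) := by
  unfold q
  rw [one_div_mul_one_div]
  apply one_div_le_one_div_of_le (by positivity)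
  apply mul_le_mul_of_nonneg_right _ (by positivity)
  have : (1 : ℝ) ≤ 2 ^ k := one_le_pow₀ (by norm_num)
  rw [pow_add]
  linarith

lemma q_summable : Summable q :=
  Summable.of_nonneg_of_le q_nonneg q_le (hasSum_b.summable.mul_left _)

lemma T_le : T ≤ 1 / 16 := by
  have h := hasSum_le q_le q_summable.hasSum (hasSum_b.mul_left (1 / 4))
  unfold T
  linarith

lemma T_nonneg : 0 ≤ T := tsum_nonneg q_nonneg

lemma q_mul (k : ℕ) : q k * 2 ^ (k + 2) = 1 / (((k : ℝ) + 1) * ((k : ℝ) + 2) * ((k : ℝ) + 3)) := by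
  unfold q
  field_simp

lemma hasSum_of_shift2 {f : ℕ → ℝ} {a : ℝ} (h : HasSum (fun k => f (k + 2)) a) :
    HasSum f (a + (f 0 + f 1)) := by
  have := (hasSum_nat_add_iff (f := f) 2 (g := a)).1 h
  simpa [Finset.sum_range_succ] using this

lemma p0_crit : Crit p0 (1 / 2 + 2 * (1 / 2 - T) + 1 / 4) := by
  refine ⟨⟨?_, ?_, ?_, ?_⟩⟩
  · intro k
    rcases k with _ | _ | k
    · norm_num [p0]
    · have := T_le
      show 0 ≤ 1 / 2 - T
      linarith
    · exact q_nonneg k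
  · have h := hasSum_of_shift2 (f := p0) (a := T) q_summable.hasSum
    refine hasSum_of_eq h (fun _ => rfl) ?_
    show (1 : ℝ) = T + (1 / 2 + (1 / 2 - T))
    ring
  · have h := hasSum_of_shift2 (f := fun k => p0 k * 2 ^ k) (a := 1 / 4) (by
      refine hasSum_of_eq hasSum_b (fun k => ?_) rfl
      exact q_mul k)
    refine hasSum_of_eq h (fun _ => rfl) ?_
    show (1 / 2 + 2 * (1 / 2 - T) + 1 / 4 : ℝ) = 1 / 4 + (1 / 2 * 2 ^ 0 + (1 / 2 - T) * 2 ^ 1)
    ring
  · have h := hasSum_of_shift2 (f := fun k : ℕ => (k : ℝ) * (p0 k * 2 ^ k)) (a := 1 / 2 + 1 / 4) (by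
      refine hasSum_of_eq (hasSum_a.add hasSum_b) (fun k => ?_) rfl
      have : p0 (k + 2) = q k := rfl
      simp only [this]
      rw [q_mul]
      push_cast
      field_simp
      ring)
    refine hasSum_of_eq h (fun _ => rfl) ?_
    show (1 / 2 + 2 * (1 / 2 - T) + 1 / 4 : ℝ)
      = 1 / 2 + 1 / 4 + (((0 : ℕ) : ℝ) * (1 / 2 * 2 ^ 0) + ((1 : ℕ) : ℝ) * ((1 / 2 - T) * 2 ^ 1))
    push_cast
    ring

noncomputable def P (n : ℕ) : ℕ → ℝ := step^[n] p0

lemma P_succ (n : ℕ) : P (n + 1) = step (P n) := by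
  unfold P
  rw [Function.iterate_succ_apply']

noncomputable def GG : ℕ → ℝ
  | 0 => 1 / 2 + 2 * (1 / 2 - T) + 1 / 4
  | (n + 1) => (GG n ^ 2 + P n 0 ^ 2) / 2

lemma crit (n : ℕ) : Crit (P n) (GG n) := by
  induction n with
  | zero => exact p0_crit
  | succ n ih =>
    rw [P_succ]
    exact ih.step

lemma init_tail (K : ℕ) (hK : 2 ≤ K) : 1 / (8 * (K : ℝ) ^ 2) ≤ GG 0 - S (P 0) K := by
  have h1 := (crit 0).S_le (2 * K)
  have h2 : S (P 0) (2 * K) - S (P 0) K = ∑ k ∈ Ico K (2 * K), P 0 k * 2 ^ k := by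
    unfold S
    rw [Finset.sum_Ico_eq_sub _ (by omega)]
  have hKr : (2 : ℝ) ≤ K := by exact_mod_cast hK
  have h3 : ∀ k ∈ Ico K (2 * K), 1 / (8 * (K : ℝ) ^ 3) ≤ P 0 k * 2 ^ k := by
    intro k hk
    rw [mem_Ico] at hk
    obtain ⟨j, rfl⟩ : ∃ j, k = j + 2 := ⟨k - 2, by omega⟩
    have e : P 0 (j + 2) * 2 ^ (j + 2) = 1 / (((j : ℝ) + 1) * ((j : ℝ) + 2) * ((j : ℝ) + 3)) := q_mul j
    rw [e]
    apply one_div_le_one_div_of_le (by positivity)
    have hj : (j : ℝ) + 3 ≤ 2 * K := by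
      have : j + 3 ≤ 2 * K := by omega
      exact_mod_cast this
    have hj0 : (0 : ℝ) ≤ j := by positivity
    have e1 : ((j : ℝ) + 1) * ((j : ℝ) + 2) * ((j : ℝ) + 3) ≤ (2 * K) * (2 * K) * (2 * K) := by
      apply mul_le_mul _ hj (by positivity) (by positivity)
      apply mul_le_mul (by linarith) (by linarith) (by positivity) (by positivity)
    calc _ ≤ _ := e1
      _ = _ := by ring
  have h4 := Finset.card_nsmul_le_sum (Ico K (2 * K)) (fun k => P 0 k * 2 ^ k) _ h3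
  have h5 : (Ico K (2 * K)).card = K := by simp; omega
  rw [h5, nsmul_eq_mul] at h4
  have h6 : (K : ℝ) * (1 / (8 * (K : ℝ) ^ 3)) = 1 / (8 * (K : ℝ) ^ 2) := by
    field_simp
  rw [h6, ← h2] at h4
  linarith

theorem no_bound (N1 : ℕ) (hb : ∀ n : ℕ, N1 ≤ n → (5 / 2) / (n : ℝ) ^ 2 ≤ 1 - P n 0) : False := by
  obtain ⟨N2, hN2, hN2'⟩ := lemA (fun n => GG n - 1) (fun n => 1 - P n 0)
    (fun n => by have := (crit n).one_le; linarith)
    (fun n => by have := (crit n).p0_le; linarith)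
    (fun n => by have := (crit n).nn 0; linarith) N1 hb
    (fun n => by
      show (GG n ^ 2 + P n 0 ^ 2) / 2 - 1 = _
      ring)
  refine lemB (fun n K => GG n - S (P n) K) GG N2 hN2 ?_ ?_ ?_ ?_ ?_ init_tail
  · intro n K
    have := (crit n).S_le K
    linarith
  · intro n K hK
    have := (crit n).tail_step K hK
    rw [← P_succ] at this
    exact this
  · intro n K
    exact le_trans ((crit n).tail_le K) (crit n).le_two
  · intro n
    exact (crit n).one_le
  · intro n hn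
    have := hN2' n hn
    linarith

end Pool.Agent.X139.DR
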