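import Mathlib

set_option autoImplicit false

open Filter Topology Set
open scoped ENNReal

namespace Pool.Agent.X139.CMJ

noncomputable section

/-- inter-birth times: `X (u, j)` is the waiting time of individual `u` between its births number `j`
and `j + 1` (births are numbered from `1`, so `j ≥ 0`); individuals are labelled by lists, the
`(i+1)`-st child of `u` being `i :: u`, and the root being `[]`. -/
abbrev Times : Type := List ℕ × ℕ → ℝ≥0∞

/-- birth times -/
def birth (X : Times) : List ℕ → ℝ≥0∞
  | [] => 0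
  | i :: u => birth X u + ∑ j ∈ Finset.range (i + 1), X (u, j)

/-- individuals born up to time `t` -/
def tree (X : Times) (t : ℝ≥0∞) : Set (List ℕ) := {x | birth X x ≤ t}

/-- the explosion time -/
def tau (X : Times) : ℝ≥0∞ := sInf {t | (tree X t).Infinite}

/-- individuals born before explosion -/
def treeInf (X : Times) : Set (List ℕ) := {x | birth X x < tau X}

lemma birth_mono (X : Times) (i : ℕ) (u : List ℕ) : birth X u ≤ birth X (i :: u) := le_self_add

lemma tree_mono (X : Times) {s t : ℝ≥0∞} (h : s ≤ t) : tree X s ⊆ tree X t := fun _ hx => le_trans hx h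

lemma birth_tendsto (X : Times) (u : List ℕ) (hu : ∑' j, X (u, j) = ∞) :
    Tendsto (fun i => birth X (i :: u)) atTop (𝓝 ∞) := by
  have h1 : Tendsto (fun n => ∑ j ∈ Finset.range n, X (u, j)) atTop (𝓝 ∞) := by
    have := ENNReal.tendsto_nat_tsum (fun j => X (u, j))
    rwa [hu] at this
  have h2 := h1.comp (tendsto_add_atTop_nat 1)
  refine tendsto_of_tendsto_of_tendsto_of_le_of_le h2 tendsto_const_nhds ?_ ?_
  · intro i
    exact le_add_self
  · intro i
    exact le_top

lemma children_finite (X : Times) (u : List ℕ) (hu : ∑' j, X (u, j) = ∞) (t : ℝ≥0∞) (ht : t < ∞) :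
    {i : ℕ | birth X (i :: u) ≤ t}.Finite := by
  have h1 := (birth_tendsto X u hu).eventually (lt_mem_nhds ht)
  obtain ⟨n, hn⟩ := eventually_atTop.1 h1
  refine (Set.finite_lt_nat n).subset ?_
  intro i hi
  by_contra hcon
  exact absurd hi (not_le.2 (hn i (not_lt.1 hcon)))

/-- a finite tree does not grow during a short time -/
lemma exists_later (X : Times) (hX : ∀ u, ∑' j, X (u, j) = ∞) (s : ℝ≥0∞) (hs : s < ∞)
    (hfin : (tree X s).Finite) : ∃ t, s < t ∧ tree X t ⊆ tree X s := by
  set W : Set (ℝ≥0∞) := {w | s < w ∧ w ≤ s + 1 ∧ ∃ u ∈ tree X s, ∃ i, w = birth X (i :: u)} with hW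
  have hs1 : s + 1 < ∞ := ENNReal.add_lt_top.2 ⟨hs, ENNReal.one_lt_top⟩
  have hWfin : W.Finite := by
    have h1 : (⋃ u ∈ tree X s, (fun i => birth X (i :: u)) '' {i : ℕ | birth X (i :: u) ≤ s + 1}).Finite :=
      hfin.biUnion fun u _ => (children_finite X u (hX u) _ hs1).image _
    refine h1.subset ?_
    rintro w ⟨_, h3, u, hu, i, rfl⟩
    exact Set.mem_biUnion hu ⟨i, h3, rfl⟩
  have h2 : ∀ᶠ t in 𝓝[>] s, ∀ w ∈ W, t < w := by
    rw [Filter.eventually_all_finite hWfin]
    intro w hw
    exact (mem_nhdsWithin_of_mem_nhds (gt_mem_nhds hw.1))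
  have h3 : ∀ᶠ t in 𝓝[>] s, t < s + 1 :=
    mem_nhdsWithin_of_mem_nhds (gt_mem_nhds (ENNReal.lt_add_right hs.ne one_ne_zero))
  have h4 : ∀ᶠ t in 𝓝[>] s, s < t := eventually_mem_nhdsWithin
  have : (𝓝[>] s).NeBot := by
    refine nhdsGT_neBot_of_exists_gt ⟨∞, hs⟩
  obtain ⟨t, ht1, ht2, ht3⟩ := (h2.and (h3.and h4)).exists
  refine ⟨t, ht3, ?_⟩
  intro v
  induction v with
  | nil => intro _; show (0 : ℝ≥0∞) ≤ s; exact bot_le
  | cons i u ih =>
    intro hv
    have hu : u ∈ tree X s := ih (le_trans (birth_mono X i u) hv)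
    show birth X (i :: u) ≤ s
    by_contra hcon
    rw [not_le] at hcon
    have hv' : birth X (i :: u) ≤ t := hv
    have : birth X (i :: u) ∈ W := ⟨hcon, le_trans hv' ht2.le, u, hu, i, rfl⟩
    exact absurd hv' (not_le.2 (ht1 _ this))

lemma tree_tau_infinite (X : Times) (hX : ∀ u, ∑' j, X (u, j) = ∞) (ht : tau X < ∞) :
    (tree X (tau X)).Infinite := by
  intro hfin
  obtain ⟨t, ht1, ht2⟩ := exists_later X hX _ ht hfin
  have h1 : tau X < t := ht1
  unfold tau at h1
  rw [sInf_lt_iff] at h1
  obtain ⟨r, hr1, hr2⟩ := h1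
  have hr1' : (tree X r).Infinite := hr1
  exact hr1' ((hfin.subset ht2).subset (tree_mono X hr2.le))

/-- deterministic consequences of explosion when every individual has divergent inter-birth times -/
theorem det (X : Times) (hpos : ∀ p, X p ≠ 0) (hX : ∀ u, ∑' j, X (u, j) = ∞) (ht : tau X < ∞) :
    (treeInf X).Infinite ∧ ∀ u, {i : ℕ | i :: u ∈ treeInf X}.Finite := by
  refine ⟨?_, ?_⟩
  · intro hfin
    apply tree_tau_infinite X hX ht
    have h1 : tree X (tau X) ⊆ treeInf X ∪ ({[]} ∪ ((fun v => v) '' {v | v ≠ [] ∧ birth X v = tau X})) := by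
      intro v hv
      rcases lt_or_eq_of_le (show birth X v ≤ tau X from hv) with h | h
      · exact Or.inl h
      · by_cases hv0 : v = []
        · exact Or.inr (Or.inl hv0)
        · exact Or.inr (Or.inr ⟨v, ⟨hv0, h⟩, rfl⟩)
    refine Set.Finite.subset ?_ h1
    refine hfin.union ((Set.finite_singleton _).union (Set.Finite.image _ ?_))
    -- the map to the parent is injective on this set
    refine Set.Finite.of_injOn (f := List.tail) (t := treeInf X) ?_ ?_ hfin
    · rintro v ⟨hv0, hv⟩
      obtain ⟨i, u, rfl⟩ := List.exists_cons_of_ne_nil hv0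
      show birth X u < tau X
      rw [← hv]
      have hfinu : birth X u ≠ ∞ := by
        intro h
        have := birth_mono X i u
        rw [h, hv] at this
        exact absurd ht (not_lt.2 this)
      have h2 : 0 < ∑ j ∈ Finset.range (i + 1), X (u, j) := by
        rw [pos_iff_ne_zero, ne_eq, Finset.sum_eq_zero_iff]
        push Not
        exact ⟨0, by simp, hpos _⟩
      exact ENNReal.lt_add_right hfinu h2.ne'
    · rintro v ⟨hv0, hv⟩ w ⟨hw0, hw⟩ hvw
      obtain ⟨i, u, rfl⟩ := List.exists_cons_of_ne_nil hv0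
      obtain ⟨i', u', rfl⟩ := List.exists_cons_of_ne_nil hw0
      simp only [List.tail_cons] at hvw
      subst hvw
      have key : ∀ a b : ℕ, a < b → birth X (a :: u) = tau X → birth X (b :: u) ≠ tau X := by
        intro a b hab ha hb
        have hsub : ∑ j ∈ Finset.range (a + 1), X (u, j) + X (u, b) ≤ ∑ j ∈ Finset.range (b + 1), X (u, j) := by
          rw [Finset.sum_range_succ (fun j => X (u, j)) b]
          gcongr
          omega
        have h3 : birth X (a :: u) + X (u, b) ≤ birth X (b :: u) := by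
          show birth X u + ∑ j ∈ Finset.range (a + 1), X (u, j) + X (u, b) ≤
            birth X u + ∑ j ∈ Finset.range (b + 1), X (u, j)
          rw [add_assoc]
          gcongr
        rw [ha, hb] at h3
        exact absurd h3 (not_le.2 (ENNReal.lt_add_right ht.ne (hpos _)))
      rcases lt_trichotomy i i' with h | h | h
      · exact absurd hw (key i i' h hv)
      · rw [h]
      · exact absurd hv (key i' i h hw)
  · intro u
    refine (children_finite X u (hX u) _ ht).subset ?_
    intro i hi
    have hi' : birth X (i :: u) < tau X := hi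
    exact hi'.le

end

end Pool.Agent.X139.CMJ
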