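import Pool.Agent.X139.CMJProb

set_option autoImplicit false

open Filter Topology Set MeasureTheory ProbabilityTheory
open scoped ENNReal

namespace Pool.Agent.X139.CMJ

noncomputable section

/-- the law of `2^{-(j+m)}` with `m` geometric -/
def tiny (j : ℕ) : Measure ℝ≥0∞ :=
  Measure.sum (fun m : ℕ => ENNReal.ofReal ((1 / 2 : ℝ) ^ (m + 1)) • Measure.dirac ((2 : ℝ≥0∞)⁻¹ ^ (j + m)))

lemma sum_half : ∑' m : ℕ, ENNReal.ofReal ((1 / 2 : ℝ) ^ (m + 1)) = 1 := by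
  rw [← ENNReal.ofReal_tsum_of_nonneg (fun n => by positivity)]
  · have h1 : ∑' n : ℕ, (1 / 2 : ℝ) ^ (n + 1) = 1 := by
      simp_rw [pow_succ]
      rw [tsum_mul_right, tsum_geometric_of_lt_one (by norm_num) (by norm_num)]
      norm_num
    rw [h1, ENNReal.ofReal_one]
  · simp_rw [pow_succ]
    exact (summable_geometric_of_lt_one (by norm_num) (by norm_num)).mul_right _

lemma tiny_apply (j : ℕ) {A : Set ℝ≥0∞} (hA : MeasurableSet A) :
    tiny j A = ∑' m : ℕ, ENNReal.ofReal ((1 / 2 : ℝ) ^ (m + 1)) * A.indicator 1 ((2 : ℝ≥0∞)⁻¹ ^ (j + m)) := by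
  unfold tiny
  rw [Measure.sum_apply _ hA]
  refine tsum_congr fun m => ?_
  rw [Measure.smul_apply, Measure.dirac_apply' _ hA, smul_eq_mul]

instance (j : ℕ) : IsProbabilityMeasure (tiny j) := by
  refine ⟨?_⟩
  rw [tiny_apply j MeasurableSet.univ]
  simp only [indicator_univ, Pi.one_apply, mul_one]
  exact sum_half

lemma tiny_le (j : ℕ) : tiny j (Iic ((2 : ℝ≥0∞)⁻¹ ^ j)) = 1 := by
  rw [tiny_apply j measurableSet_Iic]
  have : ∀ m : ℕ, (Iic ((2 : ℝ≥0∞)⁻¹ ^ j)).indicator (1 : ℝ≥0∞ → ℝ≥0∞) ((2 : ℝ≥0∞)⁻¹ ^ (j + m)) = 1 := by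
    intro m
    rw [indicator_of_mem]
    · rfl
    · show (2 : ℝ≥0∞)⁻¹ ^ (j + m) ≤ (2 : ℝ≥0∞)⁻¹ ^ j
      exact pow_le_pow_right_of_le_one' (by simp) (by omega)
  simp only [this, mul_one]
  exact sum_half

lemma tiny_le_add (j m : ℕ) : ENNReal.ofReal ((1 / 2 : ℝ) ^ (m + 1)) ≤ tiny j (Iic ((2 : ℝ≥0∞)⁻¹ ^ (j + m))) := by
  rw [tiny_apply j measurableSet_Iic]
  refine le_trans (le_of_eq ?_) (ENNReal.le_tsum m)
  rw [indicator_of_mem (show (2 : ℝ≥0∞)⁻¹ ^ (j + m) ∈ Iic ((2 : ℝ≥0∞)⁻¹ ^ (j + m)) from Set.mem_Iic.2 le_rfl)]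
  simp

lemma tiny_sing (j : ℕ) (a : ℝ≥0∞) (ha : ∀ m : ℕ, (2 : ℝ≥0∞)⁻¹ ^ m ≠ a) : tiny j {a} = 0 := by
  rw [tiny_apply j (measurableSet_singleton a), ENNReal.tsum_eq_zero]
  intro m
  rw [indicator_of_notMem (by simpa using ha (j + m)), mul_zero]

/-- the exceptional positions -/
def NN (k : ℕ) : ℕ := 2 ^ ((k + 5) ^ 2)

lemma NN_mono : StrictMono NN := by
  intro a b h
  exact Nat.pow_lt_pow_right (by norm_num) (Nat.pow_lt_pow_left (by omega) (by norm_num))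

open Classical in
/-- the law of `X(j)`: tiny, except that at the positions `NN k` it equals `1` with probability `1/2` -/
def rho (j : ℕ) : Measure ℝ≥0∞ :=
  if j ∈ Set.range NN then (1 / 2 : ℝ≥0∞) • Measure.dirac 1 + (1 / 2 : ℝ≥0∞) • tiny j else tiny j

lemma half_add : (1 / 2 : ℝ≥0∞) + 1 / 2 = 1 := ENNReal.add_halves 1

instance (j : ℕ) : IsProbabilityMeasure (rho j) := by
  unfold rho
  split_ifs
  · refine ⟨?_⟩
    simp only [Measure.add_apply, Measure.smul_apply, measure_univ, smul_eq_mul, mul_one]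
    exact half_add
  · infer_instance

open Classical in
lemma rho_ge (j : ℕ) (A : Set ℝ≥0∞) : (if j ∈ Set.range NN then (1 / 2 : ℝ≥0∞) else 1) * tiny j A ≤ rho j A := by
  unfold rho
  split_ifs
  · rw [Measure.add_apply, Measure.smul_apply, Measure.smul_apply]
    exact le_add_self
  · simp

lemma rho_sing (j : ℕ) (a : ℝ≥0∞) (h1 : a ≠ 1) (ha : ∀ m : ℕ, (2 : ℝ≥0∞)⁻¹ ^ m ≠ a) : rho j {a} = 0 := by
  unfold rho
  split_ifs
  · rw [Measure.add_apply, Measure.smul_apply, Measure.smul_apply, tiny_sing j a ha,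
      Measure.dirac_apply' _ (measurableSet_singleton a)]
    rw [indicator_of_notMem (by simpa using h1.symm)]
    simp
  · exact tiny_sing j a ha

lemma rho_big (i : ℕ) : (1 / 2 : ℝ≥0∞) ≤ rho (NN i) (Ici 1) := by
  unfold rho
  rw [if_pos ⟨i, rfl⟩, Measure.add_apply, Measure.smul_apply, Measure.dirac_apply' _ measurableSet_Ici,
    indicator_of_mem (show (1 : ℝ≥0∞) ∈ Ici 1 from Set.mem_Ici.2 le_rfl)]
  simp

/-- infinitely many large waiting times -/
lemma divergence (u : List ℕ) : ∀ᵐ X ∂(timesLaw rho), ∑' j, X (u, j) = ∞ := by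
  classical
  have h1 : ∀ m, ∀ᵐ X ∂(timesLaw rho), ∃ i, m ≤ i ∧ 1 ≤ X (u, NN i) := by
    intro m
    have h2 : ∀ n, timesLaw rho {X | ¬ ∃ i, m ≤ i ∧ 1 ≤ X (u, NN i)} ≤ (1 / 2) ^ n := by
      intro n
      set s : Finset (List ℕ × ℕ) := (Finset.range n).image (fun i => (u, NN (m + i))) with hs
      have h3 : {X : Times | ¬ ∃ i, m ≤ i ∧ 1 ≤ X (u, NN i)} ⊆
          Set.pi (s : Set (List ℕ × ℕ)) (fun _ => Iio (1 : ℝ≥0∞)) := by
        intro X hX p hp
        rw [hs] at hp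
        simp only [Finset.coe_image, Finset.coe_range, Set.mem_image, Set.mem_Iio] at hp
        obtain ⟨i, _, rfl⟩ := hp
        show X (u, NN (m + i)) < 1
        by_contra hcon
        exact hX ⟨m + i, by omega, not_lt.1 hcon⟩
      refine le_trans (measure_mono h3) ?_
      unfold timesLaw
      rw [Measure.infinitePi_pi _ (fun p _ => measurableSet_Iio)]
      have hinj : Set.InjOn (fun i => (u, NN (m + i))) (Finset.range n : Set ℕ) := by
        intro a _ b _ hab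
        have := NN_mono.injective (Prod.ext_iff.1 hab).2
        omega
      rw [hs, Finset.prod_image hinj]
      calc ∏ x ∈ Finset.range n, (rho (NN (m + x))) (Iio 1) ≤ ∏ _x ∈ Finset.range n, (1 / 2 : ℝ≥0∞) := by
            refine Finset.prod_le_prod' fun i _ => ?_
            have h4 : (rho (NN (m + i))) (Iio 1) = 1 - (rho (NN (m + i))) (Ici 1) := by
              rw [← prob_compl_eq_one_sub measurableSet_Ici, compl_Ici]
            rw [h4, tsub_le_iff_right]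
            calc (1 : ℝ≥0∞) = 1 / 2 + 1 / 2 := half_add.symm
              _ ≤ _ := by gcongr; exact rho_big _
        _ = (1 / 2) ^ n := by simp
    rw [ae_iff]
    refine le_antisymm ?_ bot_le
    have h4 : Filter.Tendsto (fun n : ℕ => (1 / 2 : ℝ≥0∞) ^ n) Filter.atTop (nhds 0) :=
      ENNReal.tendsto_pow_atTop_nhds_zero_of_lt_one (by simp)
    exact ge_of_tendsto' h4 h2
  have h2 := ae_all_iff.2 h1
  filter_upwards [h2] with X hX
  by_contra hcon
  have h3 := ENNReal.finite_const_le_of_tsum_ne_top hcon (ε := 1) one_ne_zero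
  obtain ⟨B, hB⟩ := h3.bddAbove
  obtain ⟨i, hi1, hi2⟩ := hX (B + 1)
  have h4 : NN i ≤ B := hB hi2
  have h5 : i ≤ NN i := NN_mono.le_apply
  omega

/-- lower bound of the probability of being good -/
def gam (k : ℕ) : ℝ := (1 / 2 : ℝ) ^ ((k + 3) * (k + 2) + k)

lemma ofReal_half_pow (n : ℕ) : ENNReal.ofReal ((1 / 2 : ℝ) ^ n) = (1 / 2 : ℝ≥0∞) ^ n := by
  rw [ENNReal.ofReal_pow (by norm_num)]
  congr 1
  rw [ENNReal.ofReal_div_of_pos (by norm_num)]
  simp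

lemma sum_thr (k n : ℕ) : ∑ j ∈ Finset.range n, (if j < k + 2 then (2 : ℝ≥0∞)⁻¹ ^ (j + (k + 2)) else (2 : ℝ≥0∞)⁻¹ ^ j)
    ≤ (2 : ℝ≥0∞)⁻¹ ^ k := by
  have h1 : ∑ j ∈ Finset.range n, (if j < k + 2 then (2 : ℝ≥0∞)⁻¹ ^ (j + (k + 2)) else (2 : ℝ≥0∞)⁻¹ ^ j)
      ≤ ∑ j ∈ Finset.range ((k + 2) + n), (if j < k + 2 then (2 : ℝ≥0∞)⁻¹ ^ (j + (k + 2)) else (2 : ℝ≥0∞)⁻¹ ^ j) :=
    Finset.sum_le_sum_of_subset (Finset.range_subset_range.2 (by omega))
  refine le_trans h1 ?_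
  rw [Finset.sum_range_add]
  have h2 : ∑ j ∈ Finset.range (k + 2), (if j < k + 2 then (2 : ℝ≥0∞)⁻¹ ^ (j + (k + 2)) else (2 : ℝ≥0∞)⁻¹ ^ j)
      ≤ 2 * (2 : ℝ≥0∞)⁻¹ ^ (k + 2) := by
    calc _ = ∑ j ∈ Finset.range (k + 2), (2 : ℝ≥0∞)⁻¹ ^ (0 + j) * (2 : ℝ≥0∞)⁻¹ ^ (k + 2) := by
          refine Finset.sum_congr rfl fun j hj => ?_
          rw [if_pos (Finset.mem_range.1 hj), pow_add, zero_add]
      _ = (∑ j ∈ Finset.range (k + 2), (2 : ℝ≥0∞)⁻¹ ^ (0 + j)) * (2 : ℝ≥0∞)⁻¹ ^ (k + 2) := by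
          rw [Finset.sum_mul]
      _ ≤ _ := by gcongr; exact geom_bound _
  have h3 : ∑ j ∈ Finset.range n, (if (k + 2) + j < k + 2 then (2 : ℝ≥0∞)⁻¹ ^ ((k + 2) + j + (k + 2)) else (2 : ℝ≥0∞)⁻¹ ^ ((k + 2) + j))
      ≤ 2 * (2 : ℝ≥0∞)⁻¹ ^ (k + 2) := by
    calc _ = ∑ j ∈ Finset.range n, (2 : ℝ≥0∞)⁻¹ ^ (0 + j) * (2 : ℝ≥0∞)⁻¹ ^ (k + 2) := by
          refine Finset.sum_congr rfl fun j hj => ?_
          rw [if_neg (by omega), pow_add, zero_add, mul_comm]
      _ = (∑ j ∈ Finset.range n, (2 : ℝ≥0∞)⁻¹ ^ (0 + j)) * (2 : ℝ≥0∞)⁻¹ ^ (k + 2) := by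
          rw [Finset.sum_mul]
      _ ≤ _ := by gcongr; exact geom_bound _
  refine le_trans (add_le_add h2 h3) (le_of_eq ?_)
  rw [← add_mul, pow_add, mul_comm, mul_assoc]
  have : (2 : ℝ≥0∞)⁻¹ ^ 2 * (2 + 2) = 1 := by
    have h4 : (2 : ℝ≥0∞) + 2 = 2 ^ 2 := by norm_num
    rw [h4, ← mul_pow, ENNReal.inv_mul_cancel (by norm_num) (by norm_num), one_pow]
  rw [this, mul_one]

lemma Gd_prob (k : ℕ) (u : List ℕ) : ENNReal.ofReal (gam k) ≤ timesLaw rho (Gd NN k u) := by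
  classical
  set thr : ℕ → ℝ≥0∞ := fun j => if j < k + 2 then (2 : ℝ≥0∞)⁻¹ ^ (j + (k + 2)) else (2 : ℝ≥0∞)⁻¹ ^ j with hthr
  set s : Finset (List ℕ × ℕ) := (Finset.range (NN k)).image (fun j => (u, j)) with hs
  have h1 : Set.pi (s : Set (List ℕ × ℕ)) (fun p => Iic (thr p.2)) ⊆ Gd NN k u := by
    intro X hX
    show ∑ j ∈ Finset.range (NN k), X (u, j) ≤ (2 : ℝ≥0∞)⁻¹ ^ k
    refine le_trans (Finset.sum_le_sum fun j hj => ?_) (sum_thr k (NN k))
    exact hX (u, j) (by rw [hs]; simpa using Finset.mem_range.1 hj)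
  refine le_trans ?_ (measure_mono h1)
  unfold timesLaw
  rw [Measure.infinitePi_pi _ (fun p _ => measurableSet_Iic)]
  have hinj : Set.InjOn (fun j => (u, j)) (Finset.range (NN k) : Set ℕ) := by
    intro a _ b _ hab
    exact (Prod.ext_iff.1 hab).2
  rw [hs, Finset.prod_image hinj]
  set T : Finset ℕ := (Finset.range k).image NN with hT
  have h2 : ∀ j ∈ Finset.range (NN k), (if j < k + 2 then (1 / 2 : ℝ≥0∞) ^ (k + 3) else 1) *
      (if j ∈ T then (1 / 2 : ℝ≥0∞) else 1) ≤ rho j (Iic (thr j)) := by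
    intro j hj
    refine le_trans ?_ (rho_ge j _)
    rw [mul_comm]
    refine mul_le_mul' ?_ ?_
    · by_cases hjT : j ∈ T
      · rw [if_pos hjT]
        split_ifs
        · exact le_rfl
        · exact ENNReal.half_le_self
      · rw [if_neg hjT, if_neg]
        rintro ⟨i, rfl⟩
        apply hjT
        rw [hT, Finset.mem_image]
        refine ⟨i, ?_, rfl⟩
        rw [Finset.mem_range]
        exact NN_mono.lt_iff_lt.1 (Finset.mem_range.1 hj)
    · rw [hthr]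
      by_cases hjk : j < k + 2
      · simp only [hjk, if_true]
        have := tiny_le_add j (k + 2)
        rwa [ofReal_half_pow] at this
      · simp only [hjk, if_false]
        rw [tiny_le]
  refine le_trans ?_ (Finset.prod_le_prod' h2)
  rw [Finset.prod_mul_distrib]
  have hle1 : (1 / 2 : ℝ≥0∞) ≤ 1 := ENNReal.half_le_self
  have h3 : ((1 / 2 : ℝ≥0∞) ^ (k + 3)) ^ (k + 2) ≤
      ∏ j ∈ Finset.range (NN k), (if j < k + 2 then (1 / 2 : ℝ≥0∞) ^ (k + 3) else 1) := by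
    rw [Finset.prod_ite, Finset.prod_const, Finset.prod_const_one, mul_one]
    refine pow_le_pow_right_of_le_one' (pow_le_one' hle1 _) ?_
    have : (Finset.range (NN k)).filter (fun j => j < k + 2) ⊆ Finset.range (k + 2) := by
      intro j hj
      exact Finset.mem_range.2 (Finset.mem_filter.1 hj).2
    simpa using Finset.card_le_card this
  have h4 : (1 / 2 : ℝ≥0∞) ^ k ≤ ∏ j ∈ Finset.range (NN k), (if j ∈ T then (1 / 2 : ℝ≥0∞) else 1) := by
    rw [Finset.prod_ite, Finset.prod_const, Finset.prod_const_one, mul_one]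
    refine pow_le_pow_right_of_le_one' hle1 ?_
    have : (Finset.range (NN k)).filter (fun j => j ∈ T) ⊆ T := by
      intro j hj
      exact (Finset.mem_filter.1 hj).2
    refine le_trans (Finset.card_le_card this) ?_
    rw [hT]
    exact le_trans Finset.card_image_le (by simp)
  refine le_trans (le_of_eq ?_) (mul_le_mul' h3 h4)
  unfold gam
  rw [ofReal_half_pow, ← pow_mul, ← pow_add]

theorem example_main :
    ∀ᵐ X ∂(timesLaw rho), tau X < ∞ ∧ (treeInf X).Infinite ∧ ∀ u, {i : ℕ | i :: u ∈ treeInf X}.Finite := by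
  refine main NN gam (fun k => by unfold gam; positivity) (fun k => ?_) (fun k => ?_) Gd_prob ?_ ?_ divergence
  · unfold gam
    exact pow_le_one₀ (by norm_num) (by norm_num)
  · unfold gam NN
    push_cast
    have h1 : (k + 1 + 3) * (k + 1 + 2) + (k + 1) + (2 * k + 12) = (k + 5) ^ 2 := by ring
    rw [← h1, pow_add]
    have h2 : (2 : ℝ) ^ ((k + 1 + 3) * (k + 1 + 2) + (k + 1)) * (1 / 2 : ℝ) ^ ((k + 1 + 3) * (k + 1 + 2) + (k + 1)) = 1 := by
      rw [← mul_pow]; norm_num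
    have h3 : (2 : ℝ) ≤ 2 ^ (2 * k + 12) := by
      calc (2 : ℝ) = 2 ^ 1 := by norm_num
        _ ≤ _ := pow_le_pow_right₀ (by norm_num) (by omega)
    calc (2 : ℝ) ≤ 2 ^ (2 * k + 12) := h3
      _ = (2 : ℝ) ^ ((k + 1 + 3) * (k + 1 + 2) + (k + 1)) * (1 / 2 : ℝ) ^ ((k + 1 + 3) * (k + 1 + 2) + (k + 1)) * 2 ^ (2 * k + 12) := by
          rw [h2, one_mul]
      _ = _ := by ring
  · intro j
    refine rho_sing j 0 zero_ne_one fun m => ?_
    exact pow_ne_zero _ (by simp)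
  · intro j
    refine rho_sing j ∞ ENNReal.top_ne_one fun m => ?_
    exact ENNReal.pow_ne_top (by simp)

end

end Pool.Agent.X139.CMJ
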