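import Pool.Agent.X139.CMJDet

set_option autoImplicit false
set_option warn.classDefReducibility false

open Filter Topology Set MeasureTheory ProbabilityTheory
open scoped ENNReal

namespace Pool.Agent.X139.CMJ

noncomputable section

/-- the law of the family of inter-birth times: independent, `X (u, j)` with law `ρ j` -/
def timesLaw (ρ : ℕ → Measure ℝ≥0∞) [∀ j, IsProbabilityMeasure (ρ j)] : Measure Times :=
  Measure.infinitePi (fun p : List ℕ × ℕ => ρ p.2)

variable {ρ : ℕ → Measure ℝ≥0∞} [∀ j, IsProbabilityMeasure (ρ j)]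

instance : IsProbabilityMeasure (timesLaw ρ) := by unfold timesLaw; infer_instance

/-- sigma-algebra generated by one coordinate -/
def coordS (p : List ℕ × ℕ) : MeasurableSpace Times :=
  MeasurableSpace.comap (fun X : Times => X p) inferInstance

/-- sigma-algebra generated by a set of coordinates -/
def sig (J : Set (List ℕ × ℕ)) : MeasurableSpace Times := ⨆ p ∈ J, coordS p

lemma coordS_le (p : List ℕ × ℕ) : coordS p ≤ MeasurableSpace.pi := (measurable_pi_apply p).comap_le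

lemma sig_le (J : Set (List ℕ × ℕ)) : sig J ≤ MeasurableSpace.pi := iSup₂_le fun p _ => coordS_le p

lemma sig_mono {J J' : Set (List ℕ × ℕ)} (h : J ⊆ J') : sig J ≤ sig J' :=
  iSup₂_le fun p hp => le_iSup₂_of_le p (h hp) le_rfl

lemma coord_meas {J : Set (List ℕ × ℕ)} {p : List ℕ × ℕ} (hp : p ∈ J) :
    Measurable[sig J] fun X : Times => X p :=
  Measurable.of_comap_le (le_iSup₂_of_le p hp le_rfl)

lemma indep_mul {J J' : Set (List ℕ × ℕ)} (h : Disjoint J J') {A B : Set Times}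
    (hA : MeasurableSet[sig J] A) (hB : MeasurableSet[sig J'] B) :
    timesLaw ρ (A ∩ B) = timesLaw ρ A * timesLaw ρ B := by
  have h1 : iIndepFun (fun (p : List ℕ × ℕ) (X : Times) => X p) (timesLaw ρ) :=
    iIndepFun_infinitePi (X := fun (_ : List ℕ × ℕ) (x : ℝ≥0∞) => x) fun _ => measurable_id
  rw [iIndepFun_iff_iIndep] at h1
  have h2 : Indep (sig J) (sig J') (timesLaw ρ) := indep_iSup_of_disjoint (fun p => coordS_le p) h1 h
  exact (Indep_iff _ _ _).1 h2 A B hA hB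

/-- `u` has at least `N k` children within time `2^{-k}` -/
def Gd (N : ℕ → ℕ) (k : ℕ) (u : List ℕ) : Set Times :=
  {X | ∑ j ∈ Finset.range (N k), X (u, j) ≤ (2 : ℝ≥0∞)⁻¹ ^ k}

/-- there is a chain of good individuals of length `n` below `u` -/
def Su (N : ℕ → ℕ) : ℕ → ℕ → List ℕ → Set Times
  | 0, k, u => Gd N k u
  | n + 1, k, u => Gd N k u ∩ ⋃ i ∈ Finset.range (N k), Su N n (k + 1) (i :: u)

/-- coordinates of the descendants of `u` -/
def desc (u : List ℕ) : Set (List ℕ × ℕ) := {p | u <:+ p.1}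

lemma Gd_meas (N : ℕ → ℕ) (k : ℕ) (u : List ℕ) : MeasurableSet[sig {p | p.1 = u}] (Gd N k u) := by
  have h : Measurable[sig {p | p.1 = u}] (fun X : Times => ∑ j ∈ Finset.range (N k), X (u, j)) := by
    refine Finset.measurable_fun_sum _ fun j _ => ?_
    exact coord_meas (show ((u, j) : List ℕ × ℕ) ∈ {p : List ℕ × ℕ | p.1 = u} from rfl)
  exact h measurableSet_Iic

lemma Su_meas (N : ℕ → ℕ) (n : ℕ) : ∀ (k : ℕ) (u : List ℕ), MeasurableSet[sig (desc u)] (Su N n k u) := by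
  have h0 : ∀ (k : ℕ) (u : List ℕ), MeasurableSet[sig (desc u)] (Gd N k u) := by
    intro k u
    refine sig_mono ?_ _ (Gd_meas N k u)
    rintro ⟨v, j⟩ hp
    have hv : v = u := hp
    subst hv
    exact List.suffix_rfl
  induction n with
  | zero => exact h0
  | succ n ih =>
    intro k u
    refine MeasurableSet.inter (h0 k u) ?_
    refine Finset.measurableSet_biUnion _ fun i _ => ?_
    refine sig_mono ?_ _ (ih (k + 1) (i :: u))
    intro p hp
    exact (List.suffix_cons i u).trans hp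

lemma Su_anti (N : ℕ → ℕ) (n : ℕ) : ∀ (k : ℕ) (u : List ℕ), Su N (n + 1) k u ⊆ Su N n k u := by
  induction n with
  | zero => intro k u; exact inter_subset_left
  | succ n ih =>
    intro k u
    refine inter_subset_inter_right _ ?_
    exact iUnion₂_mono fun i _ => ih (k + 1) (i :: u)

lemma suffix_disj {u : List ℕ} {i i' : ℕ} (h : i ≠ i') : Disjoint (desc (i :: u)) (desc (i' :: u)) := by
  rw [Set.disjoint_left]
  rintro ⟨v, j⟩ h1 h2
  have h1' : (i :: u) <:+ v := h1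
  have h2' : (i' :: u) <:+ v := h2
  have h3 : (i :: u) = (i' :: u) :=
    List.IsSuffix.eq_of_length (List.suffix_of_suffix_length_le h1' h2' (by simp)) (by simp)
  exact h (List.cons.inj h3).1

/-- a union of independent events -/
lemma union_bound (u : List ℕ) (A : ℕ → Set Times) (hA : ∀ i, MeasurableSet[sig (desc (i :: u))] (A i))
    (x : ℝ) (hx0 : 0 ≤ x) (hx1 : x ≤ 1) (hAx : ∀ i, ENNReal.ofReal x ≤ timesLaw ρ (A i)) (M : ℕ) :
    timesLaw ρ (⋂ i ∈ Finset.range M, (A i)ᶜ) ≤ ENNReal.ofReal ((1 - x) ^ M) := by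
  induction M with
  | zero => simp
  | succ M ih =>
    have h1 : (⋂ i ∈ Finset.range (M + 1), (A i)ᶜ) = (⋂ i ∈ Finset.range M, (A i)ᶜ) ∩ (A M)ᶜ := by
      ext ω
      simp only [mem_iInter, Finset.mem_range, mem_inter_iff]
      constructor
      · intro h
        exact ⟨fun i hi => h i (by omega), h M (by omega)⟩
      · rintro ⟨h2, h3⟩ i hi
        rcases Nat.lt_succ_iff_lt_or_eq.1 hi with h | h
        · exact h2 i h
        · rw [h]; exact h3
    have hm1 : MeasurableSet[sig (⋃ i ∈ Finset.range M, desc (i :: u))] (⋂ i ∈ Finset.range M, (A i)ᶜ) := by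
      refine Finset.measurableSet_biInter _ fun i hi => ?_
      refine (sig_mono ?_ _ (hA i)).compl
      exact subset_biUnion_of_mem (u := fun i => desc (i :: u)) hi
    have hdisj : Disjoint (⋃ i ∈ Finset.range M, desc (i :: u)) (desc (M :: u)) := by
      rw [Set.disjoint_iUnion₂_left]
      intro i hi
      exact suffix_disj (by have := Finset.mem_range.1 hi; omega)
    rw [h1, indep_mul hdisj hm1 (hA M).compl, pow_succ, ENNReal.ofReal_mul (by have := sub_nonneg.2 hx1; positivity)]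
    refine mul_le_mul' ih ?_
    rw [prob_compl_eq_one_sub (sig_le _ _ (hA M))]
    rw [tsub_le_iff_right]
    calc (1 : ℝ≥0∞) = ENNReal.ofReal (1 - x) + ENNReal.ofReal x := by
          rw [← ENNReal.ofReal_add (sub_nonneg.2 hx1) hx0]; simp
      _ ≤ ENNReal.ofReal (1 - x) + timesLaw ρ (A M) := by gcongr; exact hAx M

lemma Su_prob (N : ℕ → ℕ) (γ : ℕ → ℝ) (hγ0 : ∀ k, 0 < γ k) (hγ1 : ∀ k, γ k ≤ 1)
    (hNγ : ∀ k, 2 ≤ (N k : ℝ) * γ (k + 1))
    (hG : ∀ k u, ENNReal.ofReal (γ k) ≤ timesLaw ρ (Gd N k u)) (n : ℕ) :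
    ∀ (k : ℕ) (u : List ℕ), ENNReal.ofReal (γ k / 2) ≤ timesLaw ρ (Su N n k u) := by
  induction n with
  | zero =>
    intro k u
    refine le_trans (ENNReal.ofReal_le_ofReal ?_) (hG k u)
    have := hγ0 k
    linarith
  | succ n ih =>
    intro k u
    have hA : ∀ i, MeasurableSet[sig (desc (i :: u))] (Su N n (k + 1) (i :: u)) :=
      fun i => Su_meas N n (k + 1) (i :: u)
    have h1 := union_bound (ρ := ρ) u (fun i => Su N n (k + 1) (i :: u)) hA (γ (k + 1) / 2)
      (by have := hγ0 (k + 1); linarith) (by have := hγ1 (k + 1); linarith) (fun i => ih (k + 1) (i :: u)) (N k)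
    have h2 : (1 - γ (k + 1) / 2) ^ (N k) ≤ 1 / 2 := by
      have h3 : 1 - γ (k + 1) / 2 ≤ Real.exp (-(γ (k + 1) / 2)) := by
        have := Real.add_one_le_exp (-(γ (k + 1) / 2))
        linarith
      have h4 : 0 ≤ 1 - γ (k + 1) / 2 := by have := hγ1 (k + 1); linarith
      calc (1 - γ (k + 1) / 2) ^ (N k) ≤ Real.exp (-(γ (k + 1) / 2)) ^ (N k) := pow_le_pow_left₀ h4 h3 _
        _ = Real.exp (-(N k * (γ (k + 1) / 2))) := by rw [← Real.exp_nat_mul]; ring_nf
        _ ≤ Real.exp (-1) := Real.exp_le_exp.2 (by have := hNγ k; linarith)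
        _ ≤ 1 / 2 := by
          rw [Real.exp_neg, ← one_div]
          apply one_div_le_one_div_of_le (by norm_num)
          have := Real.add_one_le_exp (1 : ℝ)
          linarith
    have h5 : timesLaw ρ ((⋃ i ∈ Finset.range (N k), Su N n (k + 1) (i :: u))ᶜ) ≤ ENNReal.ofReal (1 / 2) := by
      refine le_trans ?_ (ENNReal.ofReal_le_ofReal h2)
      refine le_trans (le_of_eq ?_) h1
      congr 1
      simp only [compl_iUnion]
    have hUm : MeasurableSet[sig (⋃ i, desc (i :: u))] (⋃ i ∈ Finset.range (N k), Su N n (k + 1) (i :: u)) := by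
      refine Finset.measurableSet_biUnion _ fun i _ => ?_
      exact sig_mono (subset_iUnion (fun i => desc (i :: u)) i) _ (hA i)
    have h6 : ENNReal.ofReal (1 / 2) ≤ timesLaw ρ (⋃ i ∈ Finset.range (N k), Su N n (k + 1) (i :: u)) := by
      have h7 := prob_compl_eq_one_sub (μ := timesLaw ρ) (sig_le _ _ hUm).compl
      rw [compl_compl] at h7
      rw [h7]
      rw [ENNReal.le_sub_iff_add_le_right (measure_ne_top _ _) prob_le_one]
      calc ENNReal.ofReal (1 / 2) + timesLaw ρ ((⋃ i ∈ Finset.range (N k), Su N n (k + 1) (i :: u))ᶜ)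
          ≤ ENNReal.ofReal (1 / 2) + ENNReal.ofReal (1 / 2) := by gcongr
        _ = 1 := by rw [← ENNReal.ofReal_add (by norm_num) (by norm_num)]; norm_num
    have hdisj : Disjoint {p : List ℕ × ℕ | p.1 = u} (⋃ i, desc (i :: u)) := by
      rw [Set.disjoint_iUnion_right]
      intro i
      rw [Set.disjoint_left]
      rintro ⟨v, j⟩ h8 h9
      have h8' : v = u := h8
      have h9' : (i :: u) <:+ v := h9
      rw [h8'] at h9'
      have := h9'.length_le
      simp at this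
    show ENNReal.ofReal (γ k / 2) ≤ timesLaw ρ (Gd N k u ∩ ⋃ i ∈ Finset.range (N k), Su N n (k + 1) (i :: u))
    rw [indep_mul hdisj (Gd_meas N k u) hUm]
    calc ENNReal.ofReal (γ k / 2) = ENNReal.ofReal (γ k) * ENNReal.ofReal (1 / 2) := by
          rw [← ENNReal.ofReal_mul (hγ0 k).le]; congr 1; ring
      _ ≤ _ := mul_le_mul' (hG k u) h6

/-- the chain of good individuals has infinite length -/
def Fi (N : ℕ → ℕ) (u : List ℕ) : Set Times := ⋂ n, Su N n 0 u

lemma Fi_meas (N : ℕ → ℕ) (u : List ℕ) : MeasurableSet[sig (desc u)] (Fi N u) :=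
  MeasurableSet.iInter fun n => Su_meas N n 0 u

lemma Fi_prob (N : ℕ → ℕ) (x : ℝ≥0∞) (u : List ℕ) (h : ∀ n, x ≤ timesLaw ρ (Su N n 0 u)) :
    x ≤ timesLaw ρ (Fi N u) := by
  have hanti : Antitone fun n => Su N n 0 u := antitone_nat_of_succ_le fun n => Su_anti N n 0 u
  have h1 := tendsto_measure_iInter_atTop (μ := timesLaw ρ)
    (fun n => (sig_le _ _ (Su_meas N n 0 u)).nullMeasurableSet) hanti ⟨0, measure_ne_top _ _⟩
  exact ge_of_tendsto' h1 h

/-- almost surely some child of the root starts an infinite chain -/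
lemma ae_exists_Fi (N : ℕ → ℕ) (x : ℝ) (hx0 : 0 < x) (hx1 : x ≤ 1)
    (h : ∀ n u, ENNReal.ofReal x ≤ timesLaw ρ (Su N n 0 u)) :
    ∀ᵐ X ∂(timesLaw ρ), ∃ i : ℕ, X ∈ Fi N [i] := by
  have h1 : ∀ M, timesLaw ρ {X | ¬ ∃ i : ℕ, X ∈ Fi N [i]} ≤ ENNReal.ofReal ((1 - x) ^ M) := by
    intro M
    refine le_trans (measure_mono ?_) (union_bound (ρ := ρ) [] (fun i => Fi N [i]) (fun i => Fi_meas N [i]) x
      hx0.le hx1 (fun i => Fi_prob N _ _ fun n => h n _) M)
    intro X hX
    simp only [mem_iInter]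
    intro i _ hi
    exact hX ⟨i, hi⟩
  rw [ae_iff]
  refine le_antisymm ?_ bot_le
  have h2 : Tendsto (fun M : ℕ => ENNReal.ofReal ((1 - x) ^ M)) atTop (𝓝 0) := by
    have h3 : Tendsto (fun M : ℕ => (1 - x) ^ M) atTop (𝓝 0) :=
      tendsto_pow_atTop_nhds_zero_of_lt_one (by linarith) (by linarith)
    have h4 := (ENNReal.continuous_ofReal.tendsto 0).comp h3
    rw [ENNReal.ofReal_zero] at h4
    exact h4
  exact ge_of_tendsto' h2 h1

/-- a chain gives early-born individuals of high generation -/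
lemma chain (N : ℕ → ℕ) (X : Times) (n : ℕ) : ∀ (k : ℕ) (u : List ℕ), X ∈ Su N n k u →
    ∃ v : List ℕ, v.length = u.length + n ∧
      birth X v ≤ birth X u + ∑ l ∈ Finset.range n, (2 : ℝ≥0∞)⁻¹ ^ (k + l) := by
  induction n with
  | zero => intro k u _; exact ⟨u, rfl, by simp⟩
  | succ n ih =>
    rintro k u ⟨hG, hU⟩
    simp only [mem_iUnion, Finset.mem_range, exists_prop] at hU
    obtain ⟨i, hi, hX⟩ := hU
    obtain ⟨v, hv1, hv2⟩ := ih (k + 1) (i :: u) hX
    refine ⟨v, by rw [hv1, List.length_cons]; omega, le_trans hv2 ?_⟩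
    have h1 : birth X (i :: u) ≤ birth X u + (2 : ℝ≥0∞)⁻¹ ^ k := by
      show birth X u + ∑ j ∈ Finset.range (i + 1), X (u, j) ≤ _
      gcongr
      refine le_trans ?_ hG
      refine Finset.sum_le_sum_of_subset (Finset.range_subset_range.2 (by omega))
    rw [Finset.sum_range_succ']
    calc birth X (i :: u) + ∑ l ∈ Finset.range n, (2 : ℝ≥0∞)⁻¹ ^ (k + 1 + l)
        ≤ birth X u + (2 : ℝ≥0∞)⁻¹ ^ k + ∑ l ∈ Finset.range n, (2 : ℝ≥0∞)⁻¹ ^ (k + 1 + l) := by gcongr
      _ = birth X u + (∑ l ∈ Finset.range n, (2 : ℝ≥0∞)⁻¹ ^ (k + (l + 1)) + (2 : ℝ≥0∞)⁻¹ ^ (k + 0)) := by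
          rw [add_assoc, add_comm ((2 : ℝ≥0∞)⁻¹ ^ k), add_zero]
          congr 2
          refine Finset.sum_congr rfl fun l _ => ?_
          congr 1; ring

lemma geom_bound (n : ℕ) : ∑ l ∈ Finset.range n, (2 : ℝ≥0∞)⁻¹ ^ (0 + l) ≤ 2 := by
  simp only [zero_add]
  refine le_trans (ENNReal.sum_le_tsum _) ?_
  rw [ENNReal.tsum_geometric, ENNReal.one_sub_inv_two, inv_inv]

lemma tau_lt_top (N : ℕ → ℕ) (X : Times) (hfin : ∀ p, X p ≠ ∞) (u : List ℕ) (h : X ∈ Fi N u) :
    tau X < ∞ := by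
  have hb : ∀ v, birth X v < ∞ := by
    intro v
    induction v with
    | nil => exact ENNReal.zero_lt_top
    | cons i v ih =>
      refine ENNReal.add_lt_top.2 ⟨ih, ENNReal.sum_lt_top.2 fun j _ => lt_top_iff_ne_top.2 (hfin _)⟩
  have h1 : (tree X (birth X u + 2)).Infinite := by
    intro hf
    obtain ⟨B, hB⟩ := (hf.image List.length).bddAbove
    have h2 : X ∈ Su N (B + 1) 0 u := (mem_iInter.1 h) (B + 1)
    obtain ⟨v, hv1, hv2⟩ := chain N X (B + 1) 0 u h2
    have h3 : v ∈ tree X (birth X u + 2) := by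
      refine le_trans hv2 ?_
      gcongr
      exact geom_bound _
    have h4 : v.length ≤ B := hB ⟨v, h3, rfl⟩
    omega
  refine lt_of_le_of_lt (sInf_le h1) ?_
  exact ENNReal.add_lt_top.2 ⟨hb u, by simp⟩

/-- abstract form of the counterexample -/
theorem main (N : ℕ → ℕ) (γ : ℕ → ℝ) (hγ0 : ∀ k, 0 < γ k) (hγ1 : ∀ k, γ k ≤ 1)
    (hNγ : ∀ k, 2 ≤ (N k : ℝ) * γ (k + 1))
    (hG : ∀ k u, ENNReal.ofReal (γ k) ≤ timesLaw ρ (Gd N k u))
    (hpos : ∀ j, ρ j {0} = 0) (hfin : ∀ j, ρ j {∞} = 0)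
    (hdiv : ∀ u, ∀ᵐ X ∂(timesLaw ρ), ∑' j, X (u, j) = ∞) :
    ∀ᵐ X ∂(timesLaw ρ), tau X < ∞ ∧ (treeInf X).Infinite ∧ ∀ u, {i : ℕ | i :: u ∈ treeInf X}.Finite := by
  have hae : ∀ (a : ℝ≥0∞), (∀ j, ρ j {a} = 0) → ∀ᵐ X ∂(timesLaw ρ), ∀ p, X p ≠ a := by
    intro a ha
    rw [ae_all_iff]
    intro p
    have h1 : MeasurePreserving (Function.eval p) (timesLaw ρ) (ρ p.2) :=
      measurePreserving_eval_infinitePi (fun p : List ℕ × ℕ => ρ p.2) p
    have h2 : ∀ᵐ x ∂(ρ p.2), x ≠ a := by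
      rw [ae_iff]
      simpa using ha p.2
    exact h1.quasiMeasurePreserving.ae h2
  have hdiv' : ∀ᵐ X ∂(timesLaw ρ), ∀ u, ∑' j, X (u, j) = ∞ := ae_all_iff.2 hdiv
  have hF := ae_exists_Fi (ρ := ρ) N (γ 0 / 2) (by have := hγ0 0; linarith) (by have := hγ1 0; linarith)
    (fun n u => Su_prob N γ hγ0 hγ1 hNγ hG n 0 u)
  filter_upwards [hae 0 hpos, hae ∞ hfin, hdiv', hF] with X h1 h2 h3 h4
  obtain ⟨i, hi⟩ := h4
  have h5 := tau_lt_top N X h2 [i] hi
  exact ⟨h5, (det X h1 h3 h5).1, (det X h1 h3 h5).2⟩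

end

end Pool.Agent.X139.CMJ
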