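import Mathlib

set_option autoImplicit false

open MeasureTheory ProbabilityTheory

namespace Pool.Agent.X139.GW

/-- finite words over the alphabet `Fin K` -/
abbrev Word (K : ℕ) : Type := List (Fin K)

/-- the discrete sigma-algebra on words -/
instance instWordMS (K : ℕ) : MeasurableSpace (Word K) := ⊤

instance instWordDisc (K : ℕ) : DiscreteMeasurableSpace (Word K) := ⟨fun _ => trivial⟩

/-- the discrete sigma-algebra on vertex marks: `none` = the address is not a vertex of the tree,
`some k` = it is a vertex of type `k` -/
instance instMarkMS (K : ℕ) : MeasurableSpace (Option (Fin K)) := ⊤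

instance instMarkDisc (K : ℕ) : DiscreteMeasurableSpace (Option (Fin K)) := ⟨fun _ => trivial⟩

/-- An offspring family: a probability measure on words for each type. -/
abbrev Family (K : ℕ) : Type := Fin K → PMF (Word K)

/-- An environment gives, to each address `u` and each type `j`, the word of children types that the
vertex `u` uses if its type is `j`. -/
abbrev Env (K : ℕ) : Type := List ℕ × Fin K → Word K

/-- independent words, the one at `(u, j)` with law `ζ j`. -/
noncomputable def envLaw {K : ℕ} (ζ : Family K) : Measure (Env K) :=
  Measure.infinitePi (fun p : List ℕ × Fin K => (ζ p.2).toMeasure)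

instance instEnvLaw {K : ℕ} (ζ : Family K) : IsProbabilityMeasure (envLaw ζ) := by
  unfold envLaw; infer_instance

/-- The mark of an address in the tree with root type `i`. An address is the list of the child
positions read from the vertex up to the root, so that `c :: u` is the `c`-th child (counted from 0)
of `u`, and `[]` is the root. -/
def mark {K : ℕ} (i : Fin K) (w : Env K) : List ℕ → Option (Fin K)
  | [] => some i
  | c :: u => (mark i w u).bind (fun j => (w (u, j))[c]?)

/-- typed plane trees, coded by the marks of all addresses -/
abbrev Tree (K : ℕ) : Type := List ℕ → Option (Fin K)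

/-- the law of the `ζ`-BGW tree with root type `i` -/
noncomputable def treeLaw {K : ℕ} (ζ : Family K) (i : Fin K) : Measure (Tree K) :=
  (envLaw ζ).map (fun w => mark i w)

/-- the number of type-`k` vertices, possibly infinite -/
noncomputable def num {K : ℕ} (T : Tree K) (k : Fin K) : ℕ∞ := Set.encard {u | T u = some k}

/-- the event `Γ (N_1, ..., N_K)^T = g` for a single row `Γ` with nonnegative integer entries -/
def ev {K : ℕ} (Γ : Fin K → ℕ) (g : ℝ) : Set (Tree K) :=
  {T | ∃ m : ℕ, ∑ k, (Γ k : ℕ∞) * num T k = (m : ℕ∞) ∧ (m : ℝ) = g}

/-- condition (i): equal supports -/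
def CondI {K : ℕ} (ζ ζ' : Family K) : Prop := ∀ (i : Fin K) (x : Word K), ζ i x = 0 ↔ ζ' i x = 0

/-- condition (ii): whenever the event has positive probability under `ζ`, the conditioned laws agree -/
def CondII {K : ℕ} (Γ : Fin K → ℕ) (ζ ζ' : Family K) : Prop :=
  ∀ (i : Fin K) (g : ℝ), 0 < treeLaw ζ i (ev Γ g) →
    0 < treeLaw ζ' i (ev Γ g) ∧
      (treeLaw ζ i)[|ev Γ g] = (treeLaw ζ' i)[|ev Γ g]

lemma measurable_mark {K : ℕ} (i : Fin K) (u : List ℕ) : Measurable (fun w : Env K => mark i w u) := by
  induction u with
  | nil => exact measurable_const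
  | cons c u ih =>
    have h1 : Measurable (fun w : Env K => (mark i w u, fun j : Fin K => w (u, j))) := by
      refine ih.prodMk ?_
      exact measurable_pi_lambda _ (fun j => measurable_pi_apply _)
    have h2 : Measurable (fun p : Option (Fin K) × (Fin K → Word K) =>
        (p.1.bind (fun j => (p.2 j)[c]?) : Option (Fin K))) := by
      exact Measurable.of_discrete
    exact h2.comp h1

lemma measurable_tree {K : ℕ} (i : Fin K) : Measurable (fun w : Env K => (mark i w : Tree K)) :=
  measurable_pi_lambda _ (fun u => measurable_mark i u)

instance instTreeLaw {K : ℕ} (ζ : Family K) (i : Fin K) : IsProbabilityMeasure (treeLaw ζ i) := by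
  unfold treeLaw
  exact Measure.isProbabilityMeasure_map (measurable_tree i).aemeasurable

end Pool.Agent.X139.GW
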