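import Pool.Agent.X139.GWDef

set_option autoImplicit false

open MeasureTheory ProbabilityTheory

namespace Pool.Agent.X139.GW

/-- the type at depth `n` of an alternating path started from `i` -/
def ty (i : Fin 2) : ℕ → Fin 2
  | 0 => i
  | n + 1 => ty i n + 1

/-- the spine address of depth `n` -/
def sp (n : ℕ) : List ℕ := List.replicate n 0

lemma sp_succ (n : ℕ) : sp (n + 1) = 0 :: sp n := rfl

lemma sp_length (n : ℕ) : (sp n).length = n := List.length_replicate

lemma sp_inj : Function.Injective sp := fun a b h => by
  have := congrArg List.length h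
  simpa [sp_length] using this

/-- the alternating path with `m` vertices started from type `i` -/
def path (i : Fin 2) (m : ℕ) : Tree 2 := fun u =>
  if u = sp u.length ∧ u.length < m then some (ty i u.length) else none

lemma path_sp (i : Fin 2) (m n : ℕ) : path i m (sp n) = if n < m then some (ty i n) else none := by
  unfold path
  rw [sp_length]
  simp

/-- environments which only use the words `[]` and `[j+1]` at type `j` -/
def Good (w : Env 2) : Prop := ∀ (u : List ℕ) (j : Fin 2), w (u, j) = [] ∨ w (u, j) = [j + 1]

lemma mark_good (i : Fin 2) (w : Env 2) (hw : Good w) :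
    ∀ u : List ℕ, mark i w u = none ∨ (u = sp u.length ∧ mark i w u = some (ty i u.length)) := by
  intro u
  induction u with
  | nil => right; exact ⟨rfl, rfl⟩
  | cons c u ih =>
    rcases ih with h | ⟨h1, h2⟩
    · left
      simp [mark, h]
    · rcases hw u (ty i u.length) with h3 | h3
      · left
        simp [mark, h2, h3]
      · rcases Nat.eq_zero_or_pos c with hc | hc
        · subst hc
          right
          refine ⟨?_, ?_⟩
          · rw [List.length_cons, sp_succ, ← h1]
          · simp [mark, h2, h3, ty]
        · left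
          have : ([ty i u.length + 1] : List (Fin 2))[c]? = none := by
            apply List.getElem?_eq_none
            simp
            omega
          simp [mark, h2, h3, this]

lemma mark_down (i : Fin 2) (w : Env 2) (n : ℕ) (h : mark i w (sp (n + 1)) ≠ none) :
    mark i w (sp n) ≠ none := by
  intro h0
  apply h
  rw [sp_succ]
  simp [mark, h0]

lemma mark_down' (i : Fin 2) (w : Env 2) (n m : ℕ) (hnm : n ≤ m) (h : mark i w (sp m) ≠ none) :
    mark i w (sp n) ≠ none := by
  induction m, hnm using Nat.le_induction with
  | base => exact h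
  | succ m hm ih => exact ih (mark_down i w m h)

/-- total size via the two counts -/
lemma num_add (T : Tree 2) : num T 0 + num T 1 = Set.encard {u | T u ≠ none} := by
  unfold num
  rw [← Set.encard_union_eq]
  · congr 1
    ext u
    simp only [Set.mem_union, Set.mem_ofPred_eq]
    constructor
    · rintro (h | h) <;> simp [h]
    · intro h
      obtain ⟨k, hk⟩ := Option.ne_none_iff_exists'.1 h
      rw [hk]
      fin_cases k
      · left; rfl
      · right; rfl
  · rw [Set.disjoint_left]
    intro u h1 h2
    simp only [Set.mem_ofPred_eq] at h1 h2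
    rw [h1] at h2
    simp at h2

/-- trees which are alternating paths (possibly infinite) from `i` -/
def GT (i : Fin 2) (T : Tree 2) : Prop :=
  (∀ u : List ℕ, T u = none ∨ (u = sp u.length ∧ T u = some (ty i u.length))) ∧
    ∀ n : ℕ, T (sp n) = none → T (sp (n + 1)) = none

lemma good_GT (i : Fin 2) (w : Env 2) (hw : Good w) : GT i (mark i w) := by
  refine ⟨mark_good i w hw, ?_⟩
  intro n hn
  by_contra h
  exact mark_down i w n h hn

lemma meas_sing (u : List ℕ) (o : Option (Fin 2)) : MeasurableSet {T : Tree 2 | T u = o} := by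
  have h : Measurable (fun T : Tree 2 => T u) := measurable_pi_apply u
  exact h (measurableSet_singleton o)

lemma measurableSet_GT (i : Fin 2) : MeasurableSet {T : Tree 2 | GT i T} := by
  have h1 : {T : Tree 2 | GT i T} =
      (⋂ u : List ℕ, {T : Tree 2 | T u = none ∨ (u = sp u.length ∧ T u = some (ty i u.length))}) ∩
      (⋂ n : ℕ, {T : Tree 2 | T (sp n) = none → T (sp (n + 1)) = none}) := by
    ext T
    simp [GT]
  rw [h1]
  refine MeasurableSet.inter ?_ ?_
  · refine MeasurableSet.iInter ?_
    intro u
    by_cases h : u = sp u.length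
    · have h2 : {T : Tree 2 | T u = none ∨ (u = sp u.length ∧ T u = some (ty i u.length))}
          = {T : Tree 2 | T u = none} ∪ {T : Tree 2 | T u = some (ty i u.length)} := by
        ext T
        constructor
        · rintro (h3 | h3)
          · exact Or.inl h3
          · exact Or.inr h3.2
        · rintro (h3 | h3)
          · exact Or.inl h3
          · exact Or.inr ⟨h, h3⟩
      rw [h2]
      exact (meas_sing u none).union (meas_sing u _)
    · have h2 : {T : Tree 2 | T u = none ∨ (u = sp u.length ∧ T u = some (ty i u.length))}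
          = {T : Tree 2 | T u = none} := by
        ext T
        constructor
        · rintro (h3 | h3)
          · exact h3
          · exact absurd h3.1 h
        · intro h3
          exact Or.inl h3
      rw [h2]
      exact meas_sing u none
  · refine MeasurableSet.iInter ?_
    intro n
    have : {T : Tree 2 | T (sp n) = none → T (sp (n + 1)) = none}
        = {T : Tree 2 | T (sp n) = none}ᶜ ∪ {T : Tree 2 | T (sp (n + 1)) = none} := by
      ext T
      simp [imp_iff_not_or]
    rw [this]
    exact (meas_sing (sp n) none).compl.union (meas_sing (sp (n + 1)) none)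

lemma GT_down (i : Fin 2) (T : Tree 2) (hT : GT i T) (n m : ℕ) (hnm : n ≤ m) (h : T (sp m) ≠ none) :
    T (sp n) ≠ none := by
  induction m, hnm using Nat.le_induction with
  | base => exact h
  | succ m hm ih => exact ih (fun h0 => h (hT.2 m h0))

lemma good_eq_path (i : Fin 2) (T : Tree 2) (hT : GT i T) (m : ℕ)
    (h : Set.encard {u | T u ≠ none} = m) : T = path i m := by
  set I : Set ℕ := {n | T (sp n) ≠ none} with hI
  have h1 : {u | T u ≠ none} = sp '' I := by
    ext u
    constructor
    · intro hu
      rcases hT.1 u with h2 | ⟨h2, h3⟩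
      · exact absurd h2 hu
      · refine ⟨u.length, ?_, h2.symm⟩
        show T (sp u.length) ≠ none
        rw [← h2]; exact hu
    · rintro ⟨n, hn, rfl⟩
      exact hn
  rw [h1, sp_inj.encard_image] at h
  have h2 : I ⊆ Set.Iio m := by
    intro n hn
    have h3 : (Set.Iic n) ⊆ I := fun k hk => GT_down i T hT k n hk hn
    have h4 : (Set.Iic n).encard ≤ I.encard := Set.encard_le_encard h3
    have h5 : (Set.Iic n).encard = (n + 1 : ℕ) := by
      rw [show Set.Iic n = ((Finset.Iic n : Finset ℕ) : Set ℕ) by simp, Set.encard_coe_eq_coe_finsetCard]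
      simp
    rw [h5, h] at h4
    have : n + 1 ≤ m := by exact_mod_cast h4
    exact this
  have h3 : I = Set.Iio m := by
    refine ((Set.finite_Iio m).subset h2).eq_of_subset_of_encard_le h2 ?_
    rw [h]
    rw [show Set.Iio m = ((Finset.Iio m : Finset ℕ) : Set ℕ) by simp, Set.encard_coe_eq_coe_finsetCard]
    simp
  funext u
  rcases hT.1 u with h4 | ⟨h4, h5⟩
  · rw [h4]
    unfold path
    rw [if_neg]
    rintro ⟨h6, h7⟩
    have h8 : u.length ∈ I := by rw [h3]; exact h7
    have h9 : T (sp u.length) ≠ none := h8
    rw [← h6] at h9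
    exact h9 h4
  · rw [h5]
    unfold path
    rw [if_pos]
    refine ⟨h4, ?_⟩
    have h8 : u.length ∈ I := by
      show T (sp u.length) ≠ none
      rw [← h4, h5]
      simp
    rw [h3] at h8
    exact h8

/-- the row `(1,1)` -/
def oneRow : Fin 2 → ℕ := fun _ => 1

lemma ev_good (i : Fin 2) (T : Tree 2) (hT : GT i T) (g : ℝ) (h : T ∈ ev oneRow g) :
    ∃ m : ℕ, (m : ℝ) = g ∧ T = path i m := by
  obtain ⟨m, hm, hg⟩ := h
  refine ⟨m, hg, good_eq_path i T hT m ?_⟩
  rw [← num_add]
  rw [← hm]
  simp [oneRow, Fin.sum_univ_two]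

/-- families supported on the two short words -/
def Short (ζ : Family 2) : Prop := ∀ j x, ζ j x ≠ 0 → x = [] ∨ x = [j + 1]

lemma ae_good (ζ : Family 2) (h : Short ζ) : ∀ᵐ w ∂(envLaw ζ), Good w := by
  unfold Good
  rw [ae_all_iff]
  intro u
  rw [ae_all_iff]
  intro j
  have h1 : MeasurePreserving (Function.eval (u, j)) (envLaw ζ) ((ζ j).toMeasure) :=
    measurePreserving_eval_infinitePi (fun p : List ℕ × Fin 2 => (ζ p.2).toMeasure) (u, j)
  have h2 : ∀ᵐ x ∂((ζ j).toMeasure), x = [] ∨ x = [j + 1] := by
    rw [ae_iff]
    rw [PMF.toMeasure_apply_eq_zero_iff _ (by exact MeasurableSet.of_discrete)]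
    rw [Set.disjoint_left]
    intro x hx1 hx2
    exact hx2 (h j x (by simpa [PMF.mem_support_iff] using hx1))
  exact h1.quasiMeasurePreserving.ae h2

/-- a measure which lives on one point of `s` conditions to a Dirac mass -/
lemma cond_eq_dirac {α : Type*} [MeasurableSpace α] [MeasurableSingletonClass α] (μ : Measure α)
    [IsProbabilityMeasure μ] (s : Set α) (x : α) (h : ∀ᵐ y ∂μ, y ∈ s → y = x) (hx : x ∈ s)
    (hpos : 0 < μ s) : μ[|s] = Measure.dirac x := by
  have h1 : s =ᵐ[μ] ({x} : Set α) := by
    filter_upwards [h] with y hy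
    apply propext
    constructor
    · intro h2; exact hy h2
    · intro h2
      have : y = x := h2
      rw [this]; exact hx
  have h2 : μ s = μ {x} := measure_congr h1
  unfold ProbabilityTheory.cond
  rw [Measure.restrict_congr_set h1, h2, Measure.restrict_singleton, smul_smul]
  rw [ENNReal.inv_mul_cancel, one_smul]
  · rw [← h2]; exact hpos.ne'
  · exact measure_ne_top _ _

instance instMarkCount : Countable (Option (Fin 2)) := inferInstance

/-- cylinder computation: the path of `m+1` vertices has positive probability -/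
lemma path_pos (ζ : Family 2) (i : Fin 2) (m : ℕ) (h : ∀ j, ζ j [] ≠ 0 ∧ ζ j [j + 1] ≠ 0) :
    0 < treeLaw ζ i {path i (m + 1)} := by
  classical
  unfold treeLaw
  rw [Measure.map_apply (measurable_tree i) (measurableSet_singleton _)]
  set s : Finset (List ℕ × Fin 2) := (Finset.range (m + 1)).image (fun n => (sp n, ty i n)) with hs
  set t : (p : List ℕ × Fin 2) → Set (Word 2) :=
    fun p => if p.1.length < m then {[p.2 + 1]} else {[]} with ht
  have h1 : (Set.pi (s : Set (List ℕ × Fin 2)) t) ⊆ (fun w => (mark i w : Tree 2)) ⁻¹' {path i (m + 1)} := by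
    intro w hw
    have hw' : ∀ n, n < m + 1 → w (sp n, ty i n) = if n < m then [ty i n + 1] else [] := by
      intro n hn
      have h2 := hw (sp n, ty i n) (by
        rw [hs]
        simp only [Finset.coe_image, Finset.coe_range, Set.mem_image, Set.mem_Iio]
        exact ⟨n, hn, rfl⟩)
      rw [ht] at h2
      simp only [sp_length] at h2
      by_cases h3 : n < m
      · simpa [h3] using h2
      · simpa [h3] using h2
    show mark i w = path i (m + 1)
    funext u
    induction u with
    | nil => simp [mark, path, sp, ty]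
    | cons c u ih =>
      by_cases h3 : u = sp u.length ∧ u.length < m + 1
      · have h4 : mark i w u = some (ty i u.length) := by
          rw [ih]; unfold path; rw [if_pos h3]
        have h5 := hw' u.length h3.2
        rw [← h3.1] at h5
        by_cases h6 : u.length < m
        · rw [if_pos h6] at h5
          rcases Nat.eq_zero_or_pos c with hc | hc
          · subst hc
            have h7 : path i (m + 1) (0 :: u) = some (ty i (u.length + 1)) := by
              unfold path
              rw [if_pos]
              · rfl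
              · refine ⟨?_, ?_⟩
                · rw [List.length_cons, sp_succ, ← h3.1]
                · simp; omega
            rw [h7]
            simp [mark, h4, h5, ty]
          · have h7 : path i (m + 1) (c :: u) = none := by
              unfold path
              rw [if_neg]
              rintro ⟨h8, _⟩
              rw [List.length_cons, sp_succ] at h8
              have := (List.cons.inj h8).1
              omega
            rw [h7]
            have h8 : ([ty i u.length + 1] : List (Fin 2))[c]? = none := by
              apply List.getElem?_eq_none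
              simp
              omega
            simp [mark, h4, h5, h8]
        · rw [if_neg h6] at h5
          have h7 : path i (m + 1) (c :: u) = none := by
            unfold path
            rw [if_neg]
            rintro ⟨_, h8⟩
            rw [List.length_cons] at h8
            omega
          rw [h7]
          simp [mark, h4, h5]
      · have h4 : mark i w u = none := by
          rw [ih]; unfold path; rw [if_neg h3]
        have h7 : path i (m + 1) (c :: u) = none := by
          unfold path
          rw [if_neg]
          rintro ⟨h8, h9⟩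
          apply h3
          rw [List.length_cons, sp_succ] at h8
          rw [List.length_cons] at h9
          exact ⟨(List.cons.inj h8).2, by omega⟩
        rw [h7]
        simp [mark, h4]
  refine lt_of_lt_of_le ?_ (measure_mono h1)
  unfold envLaw
  rw [Measure.infinitePi_pi _ (fun p _ => MeasurableSet.of_discrete)]
  rw [pos_iff_ne_zero, Finset.prod_ne_zero_iff]
  intro p _
  rw [ht]
  simp only
  split_ifs
  · rw [PMF.toMeasure_apply_singleton _ _ (MeasurableSet.of_discrete)]
    exact (h p.2).2
  · rw [PMF.toMeasure_apply_singleton _ _ (MeasurableSet.of_discrete)]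
    exact (h p.2).1

lemma tree_ae (ζ : Family 2) (h : Short ζ) (i : Fin 2) : ∀ᵐ T ∂(treeLaw ζ i), GT i T := by
  unfold treeLaw
  rw [ae_map_iff (measurable_tree i).aemeasurable (measurableSet_GT i)]
  filter_upwards [ae_good ζ h] with w hw
  exact good_GT i w hw

/-- the two conditioned laws are the same Dirac mass -/
lemma condII_short (ζ ζ' : Family 2) (h : Short ζ) (h' : Short ζ')
    (hpos : ∀ j, ζ' j [] ≠ 0 ∧ ζ' j [j + 1] ≠ 0) : CondII oneRow ζ ζ' := by
  intro i g hg
  -- there is a point of the event which is an alternating path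
  have h1 : ∃ m : ℕ, (m : ℝ) = g ∧ path i (m + 1 - 1) ∈ ev oneRow g ∧ 1 ≤ m := by
    by_contra hcon
    push Not at hcon
    have h2 : ∀ᵐ T ∂(treeLaw ζ i), T ∉ ev oneRow g := by
      have hroot : ∀ᵐ T ∂(treeLaw ζ i), T [] ≠ none := by
        unfold treeLaw
        rw [ae_map_iff (measurable_tree i).aemeasurable]
        · refine Filter.Eventually.of_forall (fun w => ?_)
          simp [mark]
        · have : MeasurableSet {T : Tree 2 | T [] = none}ᶜ :=
            (meas_sing [] none).compl
          exact this
      filter_upwards [tree_ae ζ h i, hroot] with T hT hr hev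
      obtain ⟨m, hm, hTm⟩ := ev_good i T hT g hev
      have h3 := hcon m hm (by rw [Nat.add_sub_cancel, ← hTm]; exact hev)
      have h4 : m = 0 := by omega
      subst h4
      apply hr
      rw [hTm]
      simp [path]
    have h3 : treeLaw ζ i (ev oneRow g) = 0 := by
      rw [ae_iff] at h2
      simpa using h2
    exact hg.ne' h3
  obtain ⟨m, hm, hmem, hm1⟩ := h1
  rw [Nat.add_sub_cancel] at hmem
  have hae : ∀ ξ : Family 2, Short ξ → ∀ᵐ T ∂(treeLaw ξ i), T ∈ ev oneRow g → T = path i m := by
    intro ξ hξ
    filter_upwards [tree_ae ξ hξ i] with T hT hev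
    obtain ⟨m', hm', hTm⟩ := ev_good i T hT g hev
    have : m' = m := by
      have : (m' : ℝ) = m := by rw [hm', hm]
      exact_mod_cast this
    rw [hTm, this]
  have hpos' : 0 < treeLaw ζ' i (ev oneRow g) := by
    obtain ⟨k, rfl⟩ : ∃ k, m = k + 1 := ⟨m - 1, by omega⟩
    refine lt_of_lt_of_le (path_pos ζ' i k hpos) (measure_mono ?_)
    rw [Set.singleton_subset_iff]
    exact hmem
  refine ⟨hpos', ?_⟩
  rw [cond_eq_dirac (treeLaw ζ i) _ _ (hae ζ h) hmem hg,
    cond_eq_dirac (treeLaw ζ' i) _ _ (hae ζ' h') hmem hpos']

/-- survival to depth `2n` has probability at most `2^{-n}` -/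
lemma alive_le (ζ : Family 2) (h : Short ζ) (h1 : ζ 1 [] = 1 / 2) (i : Fin 2) (n : ℕ) :
    treeLaw ζ i {T | T (sp (2 * n)) ≠ none} ≤ (1 / 2) ^ n := by
  classical
  unfold treeLaw
  have hms : MeasurableSet {T : Tree 2 | T (sp (2 * n)) ≠ none} := (meas_sing (sp (2 * n)) none).compl
  rw [Measure.map_apply (measurable_tree i) hms]
  set s : Finset (List ℕ × Fin 2) := (Finset.range (2 * n)).image (fun n => (sp n, ty i n)) with hs
  set t : (p : List ℕ × Fin 2) → Set (Word 2) := fun _ => {[]}ᶜ with ht
  have h2 : ((fun w => (mark i w : Tree 2)) ⁻¹' {T | T (sp (2 * n)) ≠ none}) ≤ᵐ[envLaw ζ]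
      (Set.pi (s : Set (List ℕ × Fin 2)) t) := by
    filter_upwards [ae_good ζ h] with w hw hw2
    intro p hp
    rw [hs] at hp
    simp only [Finset.coe_image, Finset.coe_range, Set.mem_image, Set.mem_Iio] at hp
    obtain ⟨k, hk, rfl⟩ := hp
    intro h3
    have h4 : mark i w (sp (k + 1)) ≠ none := GT_down i (mark i w) (good_GT i w hw) _ _ (by omega) hw2
    apply h4
    rw [sp_succ]
    rcases mark_good i w hw (sp k) with h5 | ⟨_, h5⟩
    · simp [mark, h5]
    · rw [sp_length] at h5
      have h3' : w (sp k, ty i k) = [] := h3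
      simp [mark, h5, h3']
  refine le_trans (measure_mono_ae h2) ?_
  unfold envLaw
  rw [Measure.infinitePi_pi _ (fun p _ => MeasurableSet.of_discrete)]
  have hinj : Set.InjOn (fun n => (sp n, ty i n)) (Finset.range (2 * n) : Set ℕ) := by
    intro a _ b _ hab
    exact sp_inj (Prod.ext_iff.1 hab).1
  rw [hs, Finset.prod_image hinj]
  have hhalf : (ζ 1).toMeasure ({[]}ᶜ) = 1 / 2 := by
    rw [prob_compl_eq_one_sub (MeasurableSet.of_discrete),
      PMF.toMeasure_apply_singleton _ _ (MeasurableSet.of_discrete), h1]
    simp
  have hone : ∀ j : Fin 2, (ζ j).toMeasure ({[]}ᶜ) ≤ 1 := fun j => prob_le_one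
  have key : ∀ n : ℕ, ∏ k ∈ Finset.range (2 * n), (ζ (ty i k)).toMeasure ({[]}ᶜ) ≤ (1 / 2) ^ n := by
    intro n
    induction n with
    | zero => simp
    | succ n ih =>
      rw [show 2 * (n + 1) = 2 * n + 1 + 1 by ring, Finset.prod_range_succ, Finset.prod_range_succ,
        mul_assoc, pow_succ]
      refine mul_le_mul' ih ?_
      have hty : ty i (2 * n + 1) = ty i (2 * n) + 1 := rfl
      rw [hty]
      rcases Fin.exists_fin_two.1 ⟨ty i (2 * n), rfl⟩ with h3 | h3
      · rw [h3]
        calc _ ≤ 1 * (ζ (0 + 1)).toMeasure ({[]}ᶜ) := mul_le_mul_left (hone _) _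
          _ = 1 / 2 := by rw [one_mul, zero_add, hhalf]
      · rw [h3]
        calc _ ≤ (ζ 1).toMeasure ({[]}ᶜ) * 1 := mul_le_mul_right (hone _) _
          _ = 1 / 2 := by rw [mul_one, hhalf]
  exact key n

lemma finite_ae (ζ : Family 2) (h : Short ζ) (h1 : ζ 1 [] = 1 / 2) (i : Fin 2) :
    ∀ᵐ T ∂(treeLaw ζ i), {u | T u ≠ none}.Finite := by
  have h2 : treeLaw ζ i (⋂ n : ℕ, {T | T (sp (2 * n)) ≠ none}) = 0 := by
    have h3 : ∀ n : ℕ, treeLaw ζ i (⋂ n : ℕ, {T | T (sp (2 * n)) ≠ none}) ≤ (1 / 2) ^ n := by
      intro n
      exact le_trans (measure_mono (Set.iInter_subset _ n)) (alive_le ζ h h1 i n)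
    have h4 : Filter.Tendsto (fun n : ℕ => (1 / 2 : ENNReal) ^ n) Filter.atTop (nhds 0) :=
      ENNReal.tendsto_pow_atTop_nhds_zero_of_lt_one (by simp)
    exact le_antisymm (ge_of_tendsto' h4 h3) bot_le
  have h5 : ∀ᵐ T ∂(treeLaw ζ i), T ∉ (⋂ n : ℕ, {T : Tree 2 | T (sp (2 * n)) ≠ none}) := by
    rw [ae_iff]
    simp only [not_not]
    exact h2
  filter_upwards [tree_ae ζ h i, h5] with T hT hT2
  simp only [Set.mem_iInter, Set.mem_ofPred_eq, not_forall, not_not] at hT2
  obtain ⟨n, hn⟩ := hT2
  refine (Set.Finite.subset ((Set.finite_Iio (2 * n)).image sp) ?_)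
  intro u hu
  rcases hT.1 u with h6 | ⟨h6, h7⟩
  · exact absurd h6 hu
  · refine ⟨u.length, ?_, h6.symm⟩
    by_contra h8
    rw [Set.mem_Iio, not_lt] at h8
    exact GT_down i T hT _ _ h8 (by rw [← h6]; exact hu) hn

end Pool.Agent.X139.GW
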