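import Mathlib

set_option autoImplicit false

open Filter Topology Set

namespace Pool.Agent.X139.MM

variable {E : Type} [MetricSpace E]

/-- `x` is willing to link to `y`: it has fewer than `D x` edges, or an incident edge longer than the
distance from `x` to `y`. -/
def Willing {s : Set E} (D : E → ℕ) (G : SimpleGraph s) (x y : s) : Prop :=
  (G.neighborSet x).encard < (D x : ℕ∞) ∨ ∃ z : s, G.Adj x z ∧ dist x y < dist x z

/-- every vertex `x` has at most `D x` incident edges -/
def IsMultiMatching {s : Set E} (D : E → ℕ) (G : SimpleGraph s) : Prop :=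
  ∀ x : s, (G.neighborSet x).encard ≤ (D x : ℕ∞)

/-- no two distinct non-adjacent vertices are willing to link to each other -/
def IsStable {s : Set E} (D : E → ℕ) (G : SimpleGraph s) : Prop :=
  ∀ x y : s, x ≠ y → ¬ G.Adj x y → ¬ (Willing D G x y ∧ Willing D G y x)

/-- some connected component has infinitely many vertices -/
def HasInfiniteComponent {s : Set E} (G : SimpleGraph s) : Prop :=
  ∃ c : G.ConnectedComponent, c.supp.Infinite

lemma willing_of_big {s : Set E} (D : E → ℕ) (G : SimpleGraph s) (x y : s) (B : Set E) (K : ℕ)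
    (hB : (s ∩ B).encard ≤ (K : ℕ∞)) (hx : K ≤ D x) (hball : ∀ z : s, dist x z ≤ dist x y → (z : E) ∈ B) :
    Willing D G x y := by
  by_contra hcon
  unfold Willing at hcon
  push Not at hcon
  obtain ⟨h1, h2⟩ := hcon
  have hxB : (x : E) ∈ s ∩ B := ⟨x.2, hball x (by rw [dist_self]; exact dist_nonneg)⟩
  have h3 : (Subtype.val '' (G.neighborSet x)) ⊆ (s ∩ B) \ {(x : E)} := by
    rintro _ ⟨z, hz, rfl⟩
    have hz' : G.Adj x z := hz
    refine ⟨⟨z.2, hball z (h2 z hz')⟩, ?_⟩
    intro h
    have : z = x := Subtype.ext h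
    rw [this] at hz'
    exact G.loopless.irrefl x hz'
  have h4 : (G.neighborSet x).encard ≤ ((s ∩ B) \ {(x : E)}).encard := by
    rw [← Subtype.val_injective.encard_image]
    exact encard_le_encard h3
  have h5 := encard_sdiff_singleton_add_one hxB
  have h6 : (D x : ℕ∞) + 1 ≤ (K : ℕ∞) := by
    calc (D x : ℕ∞) + 1 ≤ ((s ∩ B) \ {(x : E)}).encard + 1 := by
          gcongr
          exact h1.trans h4
      _ = (s ∩ B).encard := h5
      _ ≤ K := hB
  have h7 : D x + 1 ≤ K := by exact_mod_cast h6
  omega

/-- at every large scale `n` there is a point in the ball of radius `4^n` whose degree is at least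
`K n`, which is at least the number of points in the ball of radius `4^(n+2)` -/
def Heavy (s : Set E) (D : E → ℕ) (o : E) (K : ℕ → ℕ) : Prop :=
  ∃ N0, ∀ n, N0 ≤ n → (∃ x ∈ s, dist x o ≤ 4 ^ n ∧ K n ≤ D x) ∧
    (s ∩ Metric.closedBall o (4 ^ (n + 2))).encard ≤ (K n : ℕ∞)

lemma Heavy.willing {s : Set E} {D : E → ℕ} {o : E} {K : ℕ → ℕ} (n : ℕ) (G : SimpleGraph s)
    (hc : (s ∩ Metric.closedBall o (4 ^ (n + 2))).encard ≤ (K n : ℕ∞)) (x y : s)
    (hx : dist (x : E) o ≤ 4 ^ (n + 1)) (hKx : K n ≤ D x) (hy : dist (y : E) o ≤ 4 ^ (n + 1)) :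
    Willing D G x y := by
  refine willing_of_big D G x y _ (K n) hc hKx ?_
  intro z hz
  rw [Metric.mem_closedBall]
  have h1 : dist (x : E) y ≤ dist (x : E) o + dist (y : E) o := by
    rw [dist_comm (y : E) o]; exact dist_triangle _ _ _
  have h2 : dist (z : E) o ≤ dist (x : E) z + dist (x : E) o := by
    rw [dist_comm (x : E) z]; exact dist_triangle _ _ _
  have h3 : dist (x : E) z ≤ dist (x : E) y := hz
  have h4 : (4 : ℝ) ^ (n + 2) = 4 * 4 ^ (n + 1) := by ring
  have h5 : (0 : ℝ) < 4 ^ (n + 1) := by positivity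
  linarith

lemma Heavy.exact {s : Set E} {D : E → ℕ} {o : E} {K : ℕ → ℕ} (hK : StrictMono K)
    (h : Heavy s D o K) (G : SimpleGraph s) (hmm : IsMultiMatching D G) (hst : IsStable D G) (x : s) :
    (G.neighborSet x).encard = (D x : ℕ∞) := by
  refine le_antisymm (hmm x) ?_
  by_contra hlt
  rw [not_le] at hlt
  obtain ⟨N0, hN0⟩ := h
  -- the scale of x
  obtain ⟨m, hm⟩ : ∃ m : ℕ, dist (x : E) o ≤ 4 ^ m := by
    obtain ⟨m, hm⟩ := pow_unbounded_of_one_lt (dist (x : E) o) (by norm_num : (1 : ℝ) < 4)
    exact ⟨m, hm.le⟩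
  have hex : ∀ n : ℕ, ∃ z : s, max N0 m ≤ n → (dist (z : E) o ≤ 4 ^ n ∧ K n ≤ D z) := by
    intro n
    by_cases hn : max N0 m ≤ n
    · obtain ⟨⟨z, hz, h1, h2⟩, _⟩ := hN0 n (le_trans (le_max_left _ _) hn)
      exact ⟨⟨z, hz⟩, fun _ => ⟨h1, h2⟩⟩
    · exact ⟨x, fun h => absurd h hn⟩
  choose z hz using hex
  have hadj : ∀ n, max N0 m ≤ n → D x < K n → G.Adj x (z n) := by
    intro n hn hDK
    by_contra hna
    have h1 := hz n hn
    have hne : x ≠ z n := by
      intro he
      rw [← he] at h1
      omega
    refine hst x (z n) hne hna ⟨Or.inl hlt, ?_⟩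
    refine Heavy.willing n G (hN0 n (le_trans (le_max_left _ _) hn)).2 (z n) x ?_ h1.2 ?_
    · refine le_trans h1.1 ?_
      exact pow_le_pow_right₀ (by norm_num) (by omega)
    · refine le_trans hm ?_
      exact pow_le_pow_right₀ (by norm_num) (by have := le_max_right N0 m; omega)
  -- infinitely many neighbours
  have hfin : (G.neighborSet x).Finite := by
    refine Set.finite_of_encard_le_coe (hmm x)
  have hbound : ∃ B : ℕ, ∀ w ∈ G.neighborSet x, D w ≤ B := by
    obtain ⟨B, hB⟩ := (hfin.image (fun w : s => D w)).bddAbove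
    exact ⟨B, fun w hw => hB ⟨w, hw, rfl⟩⟩
  obtain ⟨B, hB⟩ := hbound
  set n := max (max N0 m) (max B (D x) + 1) with hn
  have h1 : max N0 m ≤ n := le_max_left _ _
  have h2 : max B (D x) + 1 ≤ n := le_max_right _ _
  have h3 : n ≤ K n := hK.le_apply
  have h4 : D x < K n := by
    have := le_max_right B (D x)
    omega
  have h5 := hB (z n) (hadj n h1 h4)
  have h6 := (hz n h1).2
  have := le_max_left B (D x)
  omega

lemma Heavy.infinite {s : Set E} {D : E → ℕ} {o : E} {K : ℕ → ℕ} (hK : StrictMono K)
    (h : Heavy s D o K) (G : SimpleGraph s) (hst : IsStable D G) : HasInfiniteComponent G := by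
  obtain ⟨N0, hN0⟩ := h
  have hex : ∀ n : ℕ, ∃ z : s, (dist (z : E) o ≤ 4 ^ (N0 + n) ∧ K (N0 + n) ≤ D z) := by
    intro n
    obtain ⟨⟨z, hz, h1, h2⟩, _⟩ := hN0 (N0 + n) (by omega)
    exact ⟨⟨z, hz⟩, h1, h2⟩
  choose z hz using hex
  have hstep : ∀ n, G.Reachable (z n) (z (n + 1)) := by
    intro n
    by_cases he : z n = z (n + 1)
    · rw [← he]
    · by_cases ha : G.Adj (z n) (z (n + 1))
      · exact ha.reachable
      · exfalso
        refine hst _ _ he ha ⟨?_, ?_⟩
        · refine Heavy.willing (N0 + n) G (hN0 (N0 + n) (by omega)).2 _ _ ?_ (hz n).2 ?_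
          · exact le_trans (hz n).1 (pow_le_pow_right₀ (by norm_num) (by omega))
          · exact (hz (n + 1)).1
        · refine Heavy.willing (N0 + (n + 1)) G (hN0 (N0 + (n + 1)) (by omega)).2 _ _ ?_ (hz (n + 1)).2 ?_
          · exact le_trans (hz (n + 1)).1 (pow_le_pow_right₀ (by norm_num) (by omega))
          · exact le_trans (hz n).1 (pow_le_pow_right₀ (by norm_num) (by omega))
  have hreach : ∀ n, G.Reachable (z 0) (z n) := by
    intro n
    induction n with
    | zero => exact SimpleGraph.Reachable.refl _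
    | succ n ih => exact ih.trans (hstep n)
  refine ⟨G.connectedComponentMk (z 0), ?_⟩
  intro hfin
  obtain ⟨B, hB⟩ := (hfin.image (fun w : s => D w)).bddAbove
  have h1 : z (B + 1) ∈ (G.connectedComponentMk (z 0)).supp := by
    rw [SimpleGraph.ConnectedComponent.mem_supp_iff, SimpleGraph.ConnectedComponent.eq]
    exact (hreach (B + 1)).symm
  have h2 : D (z (B + 1)) ≤ B := hB ⟨z (B + 1), h1, rfl⟩
  have h3 := (hz (B + 1)).2
  have h4 : N0 + (B + 1) ≤ K (N0 + (B + 1)) := hK.le_apply
  omega

/-! ### existence of stable multi-matchings on locally finite sets -/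

/-- `x` is saturated by its edges of length at most the distance to `y` -/
def Sat {s : Set E} (D : E → ℕ) (G : SimpleGraph s) (x y : s) : Prop :=
  (D x : ℕ∞) ≤ {z : s | G.Adj x z ∧ dist x z ≤ dist x y}.encard

lemma Sat.not_willing {s : Set E} {D : E → ℕ} {G : SimpleGraph s} (hmm : IsMultiMatching D G)
    {x y : s} (h : Sat D G x y) : ¬ Willing D G x y := by
  have hsub : {z : s | G.Adj x z ∧ dist x z ≤ dist x y} ⊆ G.neighborSet x := fun z hz => hz.1
  rintro (h1 | ⟨z, hz1, hz2⟩)
  · have h2 := encard_le_encard hsub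
    exact absurd (lt_of_lt_of_le h1 (le_trans h h2)) (lt_irrefl _)
  · have hfin : (G.neighborSet x).Finite := Set.finite_of_encard_le_coe (hmm x)
    have h3 : {z : s | G.Adj x z ∧ dist x z ≤ dist x y} = G.neighborSet x :=
      (hfin.subset hsub).eq_of_subset_of_encard_le hsub (le_trans (hmm x) h)
    have h4 : z ∈ {z : s | G.Adj x z ∧ dist x z ≤ dist x y} := by
      rw [h3]; exact hz1
    exact absurd h4.2 (not_le.2 hz2)

lemma Sat.mono {s : Set E} {D : E → ℕ} {G H : SimpleGraph s} (hGH : G ≤ H) {x y : s}
    (h : Sat D G x y) : Sat D H x y := by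
  refine le_trans h (encard_le_encard ?_)
  rintro z ⟨h1, h2⟩
  exact ⟨hGH h1, h2⟩

/-- invariant of the greedy algorithm along a list of pairs -/
structure Inv {s : Set E} (D : E → ℕ) (l : List (s × s)) (G : SimpleGraph s) : Prop where
  edges : ∀ x y, G.Adj x y → (x, y) ∈ l ∨ (y, x) ∈ l
  deg : IsMultiMatching D G
  stab : ∀ x y, (x, y) ∈ l → x ≠ y → G.Adj x y ∨ Sat D G x y ∨ Sat D G y x

lemma greedy {s : Set E} (D : E → ℕ) (l : List (s × s))
    (hl : l.Pairwise (fun a b => dist b.1 b.2 ≤ dist a.1 a.2)) : ∃ G : SimpleGraph s, Inv D l G := by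
  classical
  induction l with
  | nil =>
    refine ⟨⊥, ⟨fun x y h => by simp at h, fun x => ?_, fun x y h => by simp at h⟩⟩
    have : (⊥ : SimpleGraph s).neighborSet x = ∅ := by ext; simp
    rw [this]; simp
  | cons e l ih =>
    rw [List.pairwise_cons] at hl
    obtain ⟨G, hG⟩ := ih hl.2
    obtain ⟨a, b⟩ := e
    have hlen : ∀ x z, G.Adj x z → dist x z ≤ dist a b := by
      intro x z hxz
      rcases hG.edges x z hxz with h | h
      · exact hl.1 _ h
      · rw [dist_comm]; exact hl.1 _ h
    by_cases hcase : a ≠ b ∧ (G.neighborSet a).encard < (D a : ℕ∞) ∧ (G.neighborSet b).encard < (D b : ℕ∞)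
    · obtain ⟨hab, hda, hdb⟩ := hcase
      have hle : G ≤ G ⊔ SimpleGraph.edge a b := le_sup_left
      refine ⟨G ⊔ SimpleGraph.edge a b, ⟨?_, ?_, ?_⟩⟩
      · intro x y hxy
        rw [SimpleGraph.sup_adj] at hxy
        rcases hxy with h | h
        · rcases hG.edges x y h with h | h
          · exact Or.inl (List.mem_cons_of_mem _ h)
          · exact Or.inr (List.mem_cons_of_mem _ h)
        · rw [SimpleGraph.edge_adj] at h
          rcases h.1 with ⟨rfl, rfl⟩ | ⟨rfl, rfl⟩
          · left; simp
          · right; simp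
      · intro x
        by_cases hxa : x = a
        · subst hxa
          have : (G ⊔ SimpleGraph.edge x b).neighborSet x ⊆ insert b (G.neighborSet x) := by
            intro z hz
            have hz' : (G ⊔ SimpleGraph.edge x b).Adj x z := hz
            rw [SimpleGraph.sup_adj, SimpleGraph.edge_adj] at hz'
            rcases hz' with h | ⟨h | h, _⟩
            · exact Or.inr h
            · exact Or.inl h.2
            · exact absurd h.1 hab
          refine le_trans (encard_le_encard this) (le_trans (encard_insert_le _ _) ?_)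
          exact Order.add_one_le_of_lt hda
        · by_cases hxb : x = b
          · subst hxb
            have : (G ⊔ SimpleGraph.edge a x).neighborSet x ⊆ insert a (G.neighborSet x) := by
              intro z hz
              have hz' : (G ⊔ SimpleGraph.edge a x).Adj x z := hz
              rw [SimpleGraph.sup_adj, SimpleGraph.edge_adj] at hz'
              rcases hz' with h | ⟨h | h, _⟩
              · exact Or.inr h
              · exact absurd h.1 hxa
              · exact Or.inl h.2
            refine le_trans (encard_le_encard this) (le_trans (encard_insert_le _ _) ?_)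
            exact Order.add_one_le_of_lt hdb
          · have : (G ⊔ SimpleGraph.edge a b).neighborSet x ⊆ G.neighborSet x := by
              intro z hz
              have hz' : (G ⊔ SimpleGraph.edge a b).Adj x z := hz
              rw [SimpleGraph.sup_adj, SimpleGraph.edge_adj] at hz'
              rcases hz' with h | ⟨h | h, _⟩
              · exact h
              · exact absurd h.1 hxa
              · exact absurd h.1 hxb
            exact le_trans (encard_le_encard this) (hG.deg x)
      · intro x y hxy hne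
        rw [List.mem_cons] at hxy
        rcases hxy with h | h
        · left
          have h1 : x = a := congrArg Prod.fst h
          have h2 : y = b := congrArg Prod.snd h
          subst h1
          subst h2
          rw [SimpleGraph.sup_adj]
          right
          rw [SimpleGraph.edge_adj]
          exact ⟨Or.inl ⟨rfl, rfl⟩, hne⟩
        · rcases hG.stab x y h hne with h1 | h1 | h1
          · exact Or.inl (hle h1)
          · exact Or.inr (Or.inl (h1.mono hle))
          · exact Or.inr (Or.inr (h1.mono hle))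
    · refine ⟨G, ⟨?_, hG.deg, ?_⟩⟩
      · intro x y h
        rcases hG.edges x y h with h | h
        · exact Or.inl (List.mem_cons_of_mem _ h)
        · exact Or.inr (List.mem_cons_of_mem _ h)
      · intro x y hxy hne
        rw [List.mem_cons] at hxy
        rcases hxy with h | h
        · have h1 : x = a := congrArg Prod.fst h
          have h2 : y = b := congrArg Prod.snd h
          subst h1
          subst h2
          right
          have h3 : ¬ ((G.neighborSet x).encard < (D x : ℕ∞) ∧ (G.neighborSet y).encard < (D y : ℕ∞)) :=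
            fun h => hcase ⟨hne, h⟩
          rw [not_and_or, not_lt, not_lt] at h3
          rcases h3 with h3 | h3
          · left
            unfold Sat
            have : {z : s | G.Adj x z ∧ dist x z ≤ dist x y} = G.neighborSet x := by
              ext z
              exact ⟨fun h => h.1, fun h => ⟨h, hlen x z h⟩⟩
            rw [this]; exact h3
          · right
            unfold Sat
            have : {z : s | G.Adj y z ∧ dist y z ≤ dist y x} = G.neighborSet y := by
              ext z
              exact ⟨fun h => h.1, fun h => ⟨h, by rw [dist_comm y x]; exact hlen y z h⟩⟩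
            rw [this]; exact h3
        · exact hG.stab x y h hne

lemma exists_finite {s : Set E} (D : E → ℕ) (F : Finset s) :
    ∃ G : SimpleGraph s, IsMultiMatching D G ∧
      ∀ x ∈ F, ∀ y ∈ F, x ≠ y → G.Adj x y ∨ Sat D G x y ∨ Sat D G y x := by
  classical
  set r : (s × s) → (s × s) → Prop := fun a b => dist b.1 b.2 ≤ dist a.1 a.2 with hr
  have : Std.Total r := ⟨fun a b => le_total _ _⟩
  have : IsTrans (s × s) r := ⟨fun a b c h1 h2 => le_trans h2 h1⟩
  set l := (F ×ˢ F).toList.insertionSort r with hl
  have hsorted : l.Pairwise r := List.pairwise_insertionSort r _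
  obtain ⟨G, hG⟩ := greedy D l hsorted
  refine ⟨G, hG.deg, ?_⟩
  intro x hx y hy hne
  refine hG.stab x y ?_ hne
  rw [hl, (List.perm_insertionSort r _).mem_iff, Finset.mem_toList, Finset.mem_product]
  exact ⟨hx, hy⟩

/-- On a locally finite set there is always a stable multi-matching. -/
lemma exists_stable {s : Set E} (D : E → ℕ) (hs : ∀ (x : s) (r : ℝ), {z : s | dist x z ≤ r}.Finite) :
    ∃ G : SimpleGraph s, IsMultiMatching D G ∧ IsStable D G := by
  classical
  rcases isEmpty_or_nonempty s with hemp | ⟨⟨o⟩⟩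
  · refine ⟨⊥, fun x => (hemp.false x).elim, fun x => (hemp.false x).elim⟩
  set F : ℕ → Finset s := fun n => (hs o n).toFinset with hF
  choose G hG1 hG2 using fun n => exists_finite D (F n)
  set U : Ultrafilter ℕ := Filter.hyperfilter ℕ with hU
  have hUat : (U : Filter ℕ) ≤ atTop := by
    rw [← Nat.cofinite_eq_atTop]; exact Filter.hyperfilter_le_cofinite
  let H : SimpleGraph s :=
    { Adj := fun x y => ∀ᶠ n in (U : Filter ℕ), (G n).Adj x y
      symm := ⟨fun x y h => h.mono fun n hn => hn.symm⟩
      loopless := ⟨fun x h => by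
        obtain ⟨n, hn⟩ := h.exists
        exact (G n).loopless.irrefl x hn⟩ }
  have hHadj : ∀ x y, H.Adj x y ↔ ∀ᶠ n in (U : Filter ℕ), (G n).Adj x y := fun x y => Iff.rfl
  have hmem : ∀ x : s, ∀ᶠ n in (U : Filter ℕ), x ∈ F n := by
    intro x
    refine hUat ?_
    obtain ⟨m, hm⟩ := exists_nat_ge (dist o x)
    refine Filter.mem_atTop_sets.2 ⟨m, fun n hn => ?_⟩
    show x ∈ F n
    rw [hF]
    simp only [Set.Finite.mem_toFinset]
    refine le_trans hm ?_
    exact_mod_cast hn
  have hmm : IsMultiMatching D H := by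
    intro x
    by_contra hcon
    rw [not_le] at hcon
    have h1 : ((D x + 1 : ℕ) : ℕ∞) ≤ (H.neighborSet x).encard := by
      push_cast
      exact Order.add_one_le_of_lt hcon
    obtain ⟨T, hT1, hT2⟩ := Set.exists_subset_encard_eq h1
    have hTfin : T.Finite := Set.finite_of_encard_eq_coe hT2
    have h2 : ∀ᶠ n in (U : Filter ℕ), ∀ z ∈ T, (G n).Adj x z := by
      rw [Filter.eventually_all_finite hTfin]
      intro z hz
      exact hT1 hz
    obtain ⟨n, hn⟩ := h2.exists
    have h3 : T ⊆ (G n).neighborSet x := fun z hz => hn z hz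
    have h4 := le_trans (encard_le_encard h3) (hG1 n x)
    rw [hT2] at h4
    have h5 : D x + 1 ≤ D x := by exact_mod_cast h4
    omega
  refine ⟨H, hmm, ?_⟩
  intro x y hne hna
  have h1 : ∀ᶠ n in (U : Filter ℕ), ¬ (G n).Adj x y := Ultrafilter.eventually_not.2 hna
  have h2 : ∀ᶠ n in (U : Filter ℕ), Sat D (G n) x y ∨ Sat D (G n) y x := by
    filter_upwards [h1, hmem x, hmem y] with n hn hx hy
    rcases hG2 n x hx y hy hne with h | h
    · exact absurd h hn
    · exact h
  have hlim : ∀ a b : s, (∀ᶠ n in (U : Filter ℕ), Sat D (G n) a b) → Sat D H a b := by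
    intro a b hab
    have hB := hs a (dist a b)
    have h3 : ∀ᶠ n in (U : Filter ℕ), ∀ z ∈ {z : s | dist a z ≤ dist a b}, ((G n).Adj a z → H.Adj a z) := by
      rw [Filter.eventually_all_finite hB]
      intro z _
      by_cases hz : H.Adj a z
      · exact Eventually.of_forall fun n _ => hz
      · have : ∀ᶠ n in (U : Filter ℕ), ¬ (G n).Adj a z := Ultrafilter.eventually_not.2 hz
        filter_upwards [this] with n hn h
        exact absurd h hn
    obtain ⟨n, hn1, hn2⟩ := (hab.and h3).exists
    refine le_trans hn1 (encard_le_encard ?_)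
    rintro z ⟨hz1, hz2⟩
    exact ⟨hn2 z hz2 hz1, hz2⟩
  rcases Ultrafilter.eventually_or.1 h2 with h | h
  · exact fun hw => (hlim x y h).not_willing hmm hw.1
  · exact fun hw => (hlim y x h).not_willing hmm hw.2

end Pool.Agent.X139.MM
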