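import Pool.Agent.X139.MMProb

set_option autoImplicit false

open Filter Topology Set MeasureTheory ProbabilityTheory
open scoped ENNReal

namespace Pool.Agent.X139.MM

noncomputable section

/-- the law on `{4, 16, 64, ...}` giving mass `2^{-j}` to `4^j`, `j ≥ 1` -/
def nu : Measure ℕ :=
  Measure.sum (fun j : ℕ => ENNReal.ofReal ((1 / 2 : ℝ) ^ (j + 1)) • Measure.dirac (4 ^ (j + 1)))

lemma nu_univ : nu Set.univ = 1 := by
  unfold nu
  rw [Measure.sum_apply _ MeasurableSet.univ]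
  simp only [Measure.smul_apply, measure_univ, smul_eq_mul, mul_one]
  rw [← ENNReal.ofReal_tsum_of_nonneg (fun n => by positivity)]
  · have h1 : ∑' n : ℕ, (1 / 2 : ℝ) ^ (n + 1) = 1 := by
      simp_rw [pow_succ]
      rw [tsum_mul_right, tsum_geometric_of_lt_one (by norm_num) (by norm_num)]
      norm_num
    rw [h1, ENNReal.ofReal_one]
  · simp_rw [pow_succ]
    exact (summable_geometric_of_lt_one (by norm_num) (by norm_num)).mul_right _

instance : IsProbabilityMeasure nu := ⟨nu_univ⟩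

lemma nu_lt_two : nu {k | k < 2} = 0 := by
  unfold nu
  rw [Measure.sum_apply _ (MeasurableSet.of_discrete)]
  rw [ENNReal.tsum_eq_zero]
  intro j
  rw [Measure.smul_apply, Measure.dirac_apply' _ (MeasurableSet.of_discrete)]
  have : (4 : ℕ) ^ (j + 1) ∉ {k : ℕ | k < 2} := by
    intro h
    have h' : (4 : ℕ) ^ (j + 1) < 2 := h
    have : 4 ^ 1 ≤ 4 ^ (j + 1) := Nat.pow_le_pow_right (by norm_num) (by omega)
    omega
  rw [Set.indicator_of_notMem this]
  simp

lemma nu_tail (m : ℕ) : ENNReal.ofReal ((1 / 2 : ℝ) ^ (m + 1)) ≤ nu (Set.Ici (4 ^ m)) := by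
  unfold nu
  rw [Measure.sum_apply _ (MeasurableSet.of_discrete)]
  refine le_trans ?_ (ENNReal.le_tsum m)
  rw [Measure.smul_apply, Measure.dirac_apply' _ (MeasurableSet.of_discrete)]
  have : (4 : ℕ) ^ (m + 1) ∈ Set.Ici (4 ^ m) := Nat.pow_le_pow_right (by norm_num) (by omega)
  rw [Set.indicator_of_mem this]
  simp

/-- the mixture `p δ_1 + (1-p) ν` -/
def mix (p : ℝ) (ν : Measure ℕ) : Measure ℕ :=
  ENNReal.ofReal p • Measure.dirac 1 + ENNReal.ofReal (1 - p) • ν

lemma mix_prob (p : ℝ) (h0 : 0 ≤ p) (h1 : p ≤ 1) (ν : Measure ℕ) [IsProbabilityMeasure ν] :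
    IsProbabilityMeasure (mix p ν) := by
  refine ⟨?_⟩
  unfold mix
  simp only [Measure.add_apply, Measure.smul_apply, measure_univ, smul_eq_mul, mul_one]
  rw [← ENNReal.ofReal_add h0 (by linarith)]
  simp

lemma mix_tail (p : ℝ) (h0 : 0 ≤ p) (h1 : p < 1) (m : ℕ) :
    (1 - p) / 2 * (1 / 2 : ℝ) ^ m ≤ ((mix p nu) (Set.Ici (4 ^ m))).toReal := by
  haveI := mix_prob p h0 h1.le nu
  have h2 : ENNReal.ofReal ((1 - p) / 2 * (1 / 2 : ℝ) ^ m) ≤ (mix p nu) (Set.Ici (4 ^ m)) := by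
    unfold mix
    rw [Measure.add_apply, Measure.smul_apply, Measure.smul_apply]
    refine le_trans ?_ le_add_self
    rw [smul_eq_mul]
    refine le_trans (le_of_eq ?_) (mul_le_mul' le_rfl (nu_tail m))
    rw [← ENNReal.ofReal_mul (by linarith)]
    congr 1
    ring
  rwa [ENNReal.ofReal_le_iff_le_toReal (measure_ne_top _ _)] at h2

/-- the percolation statement for the mixtures with `nu` -/
theorem percolation {Ω : Type} [MeasurableSpace Ω] {P : Measure Ω} [IsProbabilityMeasure P]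
    {E : Type} [NormedAddCommGroup E] [NormedSpace ℝ E] [FiniteDimensional ℝ E]
    [MeasurableSpace E] [BorelSpace E] (V : Measure E) [V.IsAddHaarMeasure]
    (hd : 1 ≤ Module.finrank ℝ E) (p : ℝ) (h0 : 0 ≤ p) (h1 : p < 1) {S : Ω → Set E}
    {D : Ω → E → ℕ} (h : IsMarkedPoisson P V (mix p nu) S D) :
    ∀ᵐ ω ∂P, (∃ G : SimpleGraph (S ω), IsMultiMatching (D ω) G ∧ IsStable (D ω) G) ∧
      ∀ G : SimpleGraph (S ω), IsMultiMatching (D ω) G → IsStable (D ω) G →
        (∀ x : S ω, (G.neighborSet x).encard = (D ω x : ℕ∞)) ∧ HasInfiniteComponent G := by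
  haveI := mix_prob p h0 h1.le nu
  obtain ⟨K, hK, hae⟩ := heavy_ae h hd ((1 - p) / 2) (by linarith) (mix_tail p h0 h1)
  filter_upwards [hae] with ω hω
  refine ⟨exists_stable (D ω) (fun x r => hω.locFin x r), fun G hG1 hG2 => ?_⟩
  exact ⟨hω.exact hK G hG1 hG2, hω.infinite hK G hG2⟩

end

end Pool.Agent.X139.MM
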