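import Pool.Agent.X139.MMDet

set_option autoImplicit false
set_option linter.unusedSectionVars false

open Filter Topology Set MeasureTheory ProbabilityTheory
open scoped ENNReal

namespace Pool.Agent.X139.MM

noncomputable section

variable {Ω : Type} [MeasurableSpace Ω]
variable {E : Type} [NormedAddCommGroup E] [NormedSpace ℝ E] [FiniteDimensional ℝ E]
  [MeasurableSpace E] [BorelSpace E]

/-- the number of points of the random set whose position and degree lie in `Q` -/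
def cnt (S : Ω → Set E) (D : Ω → E → ℕ) (Q : Set (E × ℕ)) (ω : Ω) : ℕ∞ :=
  Set.encard {x | x ∈ S ω ∧ (x, D ω x) ∈ Q}

/-- `S` is a Poisson process with intensity measure `V`, and its points carry independent marks `D`
with law `μ`: the marked points form a Poisson process on `E × ℕ` with intensity `V ⊗ μ`. -/
structure IsMarkedPoisson (P : Measure Ω) (V : Measure E) (μ : Measure ℕ) (S : Ω → Set E)
    (D : Ω → E → ℕ) : Prop where
  meas : ∀ Q : Set (E × ℕ), MeasurableSet Q → Measurable (cnt S D Q)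
  law : ∀ Q : Set (E × ℕ), MeasurableSet Q → (V.prod μ) Q ≠ ∞ → ∀ k : ℕ,
    P {ω | cnt S D Q ω = (k : ℕ∞)} =
      ENNReal.ofReal (Real.exp (-((V.prod μ) Q).toReal) * ((V.prod μ) Q).toReal ^ k / k.factorial)
  indep : ∀ (n : ℕ) (Q : Fin n → Set (E × ℕ)), (∀ i, MeasurableSet (Q i)) →
    Pairwise (Function.onFun Disjoint Q) → iIndepFun (fun i => cnt S D (Q i)) P

lemma hasSum_exp (r : ℝ) : HasSum (fun k : ℕ => r ^ k / k.factorial) (Real.exp r) := by
  have := NormedSpace.expSeries_div_hasSum_exp (𝔸 := ℝ) r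
  rwa [← Real.exp_eq_exp_ℝ] at this

/-- exponential tail bound of the Poisson distribution -/
lemma poisson_tail (r : ℝ) (hr : 0 ≤ r) (K : ℕ) (hK : 4 * r ≤ K) :
    1 - (3 / 4 : ℝ) ^ K ≤ ∑ k ∈ Finset.range (K + 1), Real.exp (-r) * r ^ k / k.factorial := by
  have h1 := hasSum_exp r
  have h2 := (hasSum_exp (2 * r)).mul_left ((1 / 2 : ℝ) ^ K)
  have h3 : HasSum (fun k => if k ∈ Finset.range (K + 1) then r ^ k / (k.factorial : ℝ) else 0)
      (∑ k ∈ Finset.range (K + 1), (if k ∈ Finset.range (K + 1) then r ^ k / (k.factorial : ℝ) else 0)) :=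
    hasSum_sum_of_ne_finset_zero (fun b hb => by simp only [hb, if_false])
  have h3' : ∑ k ∈ Finset.range (K + 1), (if k ∈ Finset.range (K + 1) then r ^ k / (k.factorial : ℝ) else 0)
      = ∑ k ∈ Finset.range (K + 1), r ^ k / (k.factorial : ℝ) :=
    Finset.sum_congr rfl (fun k hk => by simp only [hk, if_true])
  rw [h3'] at h3
  have h4 := hasSum_le (fun k => ?_) (h1.sub h3) h2
  · have h5 : ∑ k ∈ Finset.range (K + 1), Real.exp (-r) * r ^ k / k.factorial
        = Real.exp (-r) * ∑ k ∈ Finset.range (K + 1), r ^ k / (k.factorial : ℝ) := by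
      rw [Finset.mul_sum]
      exact Finset.sum_congr rfl (fun k _ => by ring)
    rw [h5]
    have h6 : Real.exp (-r) * Real.exp r = 1 := by rw [← Real.exp_add]; simp
    have h7 : Real.exp (-r) * ((1 / 2 : ℝ) ^ K * Real.exp (2 * r)) ≤ (3 / 4 : ℝ) ^ K := by
      have h8 : Real.exp (-r) * ((1 / 2 : ℝ) ^ K * Real.exp (2 * r)) = (1 / 2 : ℝ) ^ K * Real.exp r := by
        have : Real.exp (2 * r) = Real.exp r * Real.exp r := by rw [← Real.exp_add]; ring_nf
        rw [this]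
        calc Real.exp (-r) * ((1 / 2 : ℝ) ^ K * (Real.exp r * Real.exp r))
            = (1 / 2 : ℝ) ^ K * Real.exp r * (Real.exp (-r) * Real.exp r) := by ring
          _ = _ := by rw [h6, mul_one]
      rw [h8]
      have h9 : Real.exp r ≤ (3 / 2 : ℝ) ^ K := by
        have h10 : Real.exp (1 / 4) ≤ 3 / 2 := by
          have h11 : Real.exp 1 ≤ 2.7182818286 := Real.exp_one_lt_d9.le
          have h12 : Real.exp 1 = Real.exp (1 / 4) ^ 4 := by
            rw [← Real.exp_nat_mul]; norm_num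
          by_contra hcon
          rw [not_le] at hcon
          have h13 : (3 / 2 : ℝ) ^ 4 < Real.exp (1 / 4) ^ 4 :=
            pow_lt_pow_left₀ hcon (by norm_num) (by norm_num)
          rw [← h12] at h13
          norm_num at h13
          linarith
        calc Real.exp r ≤ Real.exp (K * (1 / 4)) := Real.exp_le_exp.2 (by linarith)
          _ = Real.exp (1 / 4) ^ K := by rw [Real.exp_nat_mul]
          _ ≤ (3 / 2) ^ K := pow_le_pow_left₀ (Real.exp_pos _).le h10 _
      calc (1 / 2 : ℝ) ^ K * Real.exp r ≤ (1 / 2 : ℝ) ^ K * (3 / 2) ^ K :=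
            mul_le_mul_of_nonneg_left h9 (by positivity)
        _ = (3 / 4) ^ K := by rw [← mul_pow]; norm_num
    have h14 := mul_le_mul_of_nonneg_left h4 (Real.exp_pos (-r)).le
    rw [mul_sub, h6] at h14
    linarith
  · by_cases hk : k ∈ Finset.range (K + 1)
    · simp only [hk, if_true, sub_self]
      positivity
    · simp only [hk, if_false, sub_zero]
      rw [Finset.mem_range, not_lt] at hk
      have h5 : (1 / 2 : ℝ) ^ K * ((2 * r) ^ k / k.factorial) = ((1 / 2 : ℝ) ^ K * 2 ^ k) * (r ^ k / k.factorial) := by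
        rw [mul_pow]; ring
      rw [h5]
      have h6 : (1 : ℝ) ≤ (1 / 2 : ℝ) ^ K * 2 ^ k := by
        obtain ⟨j, rfl⟩ : ∃ j, k = K + j := ⟨k - K, by omega⟩
        rw [pow_add, ← mul_assoc, ← mul_pow]
        norm_num
        exact one_le_pow₀ (by norm_num)
      have h7 : 0 ≤ r ^ k / (k.factorial : ℝ) := by positivity
      nlinarith

variable {P : Measure Ω} [IsProbabilityMeasure P] {V : Measure E} {μ : Measure ℕ} {S : Ω → Set E}
  {D : Ω → E → ℕ}

lemma IsMarkedPoisson.many (h : IsMarkedPoisson P V μ S D) (Q : Set (E × ℕ)) (hQ : MeasurableSet Q)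
    (hfin : (V.prod μ) Q ≠ ∞) (K : ℕ) (hK : 4 * ((V.prod μ) Q).toReal ≤ K) :
    P {ω | ¬ cnt S D Q ω ≤ (K : ℕ∞)} ≤ ENNReal.ofReal ((3 / 4 : ℝ) ^ K) := by
  have hm : MeasurableSet {ω | cnt S D Q ω ≤ (K : ℕ∞)} :=
    (h.meas Q hQ) (MeasurableSet.of_discrete (s := Set.Iic (K : ℕ∞)))
  have h1 : {ω | cnt S D Q ω ≤ (K : ℕ∞)} = ⋃ k ∈ Finset.range (K + 1), {ω | cnt S D Q ω = (k : ℕ∞)} := by
    ext ω
    simp only [mem_iUnion, Finset.mem_range, exists_prop]
    constructor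
    · intro hω
      have hω' : cnt S D Q ω ≤ (K : ℕ∞) := hω
      obtain ⟨k, hk⟩ : ∃ k : ℕ, cnt S D Q ω = k := ENat.ne_top_iff_exists.1 (ne_top_of_le_ne_top (ENat.natCast_ne_top K) hω') |>.imp fun k hk => hk.symm
      refine ⟨k, ?_, hk⟩
      rw [hk] at hω'
      have : k ≤ K := by exact_mod_cast hω'
      omega
    · rintro ⟨k, hk, hω⟩
      have hω' : cnt S D Q ω = (k : ℕ∞) := hω
      show cnt S D Q ω ≤ (K : ℕ∞)
      rw [hω']
      exact_mod_cast (by omega : k ≤ K)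
  have h2 : P {ω | cnt S D Q ω ≤ (K : ℕ∞)} = ∑ k ∈ Finset.range (K + 1), P {ω | cnt S D Q ω = (k : ℕ∞)} := by
    rw [h1, measure_biUnion_finset]
    · intro i _ j _ hij
      rw [Function.onFun, Set.disjoint_left]
      intro ω h3 h4
      have h3' : cnt S D Q ω = (i : ℕ∞) := h3
      have h4' : cnt S D Q ω = (j : ℕ∞) := h4
      rw [h3'] at h4'
      exact hij (by exact_mod_cast h4')
    · intro k _
      exact (h.meas Q hQ) (MeasurableSet.of_discrete (s := {(k : ℕ∞)}))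
  set r := ((V.prod μ) Q).toReal with hr
  have hr0 : 0 ≤ r := ENNReal.toReal_nonneg
  have h3 : P {ω | cnt S D Q ω ≤ (K : ℕ∞)}
      = ENNReal.ofReal (∑ k ∈ Finset.range (K + 1), Real.exp (-r) * r ^ k / k.factorial) := by
    rw [h2, ENNReal.ofReal_sum_of_nonneg (fun k _ => by positivity)]
    exact Finset.sum_congr rfl (fun k _ => h.law Q hQ hfin k)
  have h4 : {ω | ¬ cnt S D Q ω ≤ (K : ℕ∞)} = {ω | cnt S D Q ω ≤ (K : ℕ∞)}ᶜ := rfl
  rw [h4, prob_compl_eq_one_sub hm, h3]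
  have h5 := poisson_tail r hr0 K hK
  rw [tsub_le_iff_right, ← ENNReal.ofReal_add (by positivity) (Finset.sum_nonneg (fun k _ => by positivity))]
  rw [← ENNReal.ofReal_one]
  exact ENNReal.ofReal_le_ofReal (by linarith)

lemma IsMarkedPoisson.none (h : IsMarkedPoisson P V μ S D) (Q : Set (E × ℕ)) (hQ : MeasurableSet Q)
    (hfin : (V.prod μ) Q ≠ ∞) :
    P {ω | cnt S D Q ω = 0} = ENNReal.ofReal (Real.exp (-((V.prod μ) Q).toReal)) := by
  have := h.law Q hQ hfin 0
  simpa using this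

lemma Heavy.locFin {s : Set E} {D : E → ℕ} {K : ℕ → ℕ} (h : Heavy s D 0 K) (x : s) (r : ℝ) :
    {z : s | dist x z ≤ r}.Finite := by
  obtain ⟨N0, hN0⟩ := h
  obtain ⟨m, hm⟩ := pow_unbounded_of_one_lt (dist (x : E) 0 + r) (by norm_num : (1 : ℝ) < 4)
  have h1 := (hN0 (max N0 m) (le_max_left _ _)).2
  have h2 : (s ∩ Metric.closedBall 0 (4 ^ (max N0 m + 2))).Finite := Set.finite_of_encard_le_coe h1
  have h3 : (Subtype.val '' {z : s | dist x z ≤ r}) ⊆ s ∩ Metric.closedBall 0 (4 ^ (max N0 m + 2)) := by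
    rintro _ ⟨z, hz, rfl⟩
    refine ⟨z.2, ?_⟩
    rw [Metric.mem_closedBall]
    have hz' : dist (x : E) z ≤ r := hz
    have h4 : dist (z : E) 0 ≤ dist (x : E) z + dist (x : E) 0 := by
      rw [dist_comm (x : E) z]; exact dist_triangle _ _ _
    have h5 : (4 : ℝ) ^ m ≤ 4 ^ (max N0 m + 2) :=
      pow_le_pow_right₀ (by norm_num) (by have := le_max_right N0 m; omega)
    linarith
  exact Set.Finite.of_finite_image (h2.subset h3) Subtype.val_injective.injOn

theorem heavy_ae [V.IsAddHaarMeasure] [IsProbabilityMeasure μ] (h : IsMarkedPoisson P V μ S D)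
    (hd : 1 ≤ Module.finrank ℝ E) (a : ℝ) (ha : 0 < a)
    (hμ : ∀ m : ℕ, a * (1 / 2 : ℝ) ^ m ≤ (μ (Set.Ici (4 ^ m))).toReal) :
    ∃ K : ℕ → ℕ, StrictMono K ∧ ∀ᵐ ω ∂P, Heavy (S ω) (D ω) 0 K := by
  set d := Module.finrank ℝ E with hdd
  set v : ℝ := (V (Metric.closedBall 0 1)).toReal with hv
  have hvfin : V (Metric.closedBall (0 : E) 1) ≠ ∞ := (isCompact_closedBall (0 : E) 1).measure_lt_top.ne
  have hvpos : 0 < v := ENNReal.toReal_pos (Metric.measure_closedBall_pos V 0 one_pos).ne' hvfin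
  obtain ⟨c, hc⟩ := pow_unbounded_of_one_lt (4 * 16 ^ d * v) (by norm_num : (1 : ℝ) < 4)
  set K : ℕ → ℕ := fun n => 4 ^ (n * d + c) with hK
  have hKmono : StrictMono K := by
    intro m n hmn
    apply Nat.pow_lt_pow_right (by norm_num)
    have : m * d < n * d := Nat.mul_lt_mul_of_pos_right hmn (by omega)
    omega
  refine ⟨K, hKmono, ?_⟩
  have hball : ∀ n : ℕ, V (Metric.closedBall (0 : E) (4 ^ n)) = ENNReal.ofReal ((4 ^ n) ^ d * v) := by
    intro n
    rw [Measure.addHaar_closedBall' V 0 (by positivity), ENNReal.ofReal_mul (by positivity), hv,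
      ENNReal.ofReal_toReal hvfin]
  have hmb : ∀ n : ℕ, MeasurableSet (Metric.closedBall (0 : E) (4 ^ n)) := fun n => measurableSet_closedBall
  -- first family of bad events
  have hq1 : ∀ n : ℕ, (V.prod μ) (Metric.closedBall (0 : E) (4 ^ (n + 2)) ×ˢ Set.univ)
      = ENNReal.ofReal ((4 ^ (n + 2)) ^ d * v) := by
    intro n
    rw [Measure.prod_prod, hball, measure_univ, mul_one]
  have hb1 : ∀ n : ℕ, P {ω | ¬ cnt S D (Metric.closedBall (0 : E) (4 ^ (n + 2)) ×ˢ Set.univ) ω ≤ (K n : ℕ∞)}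
      ≤ ENNReal.ofReal ((3 / 4 : ℝ) ^ n) := by
    intro n
    refine le_trans (h.many _ ((hmb _).prod MeasurableSet.univ) (by rw [hq1]; exact ENNReal.ofReal_ne_top)
      (K n) ?_) (ENNReal.ofReal_le_ofReal ?_)
    · rw [hq1, ENNReal.toReal_ofReal (by positivity), hK]
      push_cast
      have e1 : ((4 : ℝ) ^ (n + 2)) ^ d = 4 ^ (n * d) * 16 ^ d := by
        rw [pow_add, mul_pow, ← pow_mul]; norm_num
      rw [e1, pow_add]
      have h4 : (0 : ℝ) < 4 ^ (n * d) := by positivity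
      calc 4 * (4 ^ (n * d) * 16 ^ d * v) = 4 ^ (n * d) * (4 * 16 ^ d * v) := by ring
        _ ≤ 4 ^ (n * d) * 4 ^ c := mul_le_mul_of_nonneg_left hc.le h4.le
    · exact pow_le_pow_of_le_one (by norm_num) (by norm_num) hKmono.le_apply
  have hs1 : ∑' n, P {ω | ¬ cnt S D (Metric.closedBall (0 : E) (4 ^ (n + 2)) ×ˢ Set.univ) ω ≤ (K n : ℕ∞)} ≠ ∞ := by
    refine ne_top_of_le_ne_top ?_ (ENNReal.tsum_le_tsum hb1)
    rw [← ENNReal.ofReal_tsum_of_nonneg (fun n => by positivity)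
      (summable_geometric_of_lt_one (by norm_num) (by norm_num))]
    exact ENNReal.ofReal_ne_top
  -- second family of bad events
  have hq2 : ∀ n : ℕ, (V.prod μ) (Metric.closedBall (0 : E) (4 ^ n) ×ˢ Set.Ici (K n))
      = ENNReal.ofReal ((4 ^ n) ^ d * v) * μ (Set.Ici (K n)) := by
    intro n
    rw [Measure.prod_prod, hball]
  set β : ℝ := v * a * (1 / 2 : ℝ) ^ c with hβ
  have hβpos : 0 < β := by positivity
  have hb2 : ∀ n : ℕ, P {ω | cnt S D (Metric.closedBall (0 : E) (4 ^ n) ×ˢ Set.Ici (K n)) ω = 0}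
      ≤ ENNReal.ofReal (Real.exp (-β) ^ n) := by
    intro n
    have hfin : (V.prod μ) (Metric.closedBall (0 : E) (4 ^ n) ×ˢ Set.Ici (K n)) ≠ ∞ := by
      rw [hq2]
      exact ENNReal.mul_ne_top ENNReal.ofReal_ne_top (measure_ne_top _ _)
    rw [h.none _ ((hmb _).prod measurableSet_Ici) hfin]
    refine ENNReal.ofReal_le_ofReal ?_
    rw [← Real.exp_nat_mul]
    refine Real.exp_le_exp.2 ?_
    rw [hq2, ENNReal.toReal_mul, ENNReal.toReal_ofReal (by positivity)]
    have h1 := hμ (n * d + c)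
    have h2 : (4 ^ n) ^ d * v * (a * (1 / 2 : ℝ) ^ (n * d + c)) ≤ (4 ^ n) ^ d * v * (μ (Set.Ici (K n))).toReal :=
      mul_le_mul_of_nonneg_left h1 (by positivity)
    have h3 : (4 ^ n) ^ d * v * (a * (1 / 2 : ℝ) ^ (n * d + c)) = 2 ^ (n * d) * β := by
      rw [hβ, pow_add, ← pow_mul]
      have : (4 : ℝ) ^ (n * d) * (1 / 2) ^ (n * d) = 2 ^ (n * d) := by
        rw [← mul_pow]; norm_num
      calc (4 : ℝ) ^ (n * d) * v * (a * ((1 / 2) ^ (n * d) * (1 / 2) ^ c))
          = (4 ^ (n * d) * (1 / 2) ^ (n * d)) * (v * a * (1 / 2) ^ c) := by ring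
        _ = _ := by rw [this]
    have h4 : (n : ℝ) ≤ 2 ^ (n * d) := by
      have h5 : n < 2 ^ n := Nat.lt_two_pow_self
      have h6 : 2 ^ n ≤ 2 ^ (n * d) := Nat.pow_le_pow_right (by norm_num) (Nat.le_mul_of_pos_right n (by omega))
      exact_mod_cast (le_trans h5.le h6)
    have h7 : (n : ℝ) * β ≤ 2 ^ (n * d) * β := mul_le_mul_of_nonneg_right h4 hβpos.le
    linarith
  have hs2 : ∑' n, P {ω | cnt S D (Metric.closedBall (0 : E) (4 ^ n) ×ˢ Set.Ici (K n)) ω = 0} ≠ ∞ := by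
    refine ne_top_of_le_ne_top ?_ (ENNReal.tsum_le_tsum hb2)
    rw [← ENNReal.ofReal_tsum_of_nonneg (fun n => by positivity)
      (summable_geometric_of_lt_one (Real.exp_pos _).le (by rw [← Real.exp_zero]; exact Real.exp_lt_exp.2 (by linarith)))]
    exact ENNReal.ofReal_ne_top
  filter_upwards [ae_eventually_notMem hs1, ae_eventually_notMem hs2] with ω h1 h2
  obtain ⟨N0, hN0⟩ := eventually_atTop.1 (h1.and h2)
  refine ⟨N0, fun n hn => ?_⟩
  obtain ⟨h3, h4⟩ := hN0 n hn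
  constructor
  · have h5 : cnt S D (Metric.closedBall (0 : E) (4 ^ n) ×ˢ Set.Ici (K n)) ω ≠ 0 := h4
    unfold cnt at h5
    rw [Set.encard_ne_zero] at h5
    obtain ⟨x, hx1, hx2⟩ := h5
    rw [Set.mem_prod] at hx2
    refine ⟨x, hx1, ?_, hx2.2⟩
    exact Metric.mem_closedBall.1 hx2.1
  · have h5 : cnt S D (Metric.closedBall (0 : E) (4 ^ (n + 2)) ×ˢ Set.univ) ω ≤ (K n : ℕ∞) := by
      by_contra hcon
      exact h3 hcon
    refine le_trans (Set.encard_le_encard ?_) h5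
    rintro x ⟨hx1, hx2⟩
    exact ⟨hx1, hx2, Set.mem_univ _⟩

end

end Pool.Agent.X139.MM
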