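import Mathlib

set_option autoImplicit false

namespace Pool.Agent.X139.Sz

open Finset

/-- the number `n_u(uv)` of vertices strictly closer to `u` than to `v` -/
noncomputable def closer {V : Type} [Fintype V] (G : SimpleGraph V) (u v : V) : ℕ :=
  Nat.card {w : V // G.dist w u < G.dist w v}

open Classical in
/-- variable Wiener index: half the sum over ordered pairs of distinct vertices -/
noncomputable def wiener {V : Type} [Fintype V] (G : SimpleGraph V) (α : ℝ) : ℝ :=
  (1 / 2) * ∑ x : V, ∑ y : V, if x ≠ y then (G.dist x y : ℝ) ^ α else 0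

open Classical in
/-- variable Szeged index: half the sum over ordered pairs of adjacent vertices -/
noncomputable def szeged {V : Type} [Fintype V] (G : SimpleGraph V) (α : ℝ) : ℝ :=
  (1 / 2) * ∑ x : V, ∑ y : V, if G.Adj x y then ((closer G x y * closer G y x : ℕ) : ℝ) ^ α else 0

/-- a sufficient criterion to know all distances of a graph -/
lemma walk_of {V : Type} (G : SimpleGraph V) (f : V → V → ℕ)
    (h00 : ∀ x, f x x = 0)
    (hdesc : ∀ x y, x ≠ y → ∃ x', G.Adj x x' ∧ f x' y + 1 = f x y) :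
    ∀ (n : ℕ) (x y : V), f x y = n → ∃ p : G.Walk x y, p.length = n := by
  intro n
  induction n with
  | zero =>
    intro x y h
    by_cases hxy : x = y
    · subst hxy
      exact ⟨SimpleGraph.Walk.nil, rfl⟩
    · obtain ⟨x', _, hx'⟩ := hdesc x y hxy
      omega
  | succ n ih =>
    intro x y h
    have hxy : x ≠ y := by
      rintro rfl
      rw [h00] at h
      omega
    obtain ⟨x', hadj, hx'⟩ := hdesc x y hxy
    obtain ⟨p, hp⟩ := ih x' y (by omega)
    exact ⟨SimpleGraph.Walk.cons hadj p, by simp [hp]⟩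

lemma le_length {V : Type} (G : SimpleGraph V) (f : V → V → ℕ)
    (h00 : ∀ x, f x x = 0)
    (hlip : ∀ x x' y, G.Adj x x' → f x y ≤ f x' y + 1) {x y : V} (p : G.Walk x y) :
    f x y ≤ p.length := by
  induction p with
  | nil => simp [h00]
  | cons h p ih =>
    rw [SimpleGraph.Walk.length_cons]
    exact le_trans (hlip _ _ _ h) (by omega)

lemma dist_eq_of {V : Type} (G : SimpleGraph V) (f : V → V → ℕ)
    (h00 : ∀ x, f x x = 0)
    (hlip : ∀ x x' y, G.Adj x x' → f x y ≤ f x' y + 1)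
    (hdesc : ∀ x y, x ≠ y → ∃ x', G.Adj x x' ∧ f x' y + 1 = f x y) (x y : V) :
    G.Reachable x y ∧ G.dist x y = f x y := by
  obtain ⟨p, hp⟩ := walk_of G f h00 hdesc (f x y) x y rfl
  refine ⟨⟨p⟩, le_antisymm ?_ ?_⟩
  · rw [← hp]; exact SimpleGraph.dist_le p
  · obtain ⟨q, hq⟩ := SimpleGraph.Reachable.exists_walk_length_eq_dist (⟨p⟩ : G.Reachable x y)
    rw [← hq]
    exact le_length G f h00 hlip q

/-! the example -/

/-- vertices: `b` antipodal pairs, and a path with `l` vertices -/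
abbrev Vt (b l : ℕ) : Type := (Fin b × Bool) ⊕ Fin l

/-- the distance function -/
def df {b l : ℕ} : Vt b l → Vt b l → ℕ
  | Sum.inl x, Sum.inl y => if x = y then 0 else if x.1 = y.1 then 2 else 1
  | Sum.inl _, Sum.inr k => k.1 + 1
  | Sum.inr k, Sum.inl _ => k.1 + 1
  | Sum.inr k, Sum.inr m => (k.1 - m.1) + (m.1 - k.1)

lemma df_self {b l : ℕ} (x : Vt b l) : df x x = 0 := by
  rcases x with x | k <;> simp [df]

lemma df_comm {b l : ℕ} (x y : Vt b l) : df x y = df y x := by
  rcases x with x | k <;> rcases y with y | m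
  · simp only [df]
    by_cases h1 : x = y
    · simp [h1]
    · have h2 : y ≠ x := fun h => h1 h.symm
      simp only [h1, h2, if_false]
      by_cases h3 : x.1 = y.1
      · simp [h3]
      · have h4 : y.1 ≠ x.1 := fun h => h3 h.symm
        simp [h3, h4]
  · rfl
  · rfl
  · simp only [df]; omega

lemma df_tri {b l : ℕ} (x z y : Vt b l) : df x y ≤ df x z + df z y := by
  rcases x with x | k <;> rcases y with y | m <;> rcases z with z | n
  · simp only [df]
    by_cases h1 : x = y
    · simp [h1]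
    · by_cases h2 : x = z
      · subst h2; simp
      · by_cases h3 : z = y
        · subst h3; simp
        · simp only [h1, h2, h3, if_false]
          split_ifs <;> omega
  · simp only [df]
    split_ifs <;> omega
  · simp only [df]
    omega
  · simp only [df]
    omega
  · simp only [df]
    omega
  · simp only [df]
    omega
  · simp only [df]
    omega
  · simp only [df]
    omega

/-- the graph: adjacency is `df = 1` -/
def Gr (b l : ℕ) : SimpleGraph (Vt b l) where
  Adj x y := df x y = 1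
  symm := ⟨fun x y h => by
    show df y x = 1
    rw [df_comm]; exact h⟩
  loopless := ⟨fun x h => by
    have h' : df x x = 1 := h
    rw [df_self] at h'
    omega⟩

lemma adj_iff {b l : ℕ} (x y : Vt b l) : (Gr b l).Adj x y ↔ df x y = 1 := Iff.rfl

lemma dist_Gr {b l : ℕ} (hb : 2 ≤ b) (x y : Vt b l) :
    (Gr b l).Reachable x y ∧ (Gr b l).dist x y = df x y := by
  refine dist_eq_of (Gr b l) df df_self ?_ ?_ x y
  · intro x x' y h
    have h' : df x x' = 1 := h
    have := df_tri x x' y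
    omega
  · intro x y hxy
    rcases x with x | k <;> rcases y with y | m
    · have hne : x ≠ y := fun h => hxy (by rw [h])
      by_cases h1 : x.1 = y.1
      · -- go through another pair
        obtain ⟨j, hj⟩ : ∃ j : Fin b, j ≠ x.1 := by
          by_cases h0 : x.1 = ⟨0, by omega⟩
          · exact ⟨⟨1, by omega⟩, by rw [h0]; simp⟩
          · exact ⟨⟨0, by omega⟩, fun h => h0 h.symm⟩
        refine ⟨Sum.inl (j, true), ?_, ?_⟩
        · rw [adj_iff]
          have h2 : x ≠ (j, true) := fun h => hj (by rw [h])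
          simp only [df, h2, if_false]
          rw [if_neg (fun h => hj h.symm)]
        · have h2 : ((j, true) : Fin b × Bool) ≠ y := fun h => hj (by rw [h1, ← h])
          have h3 : j ≠ y.1 := fun h => hj (by rw [h1, ← h])
          simp only [df, h2, h3, hne, h1, if_false, if_true]
      · refine ⟨Sum.inl y, ?_, ?_⟩
        · rw [adj_iff]
          simp only [df, hne, h1, if_false]
        · simp only [df, hne, h1, if_false, if_true]
    · -- core to path: go to p_1
      refine ⟨Sum.inr ⟨0, by have := m.2; omega⟩, ?_, ?_⟩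
      · rw [adj_iff]; simp [df]
      · simp [df]
    · -- path to core
      by_cases hk : k.1 = 0
      · refine ⟨Sum.inl y, ?_, ?_⟩
        · rw [adj_iff]; simp [df, hk]
        · simp [df, hk]
      · refine ⟨Sum.inr ⟨k.1 - 1, by have := k.2; omega⟩, ?_, ?_⟩
        · rw [adj_iff]; simp only [df]; omega
        · simp only [df]; omega
    · have hkm : k.1 ≠ m.1 := fun h => hxy (by rw [Fin.ext h])
      rcases lt_or_gt_of_ne hkm with h | h
      · refine ⟨Sum.inr ⟨k.1 + 1, by have := m.2; omega⟩, ?_, ?_⟩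
        · rw [adj_iff]; simp only [df]; omega
        · simp only [df]; omega
      · refine ⟨Sum.inr ⟨k.1 - 1, by have := k.2; omega⟩, ?_, ?_⟩
        · rw [adj_iff]; simp only [df]; omega
        · simp only [df]; omega

/-! counts -/

lemma closer_eq {b l : ℕ} (hb : 2 ≤ b) (u v : Vt b l) :
    closer (Gr b l) u v = (univ.filter (fun w : Vt b l => df w u < df w v)).card := by
  unfold closer
  rw [Nat.card_eq_fintype_card, Fintype.card_subtype]
  congr 1
  ext w
  simp only [mem_filter, mem_univ, true_and]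
  rw [(dist_Gr hb w u).2, (dist_Gr hb w v).2]

lemma closer_pos {b l : ℕ} (hb : 2 ≤ b) (u v : Vt b l) (h : (Gr b l).Adj u v) :
    1 ≤ closer (Gr b l) u v := by
  rw [closer_eq hb, Nat.one_le_iff_ne_zero, ← Nat.pos_iff_ne_zero, Finset.card_pos]
  refine ⟨u, ?_⟩
  have h1 : df u v = 1 := h
  simp [df_self, h1]

lemma closer_cc {b l : ℕ} (hb : 2 ≤ b) (x y : Fin b × Bool) (h : x.1 ≠ y.1) :
    closer (Gr b l) (Sum.inl x) (Sum.inl y) = 2 := by
  rw [closer_eq hb]
  have : (univ.filter (fun w : Vt b l => df w (Sum.inl x) < df w (Sum.inl y)))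
      = {Sum.inl x, Sum.inl (y.1, !y.2)} := by
    ext w
    rcases w with w | k
    · simp only [mem_filter, mem_univ, true_and, mem_insert, mem_singleton, Sum.inl.injEq]
      simp only [df]
      by_cases h1 : w = x
      · subst h1
        have h2 : w ≠ y := fun h3 => h (by rw [h3])
        simp [h2, h]
      · by_cases h2 : w.1 = x.1
        · have h3 : w.1 ≠ y.1 := by rw [h2]; exact h
          have h4 : w ≠ y := fun h5 => h3 (by rw [h5])
          have h6 : w ≠ (y.1, !y.2) := fun h5 => h3 (by rw [h5])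
          simp [h1, h2, h4, h6, h]
        · by_cases h3 : w.1 = y.1
          · by_cases h4 : w.2 = y.2
            · have h5 : w = y := Prod.ext h3 h4
              subst h5
              have h7 : w ≠ (w.1, !w.2) := by
                intro h8
                have := congrArg Prod.snd h8
                simp at this
              simp [h1, h7]
            · have h5 : w = (y.1, !y.2) := by
                refine Prod.ext h3 ?_
                show w.2 = !y.2
                revert h4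
                rcases w.2 <;> rcases y.2 <;> simp
              have h6 : w ≠ y := fun h7 => h4 (by rw [h7])
              have h' : y.1 ≠ x.1 := fun e => h e.symm
              simp only [h1, h3, h6, h', if_false, if_true]
              simp [← h5]
          · have h4 : w ≠ y := fun h5 => h3 (by rw [h5])
            have h6 : w ≠ (y.1, !y.2) := fun h5 => h3 (by rw [h5])
            simp [h1, h2, h3, h4, h6]
    · simp [df]
  rw [this, Finset.card_pair]
  intro h1
  have h2 : x = (y.1, !y.2) := Sum.inl.inj h1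
  exact h (by rw [h2])

lemma closer_cp {b l : ℕ} (hb : 2 ≤ b) (x : Fin b × Bool) (k : Fin l) (hk : k.1 = 0) :
    closer (Gr b l) (Sum.inl x) (Sum.inr k) ≤ 1 := by
  rw [closer_eq hb]
  have : (univ.filter (fun w : Vt b l => df w (Sum.inl x) < df w (Sum.inr k))) ⊆ {Sum.inl x} := by
    intro w
    rcases w with w | m
    · simp only [mem_filter, mem_univ, true_and, mem_singleton, Sum.inl.injEq]
      simp only [df, hk]
      intro h
      by_contra h1
      rw [if_neg h1] at h
      split_ifs at h <;> omega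
    · simp only [mem_filter, mem_univ, true_and, df, hk]
      intro h
      omega
  exact le_trans (card_le_card this) (by simp)

lemma closer_pc {b l : ℕ} (hb : 2 ≤ b) (x : Fin b × Bool) (k : Fin l) (hk : k.1 = 0) :
    closer (Gr b l) (Sum.inr k) (Sum.inl x) ≤ l + 1 := by
  rw [closer_eq hb]
  have : (univ.filter (fun w : Vt b l => df w (Sum.inr k) < df w (Sum.inl x)))
      ⊆ insert (Sum.inl (x.1, !x.2)) ((univ : Finset (Fin l)).map ⟨Sum.inr, Sum.inr_injective⟩) := by
    intro w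
    rcases w with w | m
    · simp only [mem_filter, mem_univ, true_and, mem_insert, Sum.inl.injEq]
      simp only [df, hk]
      intro h
      left
      by_cases h1 : w = x
      · rw [if_pos h1] at h; omega
      · rw [if_neg h1] at h
        by_cases h2 : w.1 = x.1
        · refine Prod.ext h2 ?_
          have h3 : w.2 ≠ x.2 := fun h4 => h1 (Prod.ext h2 h4)
          show w.2 = !x.2
          revert h3
          rcases w.2 <;> rcases x.2 <;> simp
        · rw [if_neg h2] at h; omega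
    · intro _
      simp
  refine le_trans (card_le_card this) ?_
  refine le_trans (card_insert_le _ _) ?_
  simp

lemma closer_le_all {b l : ℕ} (u v : Vt b l) : closer (Gr b l) u v ≤ 2 * b + l := by
  unfold closer
  rw [Nat.card_eq_fintype_card]
  refine le_trans (Fintype.card_subtype_le _) ?_
  simp [mul_comm]

lemma closer_pp {b l : ℕ} (hb : 2 ≤ b) (k m : Fin l) (hk : k.1 = m.1 + 1) :
    closer (Gr b l) (Sum.inr k) (Sum.inr m) ≤ l := by
  rw [closer_eq hb]
  have : (univ.filter (fun w : Vt b l => df w (Sum.inr k) < df w (Sum.inr m)))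
      ⊆ ((univ : Finset (Fin l)).map ⟨Sum.inr, Sum.inr_injective⟩) := by
    intro w
    rcases w with w | n
    · simp only [mem_filter, mem_univ, true_and, df]
      intro h
      omega
    · intro _
      simp
  refine le_trans (card_le_card this) ?_
  simp

/-! blocks of the two sums -/

open Classical in
/-- the summand of `2 (Sz - W)` -/
noncomputable def gg {b l : ℕ} (α : ℝ) (x y : Vt b l) : ℝ :=
  (if (Gr b l).Adj x y then
      ((closer (Gr b l) x y * closer (Gr b l) y x : ℕ) : ℝ) ^ α else 0)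
    - (if x ≠ y then ((Gr b l).dist x y : ℝ) ^ α else 0)

lemma h_eq {b l : ℕ} (α : ℝ) :
    2 * (szeged (Gr b l) α - wiener (Gr b l) α) = ∑ x : Vt b l, ∑ y : Vt b l, gg α x y := by
  unfold szeged wiener gg
  simp only [Finset.sum_sub_distrib]
  ring_nf

lemma gg_cc {b l : ℕ} (hb : 2 ≤ b) (α : ℝ) (x y : Fin b × Bool) :
    gg (l := l) α (Sum.inl x) (Sum.inl y) =
      if x = y then 0 else if x.1 = y.1 then - (2 : ℝ) ^ α else (4 : ℝ) ^ α - 1 := by
  unfold gg
  rw [adj_iff, (dist_Gr hb _ _).2]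
  by_cases h : x = y
  · subst h
    simp [df]
  · by_cases h1 : x.1 = y.1
    · simp [df, h, h1]
    · rw [closer_cc hb x y h1, closer_cc hb y x (fun e => h1 e.symm)]
      have e : (((2 * 2 : ℕ) : ℝ)) = 4 := by norm_num
      simp only [df, h, h1, if_false, e]
      simp [h]

lemma sum_cc {b l : ℕ} (hb : 2 ≤ b) (α : ℝ) (x : Fin b × Bool) :
    ∑ y : Fin b × Bool, gg (l := l) α (Sum.inl x) (Sum.inl y) =
      ((b : ℝ) - 1) * (2 * ((4 : ℝ) ^ α - 1)) - (2 : ℝ) ^ α := by
  simp only [gg_cc hb]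
  rw [Fintype.sum_prod_type]
  have h1 : ∀ j : Fin b, ∑ t : Bool, (if x = (j, t) then (0 : ℝ) else if x.1 = j then - (2 : ℝ) ^ α
      else (4 : ℝ) ^ α - 1) = 2 * ((4 : ℝ) ^ α - 1) +
        (if j = x.1 then - (2 : ℝ) ^ α - 2 * ((4 : ℝ) ^ α - 1) else 0) := by
    intro j
    obtain ⟨i, s⟩ := x
    by_cases hj : j = i
    · subst hj
      cases s <;> simp
    · have hj' : ¬ i = j := fun e => hj e.symm
      simp [hj, hj']
      ring_nf
  simp only [h1]
  rw [Finset.sum_add_distrib, Finset.sum_ite_eq' univ x.1]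
  simp
  ring

lemma gg_lower {b l : ℕ} (hb : 2 ≤ b) (α : ℝ) (x y : Vt b l) (B : ℝ) (hB0 : 0 ≤ B)
    (hB : (df x y : ℝ) ^ α ≤ B) : - B ≤ gg α x y := by
  unfold gg
  rw [(dist_Gr hb _ _).2]
  have h1 : 0 ≤ ((closer (Gr b l) x y * closer (Gr b l) y x : ℕ) : ℝ) ^ α := by positivity
  split_ifs <;> linarith

lemma gg_cp_lower {b l : ℕ} (hb : 2 ≤ b) (α : ℝ) (hα : 0 ≤ α) (x : Fin b × Bool) (k : Fin l) :
    - (l : ℝ) ^ α ≤ gg α (Sum.inl x) (Sum.inr k) := by
  refine gg_lower hb α _ _ _ (by positivity) ?_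
  apply Real.rpow_le_rpow (by positivity) _ hα
  have := k.2
  exact_mod_cast (by simp only [df]; omega : df (Sum.inl x : Vt b l) (Sum.inr k) ≤ l)

lemma gg_pc_lower {b l : ℕ} (hb : 2 ≤ b) (α : ℝ) (hα : 0 ≤ α) (x : Fin b × Bool) (k : Fin l) :
    - (l : ℝ) ^ α ≤ gg α (Sum.inr k) (Sum.inl x) := by
  refine gg_lower hb α _ _ _ (by positivity) ?_
  apply Real.rpow_le_rpow (by positivity) _ hα
  have := k.2
  exact_mod_cast (by simp only [df]; omega : df (Sum.inr k : Vt b l) (Sum.inl x) ≤ l)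

lemma gg_pp_lower {b l : ℕ} (hb : 2 ≤ b) (α : ℝ) (hα : 0 ≤ α) (k m : Fin l) :
    - (l : ℝ) ^ α ≤ gg (b := b) α (Sum.inr k) (Sum.inr m) := by
  refine gg_lower hb α _ _ _ (by positivity) ?_
  apply Real.rpow_le_rpow (by positivity) _ hα
  have := k.2
  have := m.2
  exact_mod_cast (by simp only [df]; omega : df (Sum.inr k : Vt b l) (Sum.inr m) ≤ l)

/-- lower bound on `2 h` -/
lemma h_lower {b l : ℕ} (hb : 2 ≤ b) (α : ℝ) (hα : 0 ≤ α) :
    (2 * b : ℝ) * (((b : ℝ) - 1) * (2 * ((4 : ℝ) ^ α - 1)) - (2 : ℝ) ^ α - l * (l : ℝ) ^ α)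
      - l * ((2 * b : ℝ) * (l : ℝ) ^ α + l * (l : ℝ) ^ α)
      ≤ 2 * (szeged (Gr b l) α - wiener (Gr b l) α) := by
  rw [h_eq, Fintype.sum_sum_type]
  have h1 : (2 * b : ℝ) * (((b : ℝ) - 1) * (2 * ((4 : ℝ) ^ α - 1)) - (2 : ℝ) ^ α - l * (l : ℝ) ^ α)
      ≤ ∑ x : Fin b × Bool, ∑ y : Vt b l, gg α (Sum.inl x) y := by
    have h2 : ∀ x ∈ (univ : Finset (Fin b × Bool)),
        (((b : ℝ) - 1) * (2 * ((4 : ℝ) ^ α - 1)) - (2 : ℝ) ^ α - l * (l : ℝ) ^ α)
        ≤ ∑ y : Vt b l, gg α (Sum.inl x) y := by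
      intro x _
      rw [Fintype.sum_sum_type, sum_cc hb]
      have h3 := Finset.card_nsmul_le_sum (univ : Finset (Fin l))
        (fun k => gg α (Sum.inl x : Vt b l) (Sum.inr k)) (- (l : ℝ) ^ α)
        (fun k _ => gg_cp_lower hb α hα x k)
      rw [nsmul_eq_mul] at h3
      simp only [card_univ, Fintype.card_fin] at h3
      linarith
    have h4 := Finset.card_nsmul_le_sum (univ : Finset (Fin b × Bool)) _ _ h2
    rw [nsmul_eq_mul] at h4
    have h5 : ((univ : Finset (Fin b × Bool)).card : ℝ) = 2 * b := by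
      simp [mul_comm]
    rw [h5] at h4
    exact h4
  have h6 : - (l * ((2 * b : ℝ) * (l : ℝ) ^ α + l * (l : ℝ) ^ α))
      ≤ ∑ k : Fin l, ∑ y : Vt b l, gg α (Sum.inr k) y := by
    have h2 : ∀ k ∈ (univ : Finset (Fin l)),
        - ((2 * b : ℝ) * (l : ℝ) ^ α + l * (l : ℝ) ^ α)
        ≤ ∑ y : Vt b l, gg α (Sum.inr k) y := by
      intro k _
      rw [Fintype.sum_sum_type]
      have h3 := Finset.card_nsmul_le_sum (univ : Finset (Fin l))
        (fun m => gg α (Sum.inr k : Vt b l) (Sum.inr m)) (- (l : ℝ) ^ α)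
        (fun m _ => gg_pp_lower hb α hα k m)
      have h3' := Finset.card_nsmul_le_sum (univ : Finset (Fin b × Bool))
        (fun x => gg α (Sum.inr k : Vt b l) (Sum.inl x)) (- (l : ℝ) ^ α)
        (fun x _ => gg_pc_lower hb α hα x k)
      rw [nsmul_eq_mul] at h3 h3'
      have h5 : ((univ : Finset (Fin b × Bool)).card : ℝ) = 2 * b := by
        simp [mul_comm]
      rw [h5] at h3'
      simp only [card_univ, Fintype.card_fin] at h3
      linarith
    have h4 := Finset.card_nsmul_le_sum (univ : Finset (Fin l)) _ _ h2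
    rw [nsmul_eq_mul] at h4
    simp only [card_univ, Fintype.card_fin] at h4
    linarith
  linarith

lemma gg_cp_upper {b l : ℕ} (hb : 2 ≤ b) (α : ℝ) (hα : 0 ≤ α) (x : Fin b × Bool) (k : Fin l) :
    gg α (Sum.inl x) (Sum.inr k) ≤ (if k.1 = 0 then ((l : ℝ) + 1) ^ α else 0) - ((k.1 : ℝ) + 1) ^ α := by
  unfold gg
  rw [adj_iff, (dist_Gr hb _ _).2]
  have e1 : df (Sum.inl x : Vt b l) (Sum.inr k) = k.1 + 1 := rfl
  rw [e1, if_pos (by simp : (Sum.inl x : Vt b l) ≠ Sum.inr k)]
  push_cast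
  by_cases hk : k.1 = 0
  · rw [if_pos (by omega), if_pos hk]
    have h2 : ((closer (Gr b l) (Sum.inl x) (Sum.inr k) : ℝ) *
        (closer (Gr b l) (Sum.inr k) (Sum.inl x) : ℝ)) ^ α ≤ ((l : ℝ) + 1) ^ α := by
      apply Real.rpow_le_rpow (by positivity) _ hα
      have h3 : (closer (Gr b l) (Sum.inl x) (Sum.inr k) : ℝ) ≤ 1 := by
        exact_mod_cast closer_cp hb x k hk
      have h4 : (closer (Gr b l) (Sum.inr k) (Sum.inl x) : ℝ) ≤ l + 1 := by
        exact_mod_cast closer_pc hb x k hk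
      calc _ ≤ 1 * ((l : ℝ) + 1) := mul_le_mul h3 h4 (by positivity) (by positivity)
        _ = _ := one_mul _
    linarith
  · rw [if_neg (by omega), if_neg hk]

lemma gg_comm {b l : ℕ} (α : ℝ) (x y : Vt b l) : gg α x y = gg α y x := by
  unfold gg
  rw [SimpleGraph.dist_comm, mul_comm (closer (Gr b l) x y)]
  congr 1
  · by_cases h : (Gr b l).Adj x y
    · rw [if_pos h, if_pos h.symm]
    · rw [if_neg h, if_neg (fun e => h e.symm)]
  · by_cases h : x = y
    · rw [h]
    · rw [if_pos h, if_pos (fun e => h e.symm)]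

lemma gg_pp_upper {b l : ℕ} (hb : 2 ≤ b) (α : ℝ) (hα : 0 ≤ α) (k m : Fin l) :
    gg (b := b) α (Sum.inr k) (Sum.inr m) ≤
      (if k.1 = m.1 + 1 then ((2 * b + l : ℝ) * l) ^ α else 0)
      + (if m.1 = k.1 + 1 then ((2 * b + l : ℝ) * l) ^ α else 0) := by
  unfold gg
  rw [adj_iff, (dist_Gr hb _ _).2]
  have hC : 0 ≤ ((2 * b + l : ℝ) * l) ^ α := by positivity
  have hD : (0 : ℝ) ≤ if (Sum.inr k : Vt b l) ≠ Sum.inr m then
      ((df (Sum.inr k : Vt b l) (Sum.inr m) : ℕ) : ℝ) ^ α else 0 := by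
    by_cases h : (Sum.inr k : Vt b l) ≠ Sum.inr m
    · rw [if_pos h]; positivity
    · rw [if_neg h]
  have hE : (if df (Sum.inr k : Vt b l) (Sum.inr m) = 1 then
      ((closer (Gr b l) (Sum.inr k) (Sum.inr m) * closer (Gr b l) (Sum.inr m) (Sum.inr k) : ℕ) : ℝ) ^ α
      else 0) ≤ (if k.1 = m.1 + 1 then ((2 * b + l : ℝ) * l) ^ α else 0)
      + (if m.1 = k.1 + 1 then ((2 * b + l : ℝ) * l) ^ α else 0) := by
    by_cases h1 : k.1 = m.1 + 1
    · rw [if_pos (by simp only [df]; omega), if_pos h1, if_neg (by omega), add_zero]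
      apply Real.rpow_le_rpow (by positivity) _ hα
      push_cast
      have h3 : (closer (Gr b l) (Sum.inr k) (Sum.inr m) : ℝ) ≤ l := by
        exact_mod_cast closer_pp hb k m h1
      have h4 : (closer (Gr b l) (Sum.inr m) (Sum.inr k) : ℝ) ≤ 2 * b + l := by
        exact_mod_cast closer_le_all (Sum.inr m) (Sum.inr k)
      calc _ ≤ (l : ℝ) * (2 * b + l) := mul_le_mul h3 h4 (by positivity) (by positivity)
        _ = _ := mul_comm _ _
    · by_cases h2 : m.1 = k.1 + 1
      · rw [if_pos (by simp only [df]; omega), if_neg h1, if_pos h2, zero_add]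
        apply Real.rpow_le_rpow (by positivity) _ hα
        push_cast
        have h3 : (closer (Gr b l) (Sum.inr m) (Sum.inr k) : ℝ) ≤ l := by
          exact_mod_cast closer_pp hb m k h2
        have h4 : (closer (Gr b l) (Sum.inr k) (Sum.inr m) : ℝ) ≤ 2 * b + l := by
          exact_mod_cast closer_le_all (Sum.inr k) (Sum.inr m)
        exact mul_le_mul h4 h3 (by positivity) (by positivity)
      · rw [if_neg (by simp only [df]; omega), if_neg h1, if_neg h2, add_zero]
  have hE' := hE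
  by_cases h : df (Sum.inr k : Vt b l) (Sum.inr m) = 1
  · rw [if_pos h] at hE' ⊢
    by_cases h' : (Sum.inr k : Vt b l) ≠ Sum.inr m
    · rw [if_pos h'] at hD ⊢
      linarith
    · rw [if_neg h']
      linarith
  · rw [if_neg h] at hE' ⊢
    by_cases h' : (Sum.inr k : Vt b l) ≠ Sum.inr m
    · rw [if_pos h'] at hD ⊢
      linarith
    · rw [if_neg h']
      linarith

lemma sum_pp_upper {b l : ℕ} (hb : 2 ≤ b) (α : ℝ) (hα : 0 ≤ α) (k : Fin l) :
    ∑ m : Fin l, gg (b := b) α (Sum.inr k) (Sum.inr m) ≤ 2 * ((2 * b + l : ℝ) * l) ^ α := by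
  have hC : 0 ≤ ((2 * b + l : ℝ) * l) ^ α := by positivity
  have h0 : ∑ m : Fin l, gg (b := b) α (Sum.inr k) (Sum.inr m) ≤
      ∑ m : Fin l, ((if k.1 = m.1 + 1 then ((2 * b + l : ℝ) * l) ^ α else 0)
      + (if m.1 = k.1 + 1 then ((2 * b + l : ℝ) * l) ^ α else 0)) :=
    Finset.sum_le_sum (fun m _ => gg_pp_upper hb α hα k m)
  refine le_trans h0 ?_
  rw [Finset.sum_add_distrib, two_mul (((2 * b + l : ℝ) * l) ^ α)]
  refine add_le_add ?_ ?_
  · rw [← Finset.sum_filter, Finset.sum_const, nsmul_eq_mul]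
    have : (univ.filter (fun m : Fin l => k.1 = m.1 + 1)).card ≤ 1 := by
      rw [Finset.card_le_one]
      intro a ha c hc
      simp at ha hc
      exact Fin.ext (by omega)
    have h2 : ((univ.filter (fun m : Fin l => k.1 = m.1 + 1)).card : ℝ) ≤ 1 := by exact_mod_cast this
    nlinarith
  · rw [← Finset.sum_filter, Finset.sum_const, nsmul_eq_mul]
    have : (univ.filter (fun m : Fin l => m.1 = k.1 + 1)).card ≤ 1 := by
      rw [Finset.card_le_one]
      intro a ha c hc
      simp at ha hc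
      exact Fin.ext (by omega)
    have h2 : ((univ.filter (fun m : Fin l => m.1 = k.1 + 1)).card : ℝ) ≤ 1 := by exact_mod_cast this
    nlinarith

lemma sum_cp_upper {b l : ℕ} (hb : 2 ≤ b) (α : ℝ) (hα : 0 ≤ α) (x : Fin b × Bool) :
    ∑ k : Fin l, gg α (Sum.inl x) (Sum.inr k) ≤ ((l : ℝ) + 1) ^ α - ∑ k : Fin l, ((k.1 : ℝ) + 1) ^ α := by
  refine le_trans (Finset.sum_le_sum (fun k _ => gg_cp_upper hb α hα x k)) ?_
  rw [Finset.sum_sub_distrib]
  have hC : 0 ≤ ((l : ℝ) + 1) ^ α := by positivity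
  have h1 : ∑ k : Fin l, (if k.1 = 0 then ((l : ℝ) + 1) ^ α else 0) ≤ ((l : ℝ) + 1) ^ α := by
    rw [← Finset.sum_filter, Finset.sum_const, nsmul_eq_mul]
    have : (univ.filter (fun m : Fin l => m.1 = 0)).card ≤ 1 := by
      rw [Finset.card_le_one]
      intro a ha c hc
      simp at ha hc
      exact Fin.ext (by omega)
    have h2 : ((univ.filter (fun m : Fin l => m.1 = 0)).card : ℝ) ≤ 1 := by exact_mod_cast this
    nlinarith
  linarith

/-- upper bound on `2 h` -/
lemma h_upper {b l : ℕ} (hb : 2 ≤ b) (α : ℝ) (hα : 0 ≤ α) :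
    2 * (szeged (Gr b l) α - wiener (Gr b l) α) ≤
    (2 * b : ℝ) * (((b : ℝ) - 1) * (2 * ((4 : ℝ) ^ α - 1)) - (2 : ℝ) ^ α)
      + 2 * ((2 * b : ℝ) * (((l : ℝ) + 1) ^ α - ∑ k : Fin l, ((k.1 : ℝ) + 1) ^ α))
      + l * (2 * ((2 * b + l : ℝ) * l) ^ α) := by
  rw [h_eq, Fintype.sum_sum_type]
  have hcard : ((univ : Finset (Fin b × Bool)).card : ℝ) = 2 * b := by
    simp [mul_comm]
  have h1 : ∑ x : Fin b × Bool, ∑ y : Vt b l, gg α (Sum.inl x) y ≤
      (2 * b : ℝ) * ((((b : ℝ) - 1) * (2 * ((4 : ℝ) ^ α - 1)) - (2 : ℝ) ^ α)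
        + (((l : ℝ) + 1) ^ α - ∑ k : Fin l, ((k.1 : ℝ) + 1) ^ α)) := by
    have h2 : ∀ x ∈ (univ : Finset (Fin b × Bool)), ∑ y : Vt b l, gg α (Sum.inl x) y ≤
        ((((b : ℝ) - 1) * (2 * ((4 : ℝ) ^ α - 1)) - (2 : ℝ) ^ α)
        + (((l : ℝ) + 1) ^ α - ∑ k : Fin l, ((k.1 : ℝ) + 1) ^ α)) := by
      intro x _
      rw [Fintype.sum_sum_type, sum_cc hb]
      have := sum_cp_upper hb α hα x (l := l)
      linarith
    have h4 := Finset.sum_le_card_nsmul (univ : Finset (Fin b × Bool)) _ _ h2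
    rw [nsmul_eq_mul, hcard] at h4
    exact h4
  have h6 : ∑ k : Fin l, ∑ y : Vt b l, gg α (Sum.inr k) y ≤
      (2 * b : ℝ) * (((l : ℝ) + 1) ^ α - ∑ k : Fin l, ((k.1 : ℝ) + 1) ^ α)
      + l * (2 * ((2 * b + l : ℝ) * l) ^ α) := by
    simp only [Fintype.sum_sum_type]
    rw [Finset.sum_add_distrib]
    refine add_le_add ?_ ?_
    · rw [Finset.sum_comm]
      have h2 : ∀ x ∈ (univ : Finset (Fin b × Bool)), ∑ k : Fin l, gg α (Sum.inr k : Vt b l) (Sum.inl x) ≤
          (((l : ℝ) + 1) ^ α - ∑ k : Fin l, ((k.1 : ℝ) + 1) ^ α) := by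
        intro x _
        simp only [gg_comm α (Sum.inr _ : Vt b l) (Sum.inl x)]
        exact sum_cp_upper hb α hα x
      have h4 := Finset.sum_le_card_nsmul (univ : Finset (Fin b × Bool)) _ _ h2
      rw [nsmul_eq_mul, hcard] at h4
      exact h4
    · have h4 := Finset.sum_le_card_nsmul (univ : Finset (Fin l)) _ _
        (fun k _ => sum_pp_upper (b := b) hb α hα k)
      rw [nsmul_eq_mul] at h4
      simp only [card_univ, Fintype.card_fin] at h4
      exact h4
  linarith

/-! the concrete instance: `l = 16^4`, `b = 50 l` -/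

/-- number of path vertices -/
def LL : ℕ := 65536

/-- number of antipodal pairs -/
def BB : ℕ := 3276800

lemma rpow_quarter : ((65536 : ℝ)) ^ (1 / 4 : ℝ) = 16 := by
  rw [show (65536 : ℝ) = 16 ^ (4 : ℝ) by norm_num, ← Real.rpow_mul (by norm_num)]
  norm_num

lemma rpow_half : ((65536 : ℝ)) ^ (1 / 2 : ℝ) = 256 := by
  rw [show (65536 : ℝ) = 256 ^ (2 : ℝ) by norm_num, ← Real.rpow_mul (by norm_num)]
  norm_num

lemma four_quarter : (7 / 5 : ℝ) ≤ (4 : ℝ) ^ (1 / 4 : ℝ) := by
  have h : (7 / 5 : ℝ) = ((7 / 5 : ℝ) ^ (4 : ℝ)) ^ (1 / 4 : ℝ) := by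
    rw [← Real.rpow_mul (by norm_num)]
    norm_num
  rw [h]
  apply Real.rpow_le_rpow (by positivity) _ (by norm_num)
  norm_num

lemma two_quarter : (2 : ℝ) ^ (1 / 4 : ℝ) ≤ 2 := by
  calc (2 : ℝ) ^ (1 / 4 : ℝ) ≤ (2 : ℝ) ^ (1 : ℝ) :=
        Real.rpow_le_rpow_of_exponent_le (by norm_num) (by norm_num)
    _ = 2 := by norm_num

lemma four_half : (4 : ℝ) ^ (1 / 2 : ℝ) = 2 := by
  rw [show (4 : ℝ) = 2 ^ (2 : ℝ) by norm_num, ← Real.rpow_mul (by norm_num)]
  norm_num

noncomputable def hh (α : ℝ) : ℝ := szeged (Gr BB LL) α - wiener (Gr BB LL) α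

lemma BB2 : 2 ≤ BB := by unfold BB; norm_num

lemma hh_quarter : 0 < hh (1 / 4) := by
  have h := h_lower (b := BB) (l := LL) BB2 (1 / 4) (by norm_num)
  have e1 : ((LL : ℕ) : ℝ) = 65536 := by unfold LL; norm_num
  have e2 : ((BB : ℕ) : ℝ) = 3276800 := by unfold BB; norm_num
  rw [e1, e2, rpow_quarter] at h
  have h1 := four_quarter
  have h2 := two_quarter
  unfold hh
  nlinarith

lemma sum_half : (96 * 65536 : ℝ) ≤ ∑ k : Fin LL, ((k.1 : ℝ) + 1) ^ (1 / 2 : ℝ) := by
  rw [Fin.sum_univ_eq_sum_range (fun k => ((k : ℝ) + 1) ^ (1 / 2 : ℝ)) LL]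
  have h1 : ∑ k ∈ Finset.Ico 16384 LL, (128 : ℝ) ≤ ∑ k ∈ Finset.Ico 16384 LL, ((k : ℝ) + 1) ^ (1 / 2 : ℝ) := by
    refine Finset.sum_le_sum (fun k hk => ?_)
    rw [Finset.mem_Ico] at hk
    have h2 : (16384 : ℝ) ≤ k := by exact_mod_cast hk.1
    have h3 : (128 : ℝ) = (16384 : ℝ) ^ (1 / 2 : ℝ) := by
      rw [show (16384 : ℝ) = 128 ^ (2 : ℝ) by norm_num, ← Real.rpow_mul (by norm_num)]
      norm_num
    rw [h3]
    exact Real.rpow_le_rpow (by norm_num) (by linarith) (by norm_num)
  have h2 : ∑ k ∈ Finset.Ico 16384 LL, ((k : ℝ) + 1) ^ (1 / 2 : ℝ)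
      ≤ ∑ k ∈ Finset.range LL, ((k : ℝ) + 1) ^ (1 / 2 : ℝ) := by
    refine Finset.sum_le_sum_of_subset_of_nonneg ?_ (fun k _ _ => by positivity)
    intro k hk
    rw [Finset.mem_Ico] at hk
    exact Finset.mem_range.2 hk.2
  have h3 : ∑ k ∈ Finset.Ico 16384 LL, (128 : ℝ) = 49152 * 128 := by
    rw [Finset.sum_const, Nat.card_Ico, nsmul_eq_mul]
    unfold LL
    norm_num
  linarith

lemma hh_half : hh (1 / 2) < 0 := by
  have h := h_upper (b := BB) (l := LL) BB2 (1 / 2) (by norm_num)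
  have hs := sum_half
  have e1 : ((LL : ℕ) : ℝ) = 65536 := by unfold LL; norm_num
  have e2 : ((BB : ℕ) : ℝ) = 3276800 := by unfold BB; norm_num
  rw [e1, e2, four_half] at h
  have h1 : ((65536 : ℝ) + 1) ^ (1 / 2 : ℝ) ≤ 257 := by
    have : (257 : ℝ) = (257 ^ (2 : ℝ)) ^ (1 / 2 : ℝ) := by
      rw [← Real.rpow_mul (by norm_num)]; norm_num
    rw [this]
    apply Real.rpow_le_rpow (by positivity) _ (by norm_num)
    norm_num
  have h2 : (((2 : ℝ) * 3276800 + 65536) * 65536) ^ (1 / 2 : ℝ) ≤ 11 * 65536 := by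
    have : (11 * 65536 : ℝ) = ((11 * 65536) ^ (2 : ℝ)) ^ (1 / 2 : ℝ) := by
      rw [← Real.rpow_mul (by norm_num)]; norm_num
    rw [this]
    apply Real.rpow_le_rpow (by positivity) _ (by norm_num)
    norm_num
  have h3 : 0 < (2 : ℝ) ^ (1 / 2 : ℝ) := by positivity
  unfold hh
  nlinarith

lemma h_zero {b l : ℕ} (hb : 2 ≤ b) : 2 * (szeged (Gr b l) 0 - wiener (Gr b l) 0) < 0 := by
  rw [h_eq]
  have hle : ∀ x y : Vt b l, gg 0 x y ≤ 0 := by
    intro x y
    unfold gg
    rw [Real.rpow_zero, Real.rpow_zero]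
    by_cases h1 : (Gr b l).Adj x y
    · rw [if_pos h1, if_pos h1.ne]; norm_num
    · rw [if_neg h1]
      by_cases h2 : x ≠ y
      · rw [if_pos h2]; norm_num
      · rw [if_neg h2]; norm_num
  have i0 : Fin b := ⟨0, by omega⟩
  refine lt_of_le_of_ne (Finset.sum_nonpos (fun x _ => Finset.sum_nonpos (fun y _ => hle x y))) ?_
  intro h0
  have h1 := (Finset.sum_eq_zero_iff_of_nonpos
    (fun x _ => Finset.sum_nonpos (fun y _ => hle x y))).1 h0 (Sum.inl (i0, true)) (mem_univ _)
  have h2 := (Finset.sum_eq_zero_iff_of_nonpos (fun y _ => hle _ y)).1 h1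
    (Sum.inl (i0, false)) (mem_univ _)
  rw [gg_cc hb] at h2
  simp at h2

lemma hh_zero : hh 0 < 0 := by
  have h := h_zero (b := BB) (l := LL) BB2
  unfold hh
  linarith

lemma hh_cont : Continuous hh := by
  unfold hh szeged wiener
  refine Continuous.sub ?_ ?_
  · refine continuous_const.mul (continuous_finsetSum _ (fun x _ => continuous_finsetSum _ (fun y _ => ?_)))
    by_cases h : (Gr BB LL).Adj x y
    · simp only [h, if_true]
      refine Real.continuous_const_rpow ?_
      have h1 := closer_pos BB2 x y h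
      have h2 := closer_pos BB2 y x h.symm
      have : 0 < closer (Gr BB LL) x y * closer (Gr BB LL) y x := by positivity
      exact_mod_cast this.ne'
    · simp only [h, if_false]
      exact continuous_const
  · refine continuous_const.mul (continuous_finsetSum _ (fun x _ => continuous_finsetSum _ (fun y _ => ?_)))
    by_cases h : x = y
    · simp only [ne_eq, h, not_true_eq_false, if_false]
      exact continuous_const
    · simp only [ne_eq, h, not_false_eq_true, if_true]
      refine Real.continuous_const_rpow ?_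
      have h1 := (dist_Gr BB2 x y).1
      have : (Gr BB LL).dist x y ≠ 0 := by
        rw [ne_eq, h1.dist_eq_zero_iff]; exact h
      exact_mod_cast this

end Pool.Agent.X139.Sz
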